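import Pool.Agent.Lib_MP_e73b0e.Defs

/-! PIECE A1: polynomial families. -/

set_option autoImplicit false

open Polynomial

namespace Pool.Agent.FewEig

variable {K R : Type} [Field K] [Ring R] [Algebra K R]

theorem PolyFam.mono {d e : ℕ} {f : K → R} (h : PolyFam d f) (hde : d ≤ e) : PolyFam e f := by
  obtain ⟨r, hr⟩ := h
  refine ⟨fun i => if i ∈ Finset.range (d + 1) then r i else 0, fun w => ?_⟩
  rw [hr w]
  have hsub : Finset.range (d + 1) ⊆ Finset.range (e + 1) :=
    Finset.range_subset_range.2 (by omega)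
  rw [← Finset.sum_subset hsub]
  · refine Finset.sum_congr rfl fun i hi => ?_
    simp only
    rw [if_pos hi]
  · intro i _ hi
    simp only
    rw [if_neg hi, smul_zero]

/-- monomials -/
private theorem A1_mono_aux (i : ℕ) (r : R) : PolyFam i (fun w : K => w ^ i • r) := by
  refine ⟨fun j => if j = i then r else 0, fun w => ?_⟩
  rw [Finset.sum_eq_single i]
  · simp only
    rw [if_pos trivial]
  · intro j _ hj
    simp only
    rw [if_neg hj, smul_zero]
  · intro h
    exact absurd (Finset.mem_range.2 (Nat.lt_succ_self i)) h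

theorem PolyFam.const (r : R) (d : ℕ) : PolyFam d (fun _ : K => r) := by
  have h := (A1_mono_aux (K := K) 0 r).mono (Nat.zero_le d)
  simpa using h

theorem PolyFam.add {d : ℕ} {f g : K → R} (hf : PolyFam d f) (hg : PolyFam d g) :
    PolyFam d (fun w => f w + g w) := by
  obtain ⟨r, hr⟩ := hf
  obtain ⟨s, hs⟩ := hg
  refine ⟨fun i => r i + s i, fun w => ?_⟩
  simp only
  rw [hr w, hs w, ← Finset.sum_add_distrib]
  exact Finset.sum_congr rfl fun i _ => (smul_add _ _ _).symm

theorem PolyFam.sum {ι : Type} (s : Finset ι) {d : ℕ} {f : ι → K → R} (hf : ∀ i ∈ s, PolyFam d (f i)) :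
    PolyFam d (fun w => ∑ i ∈ s, f i w) := by
  classical
  induction s using Finset.induction_on with
  | empty =>
    have h := PolyFam.const (K := K) (0 : R) d
    simpa using h
  | insert a s ha ih =>
    have h1 := (hf a (Finset.mem_insert_self a s)).add
      (ih fun i hi => hf i (Finset.mem_insert_of_mem hi))
    have h2 : (fun w => ∑ i ∈ insert a s, f i w) = fun w => f a w + ∑ i ∈ s, f i w := by
      funext w
      rw [Finset.sum_insert ha]
    rw [h2]
    exact h1

theorem PolyFam.mul {d e : ℕ} {f g : K → R} (hf : PolyFam d f) (hg : PolyFam e g) :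
    PolyFam (d + e) (fun w => f w * g w) := by
  obtain ⟨r, hr⟩ := hf
  obtain ⟨s, hs⟩ := hg
  have h1 : (fun w => f w * g w) = fun w => ∑ i ∈ Finset.range (d + 1),
      ∑ j ∈ Finset.range (e + 1), w ^ (i + j) • (r i * s j) := by
    funext w
    rw [hr w, hs w, Finset.sum_mul_sum]
    refine Finset.sum_congr rfl fun i _ => Finset.sum_congr rfl fun j _ => ?_
    rw [smul_mul_smul_comm, pow_add]
  rw [h1]
  refine PolyFam.sum _ fun i hi => PolyFam.sum _ fun j hj => ?_
  have hi' := Finset.mem_range.1 hi
  have hj' := Finset.mem_range.1 hj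
  exact (A1_mono_aux (i + j) (r i * s j)).mono (by omega)

theorem PolyFam.pow {d : ℕ} {f : K → R} (hf : PolyFam d f) (n : ℕ) :
    PolyFam (n * d) (fun w => f w ^ n) := by
  induction n with
  | zero =>
    have h := PolyFam.const (K := K) (1 : R) (0 * d)
    simpa using h
  | succ n ih =>
    have h1 := ih.mul hf
    have h2 : (fun w => f w ^ (n + 1)) = fun w => f w ^ n * f w := by
      funext w
      rw [pow_succ]
    rw [h2, Nat.succ_mul]
    exact h1

/-- multiplication by a polynomial -/
theorem PolyFam.smul {d e : ℕ} {f : K → R} (hf : PolyFam d f) (a : K[X]) (ha : a.natDegree ≤ e) :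
    PolyFam (e + d) (fun w => a.eval w • f w) := by
  obtain ⟨r, hr⟩ := hf
  have h1 : (fun w => a.eval w • f w) = fun w => ∑ i ∈ Finset.range (e + 1),
      ∑ j ∈ Finset.range (d + 1), w ^ (i + j) • (a.coeff i • r j) := by
    funext w
    rw [hr w, Polynomial.eval_eq_sum_range' (Nat.lt_succ_of_le ha), Finset.sum_smul]
    refine Finset.sum_congr rfl fun i _ => ?_
    rw [Finset.smul_sum]
    refine Finset.sum_congr rfl fun j _ => ?_
    rw [smul_smul, smul_smul]
    congr 1
    ring
  rw [h1]
  refine PolyFam.sum _ fun i hi => PolyFam.sum _ fun j hj => ?_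
  have hi' := Finset.mem_range.1 hi
  have hj' := Finset.mem_range.1 hj
  exact (A1_mono_aux (i + j) (a.coeff i • r j)).mono (by omega)

/-- monomials -/
theorem PolyFam.monomial (i : ℕ) (r : R) : PolyFam i (fun w : K => w ^ i • r) :=
  A1_mono_aux i r

/-- the value of a functional on a family is a polynomial of degree at most `d` -/
theorem PolyFam.functional {d : ℕ} {f : K → R} (hf : PolyFam d f) (l : R →ₗ[K] K) :
    ∃ s : K[X], s.natDegree ≤ d ∧ ∀ w, s.eval w = l (f w) := by
  obtain ⟨r, hr⟩ := hf
  refine ⟨∑ i ∈ Finset.range (d + 1), Polynomial.C (l (r i)) * X ^ i, ?_, fun w => ?_⟩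
  · refine Polynomial.natDegree_sum_le_of_forall_le _ _ fun i hi => ?_
    have hi' := Finset.mem_range.1 hi
    exact (Polynomial.natDegree_C_mul_X_pow_le _ _).trans (by omega)
  · rw [hr w, map_sum, Polynomial.eval_finsetSum]
    refine Finset.sum_congr rfl fun i _ => ?_
    rw [map_smul, Polynomial.eval_mul, Polynomial.eval_C, Polynomial.eval_pow, Polynomial.eval_X,
      smul_eq_mul, mul_comm]

/-- A family of degree at most `d` with more than `d` zeros is zero. Proof. `PolyFam.functional` for all functionals and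
`Polynomial.eq_zero_of_natDegree_lt_card_of_eval_eq_zero'`; functionals separate points of a vector space
(`Module.forall_dual_apply_eq_zero_iff`). -/
theorem PolyFam.eq_zero {d : ℕ} {f : K → R} (hf : PolyFam d f) (S : Finset K) (hS : d < S.card)
    (h : ∀ w ∈ S, f w = 0) : ∀ w, f w = 0 := by
  intro w
  rw [← Module.forall_dual_apply_eq_zero_iff K]
  intro l
  obtain ⟨s, hs1, hs2⟩ := hf.functional l
  have h1 : s = 0 := Polynomial.eq_zero_of_natDegree_lt_card_of_eval_eq_zero' s S
    (fun w hw => by rw [hs2, h w hw, map_zero]) (by omega)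
  rw [← hs2, h1, Polynomial.eval_zero]

/-- A family over an infinite field which vanishes outside a finite set is zero. -/
theorem PolyFam.eq_zero_of_cofinite [Infinite K] {d : ℕ} {f : K → R} (hf : PolyFam d f) (S : Finset K)
    (h : ∀ w, w ∉ S → f w = 0) : ∀ w, f w = 0 := by
  have h1 : ((S : Set K)ᶜ).Infinite := Set.Finite.infinite_compl S.finite_toSet
  obtain ⟨T, hT1, hT2⟩ := h1.exists_subset_card_eq (d + 1)
  refine hf.eq_zero T (by omega) fun w hw => h w ?_
  exact fun hwS => hT1 hw hwS

/-- Division by `w - a`. Proof. `f w = f w - f a = ∑ i, (w ^ i - a ^ i) • r i` and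
`w ^ i - a ^ i = (w - a) * ∑ j < i, w ^ j * a ^ (i - 1 - j)`. -/
theorem PolyFam.factor {d : ℕ} {f : K → R} (hf : PolyFam d f) (a : K) (ha : f a = 0) :
    ∃ g : K → R, PolyFam d g ∧ ∀ w, f w = (w - a) • g w := by
  obtain ⟨r, hr⟩ := hf
  refine ⟨fun w => ∑ i ∈ Finset.range (d + 1), ∑ j ∈ Finset.range i,
    w ^ j • (a ^ (i - 1 - j) • r i), ?_, fun w => ?_⟩
  · refine PolyFam.sum _ fun i hi => PolyFam.sum _ fun j hj => ?_
    have hi' := Finset.mem_range.1 hi
    have hj' := Finset.mem_range.1 hj
    exact (A1_mono_aux j (a ^ (i - 1 - j) • r i)).mono (by omega)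
  · have h1 : f w = f w - f a := by rw [ha, sub_zero]
    rw [h1, hr w, hr a, ← Finset.sum_sub_distrib, Finset.smul_sum]
    refine Finset.sum_congr rfl fun i _ => ?_
    rw [← sub_smul, ← Commute.mul_geom_sum₂ (Commute.all w a) i, mul_smul, Finset.sum_smul]
    congr 1
    refine Finset.sum_congr rfl fun j _ => ?_
    rw [mul_smul]

end Pool.Agent.FewEig
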