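import Mathlib

/-! PIECE A2: the degree of a determinant. -/

set_option autoImplicit false

open Polynomial

namespace Pool.Agent.FewEig

/-- Proof. `Matrix.det_apply'`, `Polynomial.natDegree_sum_le_of_forall_le`, `Polynomial.natDegree_prod_le`; every
permutation meets every column once. -/
theorem natDegree_det_le {K : Type} [Field K] {n : ℕ} (G : Matrix (Fin n) (Fin n) K[X]) (d : Fin n → ℕ)
    (h : ∀ i j, (G i j).natDegree ≤ d j) : G.det.natDegree ≤ ∑ j, d j := by
  classical
  rw [Matrix.det_apply]
  refine natDegree_sum_le_of_forall_le _ _ fun σ _ => ?_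
  have h1 : (Equiv.Perm.sign σ • ∏ i, G (σ i) i).natDegree ≤ (∏ i, G (σ i) i).natDegree := by
    rcases Int.units_eq_one_or (Equiv.Perm.sign σ) with h2 | h2
    · rw [h2, one_smul]
    · rw [h2]
      simp
  refine h1.trans ((natDegree_prod_le _ _).trans ?_)
  exact Finset.sum_le_sum fun i _ => h (σ i) i

end Pool.Agent.FewEig
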