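import Pool.Agent.Lib_MP_e73b0e.A1
import Pool.Agent.Lib_MP_e73b0e.A2

/-! PIECE C1: the relation of degree `M`. -/

set_option autoImplicit false

open Polynomial

namespace Pool.Agent.FewEig

/-- functionals dual to an independent family -/
private theorem c1_dual {K R : Type} [Field K] [AddCommGroup R] [Module K R] {M : ℕ} (v : Fin M → R)
    (hind : LinearIndependent K v) :
    ∃ l : Fin M → R →ₗ[K] K, ∀ i j, l i (v j) = if j = i then 1 else 0 := by
  classical
  have h : ∀ i : Fin M, ∃ g : R →ₗ[K] K, ∀ j, g (v j) = if j = i then 1 else 0 := by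
    intro i
    obtain ⟨g, hg⟩ := LinearMap.exists_extend ((Module.Basis.span hind).coord i)
    refine ⟨g, fun j => ?_⟩
    have h1 : g (Submodule.subtype _ (Module.Basis.span hind j)) =
        (Module.Basis.span hind).coord i (Module.Basis.span hind j) := by
      rw [← hg]
      rfl
    rw [Module.Basis.coord_apply, Module.Basis.repr_self, Finsupp.single_apply] at h1
    rw [← h1, Submodule.subtype_apply, Module.Basis.span_apply]
  choose l hl using h
  exact ⟨l, hl⟩

private theorem c1_sum (W M : ℕ) : ∑ j : Fin M, (j : ℕ) * (2 * W) = W * (M * (M - 1)) := by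
  rw [← Finset.sum_mul, Fin.sum_univ_eq_sum_range (fun j => j) M]
  have h := Finset.sum_range_id_mul_two M
  calc (∑ i ∈ Finset.range M, i) * (2 * W) = ((∑ i ∈ Finset.range M, i) * 2) * W := by ring
    _ = W * (M * (M - 1)) := by rw [h]; ring

private theorem c1_dep {K R : Type} [Field K] [Ring R] [Algebra K R] (a : R) (M : ℕ) (f : K[X])
    (hf : f.Monic) (hd : f.natDegree ≤ M) (h0 : aeval a f = 0) :
    ∃ c : Fin M → K, a ^ M = ∑ i, c i • a ^ (i : ℕ) := by
  set F := f * X ^ (M - f.natDegree) with hF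
  have hm : F.Monic := hf.mul (monic_X_pow _)
  have hn : F.natDegree = M := by
    rw [hF, hf.natDegree_mul (monic_X_pow _), natDegree_X_pow]
    omega
  have hz : aeval a F = 0 := by
    rw [hF, map_mul, h0, zero_mul]
  rw [aeval_eq_sum_range, hn, Finset.sum_range_succ] at hz
  have hc : F.coeff M = 1 := by
    rw [← hn]
    exact hm
  rw [hc, one_smul] at hz
  refine ⟨fun i => -F.coeff i, ?_⟩
  rw [Fin.sum_univ_eq_sum_range (fun i => -F.coeff i • a ^ i) M]
  simp only [neg_smul, Finset.sum_neg_distrib]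
  rw [eq_neg_iff_add_eq_zero, add_comm]
  exact hz

/-- Proof. Functionals `l i` on `R` with `l i (P (ζ^l₀)^j) = δ_ij` for `i, j < M` (extend the dual basis: `hind`;
e.g. `LinearIndependent` and `LinearMap.exists_extend` or a basis extending). `s i k ∈ K[X]` with `(s i k).eval w = l i (P w ^ k)` and
`natDegree ≤ 2 W k` (`PolyFam.pow`, `PolyFam.functional`). `G i j := s i j` (`i, j < M`), `Δ := det G`: at `ζ^l₀` it is `1`, so `Δ ≠ 0`, and
`natDegree Δ ≤ ∑_{j<M} 2 W j = W M (M-1)` (`natDegree_det_le`). `y i := s i M`, `x := Matrix.cramer G y`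
(`x a` = det of `G` with column `a` replaced by `y`): `natDegree (x a) ≤ W M (M-1) - 2 W a + 2 W M = W M (M+1) - 2 W a`;
`G *ᵥ x = Δ • y` (`Matrix.mulVec_cramer`). `Z w := Δ(w) • P w ^ M - ∑ a, x a (w) • P w ^ a` is a family of degree `≤ W M (M+1)`.
If `Δ(ζ^l) ≠ 0`: by `hdep` `P(ζ^l)^M` is a combination of the `P(ζ^l)^a`, `a < M`, hence so is `Z(ζ^l) = ∑ z_a P^a`, and `l i (Z) = 0` gives
`G(ζ^l) z = 0`, `z = 0`, `Z (ζ^l) = 0`. The number of `l` with `Δ (ζ^l) = 0` is at most `W M (M-1)`, so `Z` has at least `p - W M (M-1) > W M (M+1)` zeros: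
`Z = 0` (`PolyFam.eq_zero`). Last claim: `l i (∑ z_a P w^a) = (G(w) z)_i`, and `det G(w) = Δ(w) ≠ 0`. -/
theorem relation {K R : Type} [Field K] [Ring R] [Algebra K R] {p : ℕ} [Fact p.Prime] {ζ : K}
    (hζ : IsPrimitiveRoot ζ p) (P : K → R) (W M : ℕ) (hP : PolyFam (2 * W) P) (hM : 0 < M)
    (hdep : ∀ l : ZMod p, ∃ f : K[X], f.Monic ∧ f.natDegree ≤ M ∧ aeval (P (ζ ^ l.val)) f = 0)
    (l₀ : ZMod p) (hind : LinearIndependent K (fun i : Fin M => P (ζ ^ l₀.val) ^ (i : ℕ)))
    (hB : 2 * (W * M ^ 2) < p) :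
    ∃ (Δ : K[X]) (x : Fin M → K[X]) (l : Fin M → R →ₗ[K] K),
      Δ ≠ 0 ∧ (∀ a, (x a).natDegree ≤ W * (M * (M + 1))) ∧
      (∀ w, Δ.eval w • P w ^ M = ∑ a, (x a).eval w • P w ^ (a : ℕ)) ∧
      (∀ w, Δ.eval w ≠ 0 → ∀ z : Fin M → K, (∀ i, l i (∑ a, z a • P w ^ (a : ℕ)) = 0) → z = 0) := by
  classical
  have hp : p.Prime := Fact.out
  obtain ⟨l, hl⟩ := c1_dual _ hind
  have hs : ∀ (i : Fin M) (k : ℕ), ∃ s : K[X], s.natDegree ≤ k * (2 * W) ∧
      ∀ w, s.eval w = l i (P w ^ k) := fun i k => (hP.pow k).functional (l i)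
  choose s hsd hse using hs
  set G : Matrix (Fin M) (Fin M) K[X] := fun i j => s i j with hG
  set y : Fin M → K[X] := fun i => s i M with hy
  set x : Fin M → K[X] := Matrix.cramer G y with hx
  have hΔd : G.det.natDegree ≤ W * (M * (M - 1)) := by
    rw [← c1_sum]
    exact natDegree_det_le G _ fun i j => hsd i j
  have hxd : ∀ a, (x a).natDegree + (a : ℕ) * (2 * W) ≤ W * (M * (M + 1)) := by
    intro a
    have h1 : (x a).natDegree ≤ ∑ j : Fin M, if j = a then M * (2 * W) else (j : ℕ) * (2 * W) := by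
      rw [hx, Matrix.cramer_apply]
      refine natDegree_det_le _ _ fun i j => ?_
      rw [Matrix.updateCol_apply]
      split_ifs with h
      · exact hsd i M
      · exact hsd i j
    have h2 : (∑ j : Fin M, if j = a then M * (2 * W) else (j : ℕ) * (2 * W)) + (a : ℕ) * (2 * W) =
        ∑ j : Fin M, (j : ℕ) * (2 * W) + M * (2 * W) := by
      rw [← Finset.add_sum_erase _ _ (Finset.mem_univ a),
        ← Finset.add_sum_erase _ (fun j : Fin M => (j : ℕ) * (2 * W)) (Finset.mem_univ a), if_pos rfl]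
      have h3 : ∑ j ∈ Finset.univ.erase a, (if j = a then M * (2 * W) else (j : ℕ) * (2 * W)) =
          ∑ j ∈ Finset.univ.erase a, (j : ℕ) * (2 * W) := by
        refine Finset.sum_congr rfl fun j hj => ?_
        rw [if_neg (Finset.ne_of_mem_erase hj)]
      rw [h3]
      ring
    rw [c1_sum] at h2
    have h4 : W * (M * (M - 1)) + M * (2 * W) = W * (M * (M + 1)) := by
      obtain ⟨m, rfl⟩ : ∃ m, M = m + 1 := ⟨M - 1, by omega⟩
      rw [Nat.add_sub_cancel]
      ring
    omega
  have hGw : ∀ (w : K) (z : Fin M → K) (i : Fin M),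
      Matrix.mulVec ((evalRingHom w).mapMatrix G) z i = l i (∑ a, z a • P w ^ (a : ℕ)) := by
    intro w z i
    rw [map_sum]
    simp only [Matrix.mulVec, dotProduct]
    refine Finset.sum_congr rfl fun a _ => ?_
    rw [map_smul, smul_eq_mul, ← hse i a w, mul_comm]
    rfl
  have hdet : ∀ w : K, ((evalRingHom w).mapMatrix G).det = G.det.eval w := by
    intro w
    rw [← RingHom.map_det]
    rfl
  have hlast : ∀ w, G.det.eval w ≠ 0 → ∀ z : Fin M → K,
      (∀ i, l i (∑ a, z a • P w ^ (a : ℕ)) = 0) → z = 0 := by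
    intro w hw z hz
    refine Matrix.eq_zero_of_mulVec_eq_zero (M := (evalRingHom w).mapMatrix G) ?_ ?_
    · rw [hdet]
      exact hw
    · funext i
      rw [hGw]
      exact hz i
  have hΔ0 : G.det.eval (ζ ^ l₀.val) = 1 := by
    rw [← hdet]
    have h1 : (evalRingHom (ζ ^ l₀.val)).mapMatrix G = 1 := by
      ext i j
      rw [RingHom.mapMatrix_apply, Matrix.map_apply, Matrix.one_apply]
      change (s i j).eval _ = _
      rw [hse, hl]
      by_cases h : i = j
      · rw [if_pos h.symm, if_pos h]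
      · rw [if_neg fun hh => h hh.symm, if_neg h]
    rw [h1, Matrix.det_one]
  have hΔne : G.det ≠ 0 := by
    intro h
    rw [h, eval_zero] at hΔ0
    exact zero_ne_one hΔ0
  -- the family `Z`
  have hcr : ∀ (w : K) (i : Fin M), G.det.eval w * l i (P w ^ M) =
      l i (∑ a, (x a).eval w • P w ^ (a : ℕ)) := by
    intro w i
    have h1 := congrFun (Matrix.mulVec_cramer G y) i
    rw [← hGw w (fun a => (x a).eval w) i]
    have h2 := congrArg (eval w) h1
    rw [Pi.smul_apply, smul_eq_mul, eval_mul] at h2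
    have h3 : (y i).eval w = l i (P w ^ M) := hse i M w
    rw [h3] at h2
    rw [← h2]
    simp only [Matrix.mulVec, dotProduct]
    rw [eval_finsetSum]
    refine Finset.sum_congr rfl fun a _ => ?_
    rw [eval_mul]
    rfl
  have hZf : PolyFam (W * (M * (M + 1))) (fun w => G.det.eval w • P w ^ M +
      ∑ a, (-x a).eval w • P w ^ (a : ℕ)) := by
    refine PolyFam.add ?_ ?_
    · refine ((hP.pow M).smul G.det hΔd).mono ?_
      obtain ⟨m, rfl⟩ : ∃ m, M = m + 1 := ⟨M - 1, by omega⟩
      rw [Nat.add_sub_cancel]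
      apply le_of_eq
      ring
    · refine PolyFam.sum _ fun a _ => ?_
      exact ((hP.pow (a : ℕ)).smul (-x a) (natDegree_neg (x a)).le).mono (hxd a)
  have hZl : ∀ w, G.det.eval w ≠ 0 → (∃ f : K[X], f.Monic ∧ f.natDegree ≤ M ∧ aeval (P w) f = 0) →
      G.det.eval w • P w ^ M + ∑ a, (-x a).eval w • P w ^ (a : ℕ) = 0 := by
    intro w hw hf
    obtain ⟨f, hf1, hf2, hf3⟩ := hf
    obtain ⟨c, hc⟩ := c1_dep (P w) M f hf1 hf2 hf3
    have h1 : G.det.eval w • P w ^ M + ∑ a, (-x a).eval w • P w ^ (a : ℕ) =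
        ∑ a, (G.det.eval w * c a - (x a).eval w) • P w ^ (a : ℕ) := by
      rw [hc, Finset.smul_sum, ← Finset.sum_add_distrib]
      refine Finset.sum_congr rfl fun a _ => ?_
      rw [smul_smul, eval_neg, neg_smul, sub_smul, sub_eq_add_neg]
    have h2 := hlast w hw (fun a => G.det.eval w * c a - (x a).eval w) fun i => by
      rw [← h1, map_add, map_smul, smul_eq_mul, hcr]
      simp only [eval_neg, neg_smul, Finset.sum_neg_distrib, map_neg, add_neg_cancel]
    rw [h1]
    refine Finset.sum_eq_zero fun a _ => ?_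
    have h3 := congrFun h2 a
    simp only [Pi.zero_apply] at h3
    rw [h3, zero_smul]
  -- zeros
  have hinj : Function.Injective fun l : ZMod p => ζ ^ l.val := by
    intro a b hab
    apply ZMod.val_injective p
    exact hζ.pow_inj (ZMod.val_lt a) (ZMod.val_lt b) hab
  set S : Finset K := (Finset.univ.filter fun l : ZMod p => G.det.eval (ζ ^ l.val) ≠ 0).image
    fun l : ZMod p => ζ ^ l.val with hS
  have hScard : W * (M * (M + 1)) < S.card := by
    rw [hS, Finset.card_image_of_injective _ hinj]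
    have h1 := Finset.card_filter_add_card_filter_not
      (s := (Finset.univ : Finset (ZMod p))) (fun l : ZMod p => G.det.eval (ζ ^ l.val) ≠ 0)
    rw [Finset.card_univ, ZMod.card] at h1
    have h2 : (Finset.univ.filter fun l : ZMod p => ¬ G.det.eval (ζ ^ l.val) ≠ 0).card ≤
        G.det.natDegree := by
      rw [← Finset.card_image_of_injective _ hinj]
      refine le_trans (Finset.card_le_card (t := G.det.roots.toFinset) ?_)
        ((Multiset.toFinset_card_le _).trans (card_roots' _))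
      intro a ha
      rw [Finset.mem_image] at ha
      obtain ⟨b, hb, rfl⟩ := ha
      rw [Finset.mem_filter] at hb
      rw [Multiset.mem_toFinset, mem_roots hΔne]
      exact not_not.1 hb.2
    have h3 : W * (M * (M - 1)) + W * (M * (M + 1)) = 2 * (W * M ^ 2) := by
      obtain ⟨m, rfl⟩ : ∃ m, M = m + 1 := ⟨M - 1, by omega⟩
      rw [Nat.add_sub_cancel]
      ring
    omega
  have hZ := hZf.eq_zero S hScard fun w hw => by
    rw [hS, Finset.mem_image] at hw
    obtain ⟨b, hb, rfl⟩ := hw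
    rw [Finset.mem_filter] at hb
    exact hZl _ hb.2 (hdep b)
  refine ⟨G.det, x, l, hΔne, fun a => ?_, fun w => ?_, hlast⟩
  · have := hxd a
    omega
  · have h1 := hZ w
    simp only [eval_neg, neg_smul, Finset.sum_neg_distrib] at h1
    rw [← sub_eq_add_neg, sub_eq_zero] at h1
    exact h1

end Pool.Agent.FewEig
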