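import Pool.Agent.Lib_MP_e73b0e.A1

/-! PIECE C2: integrality. -/

set_option autoImplicit false

open Polynomial

namespace Pool.Agent.FewEig

/-- If `P^M` is in the span of the lower powers, so are all polynomials in `P`. -/
theorem aeval_mem_span {K R : Type} [Field K] [Ring R] [Algebra K R] (x : R) (M : ℕ)
    (h : x ^ M ∈ Submodule.span K (Set.range fun a : Fin M => x ^ (a : ℕ))) (f : K[X]) :
    aeval x f ∈ Submodule.span K (Set.range fun a : Fin M => x ^ (a : ℕ)) := by
  set W := Submodule.span K (Set.range fun a : Fin M => x ^ (a : ℕ)) with hW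
  have hlt : ∀ n, n < M → x ^ n ∈ W := fun n hn => Submodule.subset_span ⟨⟨n, hn⟩, rfl⟩
  have hle : ∀ n, n ≤ M → x ^ n ∈ W := fun n hn => by
    rcases Nat.lt_or_ge n M with h' | h'
    · exact hlt n h'
    · rw [le_antisymm hn h']
      exact h
  have hmul : ∀ y ∈ W, x * y ∈ W := by
    intro y hy
    refine Submodule.span_induction (p := fun y _ => x * y ∈ W) ?_ ?_ ?_ ?_ hy
    · rintro _ ⟨a, rfl⟩
      change x * x ^ (a : ℕ) ∈ W
      rw [← pow_succ']
      exact hle _ a.2
    · rw [mul_zero]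
      exact W.zero_mem
    · intro a b _ _ ha hb
      rw [mul_add]
      exact W.add_mem ha hb
    · intro c a _ ha
      rw [mul_smul_comm]
      exact W.smul_mem c ha
  have hall : ∀ n, x ^ n ∈ W := by
    intro n
    induction n with
    | zero => exact hle 0 (Nat.zero_le _)
    | succ n ih =>
      rw [pow_succ']
      exact hmul _ ih
  rw [aeval_eq_sum_range]
  exact W.sum_mem fun i _ => W.smul_mem _ (hall i)

/-- Integrality. Proof. Let `v n : Fin M → K[X]`, `(v n i).eval w = l i (Y w ^ n)` (`PolyFam.pow`, `PolyFam.functional`). `K[X]` is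
Noetherian, so the increasing chain of the submodules spanned by `v 0, …, v (N-1)` of `Fin M → K[X]` stops: there is `N` with
`v N = ∑ n < N, g n • v n`. `Z w := Y w ^ N - ∑ n < N, (g n).eval w • Y w ^ n` is a polynomial family and `l i (Z w) = 0` for all `w, i`.
For `w ∉ S` with `Δ(w) ≠ 0` it is in the span of the `P w ^ a`, so `Z w = 0` by `hl`. Hence `Z = 0` (`PolyFam.eq_zero_of_cofinite`). -/
theorem integral {K R : Type} [Field K] [Infinite K] [Ring R] [Algebra K R] (P : K → R) (M : ℕ) (Δ : K[X])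
    (hΔ : Δ ≠ 0) (l : Fin M → R →ₗ[K] K)
    (hl : ∀ w, Δ.eval w ≠ 0 → ∀ z : Fin M → K, (∀ i, l i (∑ a, z a • P w ^ (a : ℕ)) = 0) → z = 0)
    (Y : K → R) (d : ℕ) (hY : PolyFam d Y) (S : Finset K)
    (hspan : ∀ w, w ∉ S → ∀ n : ℕ, Y w ^ n ∈ Submodule.span K (Set.range fun a : Fin M => P w ^ (a : ℕ))) :
    ∃ (N : ℕ) (g : ℕ → K[X]), ∀ w, Y w ^ N = ∑ n ∈ Finset.range N, (g n).eval w • Y w ^ n := by
  classical
  have hv : ∀ (n : ℕ) (i : Fin M), ∃ s : K[X], ∀ w, s.eval w = l i (Y w ^ n) := fun n i => by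
    obtain ⟨s, -, hs⟩ := (hY.pow n).functional (l i)
    exact ⟨s, hs⟩
  choose v hv using hv
  -- the chain stops
  let F : ℕ →o Submodule K[X] (Fin M → K[X]) :=
    { toFun := fun N => Submodule.span K[X] (v '' (Finset.range N : Set ℕ))
      monotone' := fun a b hab => Submodule.span_mono (Set.image_mono (by
        intro n hn
        rw [Finset.mem_coe, Finset.mem_range] at hn ⊢
        omega)) }
  obtain ⟨N, hN⟩ := monotone_stabilizes_iff_noetherian.2 (inferInstance : IsNoetherian K[X] (Fin M → K[X])) F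
  have hmem : v N ∈ Submodule.span K[X] (v '' (Finset.range N : Set ℕ)) := by
    have h1 : v N ∈ F (N + 1) := Submodule.subset_span ⟨N, by simp, rfl⟩
    rw [← hN (N + 1) (Nat.le_succ N)] at h1
    exact h1
  rw [Submodule.mem_span_image_finset_iff_exists_fun] at hmem
  obtain ⟨g₀, hg₀⟩ := hmem
  obtain ⟨g, hg⟩ : ∃ g : ℕ → K[X], ∑ n ∈ Finset.range N, g n • v n = v N := by
    refine ⟨fun n => if h : n ∈ Finset.range N then g₀ ⟨n, h⟩ else 0, ?_⟩
    rw [← hg₀, ← Finset.sum_coe_sort]
    exact Finset.sum_congr rfl fun n _ => by beta_reduce; rw [dif_pos n.2]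
  refine ⟨N, g, ?_⟩
  -- the family Z
  have hZ : PolyFam (N * d + ∑ n ∈ Finset.range N, ((g n).natDegree + n * d))
      (fun w => Y w ^ N + ∑ n ∈ Finset.range N, (-(g n)).eval w • Y w ^ n) := by
    refine PolyFam.add ((hY.pow N).mono (Nat.le_add_right _ _)) (PolyFam.sum _ fun n hn => ?_)
    have h1 : PolyFam ((g n).natDegree + n * d) (fun w => (-(g n)).eval w • Y w ^ n) :=
      (hY.pow n).smul (-(g n)) (by rw [natDegree_neg])
    refine h1.mono (le_trans ?_ (Nat.le_add_left _ _))
    exact Finset.single_le_sum (f := fun n => (g n).natDegree + n * d) (fun _ _ => Nat.zero_le _) hn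
  have hlZ : ∀ w i, l i (Y w ^ N + ∑ n ∈ Finset.range N, (-(g n)).eval w • Y w ^ n) = 0 := by
    intro w i
    have h1 : ∑ n ∈ Finset.range N, g n * v n i = v N i := by
      have := congrFun hg i
      rw [Finset.sum_apply] at this
      simpa using this
    have h2 : (v N i).eval w = ∑ n ∈ Finset.range N, (g n).eval w * l i (Y w ^ n) := by
      rw [← h1, eval_finsetSum]
      exact Finset.sum_congr rfl fun n _ => by rw [eval_mul, hv]
    rw [map_add, map_sum, ← hv, h2, ← Finset.sum_add_distrib]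
    exact Finset.sum_eq_zero fun n _ => by rw [map_smul, smul_eq_mul, eval_neg]; ring
  have h0 := hZ.eq_zero_of_cofinite (S ∪ Δ.roots.toFinset) (by
    intro w hw
    rw [Finset.mem_union, not_or, Multiset.mem_toFinset, mem_roots hΔ] at hw
    have hΔw : Δ.eval w ≠ 0 := hw.2
    have hin : Y w ^ N + ∑ n ∈ Finset.range N, (-(g n)).eval w • Y w ^ n ∈
        Submodule.span K (Set.range fun a : Fin M => P w ^ (a : ℕ)) :=
      Submodule.add_mem _ (hspan w hw.1 N) (Submodule.sum_mem _ fun n _ =>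
        Submodule.smul_mem _ _ (hspan w hw.1 n))
    rw [Submodule.mem_span_range_iff_exists_fun] at hin
    obtain ⟨z, hz⟩ := hin
    have hz0 : z = 0 := hl w hΔw z fun i => by rw [hz]; exact hlZ w i
    rw [← hz, hz0]
    exact Finset.sum_eq_zero fun a _ => by rw [Pi.zero_apply, zero_smul])
  intro w
  have h1 := h0 w
  rw [add_eq_zero_iff_eq_neg] at h1
  rw [h1, ← Finset.sum_neg_distrib]
  exact Finset.sum_congr rfl fun n _ => by rw [eval_neg, neg_smul, neg_neg]

end Pool.Agent.FewEig
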