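import Pool.Agent.Lib_MP_e73b0e.C2

/-! PIECE C3: the monic relation. -/

set_option autoImplicit false

open Polynomial

namespace Pool.Agent.FewEig

private lemma val_eq {K R : Type} [Field K] [Ring R] [Algebra K R] (P : K → R) (w : K)
    (H : K[X][X]) (n : ℕ) (hn : H.natDegree < n) :
    aeval (P w) (H.map (evalRingHom w)) = ∑ i ∈ Finset.range n, (H.coeff i).eval w • P w ^ i := by
  rw [aeval_eq_sum_range' (lt_of_le_of_lt natDegree_map_le hn)]
  refine Finset.sum_congr rfl fun i _ => ?_
  rw [coeff_map, coe_evalRingHom]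

private lemma polyFam_val {K R : Type} [Field K] [Ring R] [Algebra K R] (P : K → R) (e : ℕ)
    (hP : PolyFam e P) (H : K[X][X]) :
    ∃ d, PolyFam d (fun w => aeval (P w) (H.map (evalRingHom w))) := by
  refine ⟨∑ i ∈ Finset.range (H.natDegree + 1), ((H.coeff i).natDegree + i * e), ?_⟩
  have h1 : (fun w => aeval (P w) (H.map (evalRingHom w)))
      = fun w => ∑ i ∈ Finset.range (H.natDegree + 1), (H.coeff i).eval w • P w ^ i := by
    funext w
    exact val_eq P w H _ (Nat.lt_succ_self _)
  rw [h1]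
  refine PolyFam.sum (Finset.range (H.natDegree + 1)) (f := fun i w => (H.coeff i).eval w • P w ^ i)
    fun i hi => ?_
  refine PolyFam.mono (PolyFam.smul (PolyFam.pow hP i) (H.coeff i) le_rfl) ?_
  exact Finset.single_le_sum (f := fun i => (H.coeff i).natDegree + i * e)
    (fun j _ => Nat.zero_le _) hi

private lemma eq_zero_of_lt {K R : Type} [Field K] [Infinite K] [Ring R] [Algebra K R] (P : K → R)
    (M : ℕ) (Δ : K[X]) (hΔ : Δ ≠ 0) (l : Fin M → R →ₗ[K] K)
    (hl : ∀ w, Δ.eval w ≠ 0 → ∀ z : Fin M → K, (∀ i, l i (∑ a, z a • P w ^ (a : ℕ)) = 0) → z = 0)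
    (H : K[X][X]) (hH : ∀ w, aeval (P w) (H.map (evalRingHom w)) = 0) (hd : H.natDegree < M) :
    H = 0 := by
  apply Polynomial.ext
  intro a
  rw [coeff_zero]
  rcases lt_or_ge a M with ha | ha
  · have h1 : ∀ w, Δ.eval w ≠ 0 → (H.coeff a).eval w = 0 := by
      intro w hw
      have h2 := hH w
      rw [val_eq P w H M hd, Finset.sum_range] at h2
      have h3 := hl w hw (fun a => (H.coeff (a : ℕ)).eval w) (fun i => by rw [h2, map_zero])
      exact congrFun h3 ⟨a, ha⟩
    have h4 : H.coeff a * Δ = 0 := by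
      apply Polynomial.funext
      intro w
      rw [eval_mul, eval_zero]
      by_cases hw : Δ.eval w = 0
      · rw [hw, mul_zero]
      · rw [h1 w hw, zero_mul]
    exact (mul_eq_zero.mp h4).resolve_right hΔ
  · exact coeff_eq_zero_of_natDegree_lt (lt_of_lt_of_le hd ha)

private lemma mem_of_C_mul {K R : Type} [Field K] [Infinite K] [Ring R] [Algebra K R] (P : K → R)
    (e : ℕ) (hP : PolyFam e P) (g : K[X]) (hg : g ≠ 0) (H : K[X][X])
    (h : ∀ w, aeval (P w) ((C g * H).map (evalRingHom w)) = 0) :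
    ∀ w, aeval (P w) (H.map (evalRingHom w)) = 0 := by
  classical
  obtain ⟨d, hd⟩ := polyFam_val P e hP H
  apply hd.eq_zero_of_cofinite g.roots.toFinset
  intro w hw
  have h1 : g.eval w ≠ 0 := by
    intro h0
    apply hw
    rw [Multiset.mem_toFinset, mem_roots hg]
    exact h0
  have h2 := h w
  rw [Polynomial.map_mul, map_C, map_mul, aeval_C, ← Algebra.smul_def] at h2
  have h3 : (g.eval w)⁻¹ • ((evalRingHom w) g • aeval (P w) (H.map (evalRingHom w))) = 0 := by
    rw [h2, smul_zero]
  rw [smul_smul, coe_evalRingHom, inv_mul_cancel₀ h1, one_smul] at h3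
  exact h3

/-- The ideal `J` of all `H ∈ K[X][X]` with `H_w (P w) = 0` for all `w` is generated by a monic polynomial `F` of degree `M`.
Proof. (0) `H ∈ J` with `natDegree H < M` (or `degree H < M`) is `0`: for `Δ(w) ≠ 0` `hl` gives that all coefficients vanish at `w`, and there are infinitely
many such `w`. (1) `g • H ∈ J`, `g ≠ 0` in `K[X]` gives `H ∈ J`: values at the `w` with `g(w) ≠ 0`, and `w ↦ H_w (P w)` is a polynomial family
(`PolyFam.eq_zero_of_cofinite`). (2) `H₀ := X^N - ∑ n < N, C (g n) X^n ∈ J` is monic, where `P w ^ N = ∑ (g n)(w) • P w ^ n` from `integral` with `Y = P`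
(`hspan` by `aeval_mem_span`, for `w` outside the zeros of `Δ`). (3) `D := C Δ * X^M - ∑ a, C (x a) X^a ∈ J`. `D = C c * D'` with `D'` primitive
(`Polynomial.primPart`, `Polynomial.eq_C_content_mul_primPart`), `D' ∈ J` by (1). `D' ∣ H₀`: in `RatFunc K [X]` or by pseudo-division the remainder of
`H₀` by `D'` is `0` by (0); then Gauss (`Polynomial.IsPrimitive.dvd_of_fraction_map_dvd_fraction_map`). So the leading coefficient `u` of `D'` divides `1`; `F := C u⁻¹ * D'` is monic of
degree `M`, `D = C Δ * F`, so `Δ * F.coeff a = - x a` for `a < M`: degrees. (4) `F ∣ H` for `H ∈ J`: the remainder `H %ₘ F` is in `J` and has degree `< M`. -/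
theorem exists_F {K R : Type} [Field K] [Infinite K] [Ring R] [Algebra K R] (P : K → R) (e M B : ℕ)
    (hP : PolyFam e P) (hM : 0 < M) (Δ : K[X]) (hΔ : Δ ≠ 0) (x : Fin M → K[X])
    (hx : ∀ a, (x a).natDegree ≤ B)
    (hrel : ∀ w, Δ.eval w • P w ^ M = ∑ a, (x a).eval w • P w ^ (a : ℕ))
    (l : Fin M → R →ₗ[K] K)
    (hl : ∀ w, Δ.eval w ≠ 0 → ∀ z : Fin M → K, (∀ i, l i (∑ a, z a • P w ^ (a : ℕ)) = 0) → z = 0) :
    ∃ F : K[X][X], F.Monic ∧ F.natDegree = M ∧ (∀ b, (F.coeff b).natDegree ≤ B) ∧
      (∀ w, aeval (P w) (F.map (evalRingHom w)) = 0) ∧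
      ∀ H : K[X][X], (∀ w, aeval (P w) (H.map (evalRingHom w)) = 0) → F ∣ H := by
  classical
  set L := FractionRing K[X] with hL
  have hinj : Function.Injective (algebraMap K[X] L) := IsFractionRing.injective K[X] L
  have hΔL : algebraMap K[X] L Δ ≠ 0 := by
    intro h
    apply hΔ
    apply hinj
    rw [h, map_zero]
  -- the sum of the lower terms
  have hsumdeg : ∀ (A : Type) [CommRing A] (y : Fin M → A),
      (∑ a, C (y a) * X ^ (a : ℕ) : A[X]).degree < (M : WithBot ℕ) := by
    intro A _ y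
    exact degree_sum_fin_lt y
  set fL : L[X] := X ^ M - ∑ a, C (algebraMap K[X] L (x a) / algebraMap K[X] L Δ) * X ^ (a : ℕ) with hfL
  have hfmonic : fL.Monic := monic_X_pow_sub (hsumdeg L _)
  have hfdeg : fL.natDegree = M := by
    apply natDegree_eq_of_degree_eq_some
    rw [hfL, degree_sub_eq_left_of_degree_lt (by rw [degree_X_pow]; exact hsumdeg L _),
      degree_X_pow]
  set D : K[X][X] := C Δ * X ^ M - ∑ a, C (x a) * X ^ (a : ℕ) with hD
  have hDmap : D.map (algebraMap K[X] L) = C (algebraMap K[X] L Δ) * fL := by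
    rw [hD, hfL, Polynomial.map_sub, Polynomial.map_mul, map_C, Polynomial.map_pow, map_X,
      Polynomial.map_sum, mul_sub, Finset.mul_sum]
    congr 1
    refine Finset.sum_congr rfl fun a _ => ?_
    rw [Polynomial.map_mul, map_C, Polynomial.map_pow, map_X, ← mul_assoc, ← C_mul,
      mul_div_cancel₀ _ hΔL]
  have hDJ : ∀ w, aeval (P w) (D.map (evalRingHom w)) = 0 := by
    intro w
    rw [hD, Polynomial.map_sub, Polynomial.map_mul, map_C, Polynomial.map_pow, map_X,
      Polynomial.map_sum, map_sub, map_mul, aeval_C, map_pow, aeval_X, map_sum,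
      ← Algebra.smul_def, coe_evalRingHom, hrel w, sub_eq_zero]
    refine Finset.sum_congr rfl fun a _ => ?_
    rw [Polynomial.map_mul, map_C, Polynomial.map_pow, map_X, map_mul, aeval_C, map_pow, aeval_X,
      ← Algebra.smul_def, coe_evalRingHom]
  -- every element of the ideal is divisible by `fL` over the fraction field
  have hdvd : ∀ H : K[X][X], (∀ w, aeval (P w) (H.map (evalRingHom w)) = 0) →
      fL ∣ H.map (algebraMap K[X] L) := by
    intro H hH
    rw [← modByMonic_eq_zero_iff_dvd hfmonic]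
    set Hm := H.map (algebraMap K[X] L) with hHm
    have h1 := modByMonic_add_div Hm fL
    obtain ⟨b, hbM, hb⟩ := IsLocalization.integerNormalization_spec (nonZeroDivisors K[X])
      (Hm /ₘ fL)
    set q := IsLocalization.integerNormalization (nonZeroDivisors K[X]) (Hm /ₘ fL) with hq
    have hb0 : (b : K[X]) ≠ 0 := nonZeroDivisors.ne_zero hbM
    have hbL : algebraMap K[X] L (b : K[X]) ≠ 0 := by
      intro h
      apply hb0
      apply hinj
      rw [h, map_zero]
    have hbq : q.map (algebraMap K[X] L) = C (algebraMap K[X] L (b : K[X])) * (Hm /ₘ fL) := by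
      rw [hb, ← smul_eq_C_mul, algebraMap_smul]
    set E : K[X][X] := C (Δ * (b : K[X])) * H - D * q with hE
    have hEmap : E.map (algebraMap K[X] L)
        = C (algebraMap K[X] L (Δ * (b : K[X]))) * (Hm %ₘ fL) := by
      have h2 : Hm %ₘ fL = Hm - fL * (Hm /ₘ fL) := eq_sub_of_add_eq h1
      rw [hE, Polynomial.map_sub, Polynomial.map_mul, map_C, Polynomial.map_mul, hDmap, hbq, h2,
        map_mul, C_mul]
      ring
    have hEJ : ∀ w, aeval (P w) (E.map (evalRingHom w)) = 0 := by
      intro w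
      rw [hE, Polynomial.map_sub, Polynomial.map_mul, Polynomial.map_mul, map_sub, map_mul, hH w,
        mul_zero, map_mul, hDJ w, zero_mul, sub_zero]
    have hEdeg : E.natDegree < M := by
      rw [← natDegree_map_eq_of_injective hinj E, hEmap]
      refine lt_of_le_of_lt (natDegree_C_mul_le _ _) ?_
      have h3 := natDegree_modByMonic_lt Hm hfmonic (by
        intro h
        rw [h, natDegree_one] at hfdeg
        omega)
      rwa [hfdeg] at h3
    have hE0 := eq_zero_of_lt P M Δ hΔ l hl E hEJ hEdeg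
    rw [hE0, Polynomial.map_zero] at hEmap
    have h4 := mul_eq_zero.mp hEmap.symm
    refine h4.resolve_left ?_
    rw [C_eq_zero, map_mul]
    exact mul_ne_zero hΔL hbL
  -- the monic element
  obtain ⟨N, g, hg⟩ := integral P M Δ hΔ l hl P e hP Δ.roots.toFinset (by
    intro w hw n
    have hw' : Δ.eval w ≠ 0 := by
      intro h0
      apply hw
      rw [Multiset.mem_toFinset, mem_roots hΔ]
      exact h0
    have h1 := aeval_mem_span (P w) M (by
      have h2 : P w ^ M = (Δ.eval w)⁻¹ • ∑ a, (x a).eval w • P w ^ (a : ℕ) := by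
        rw [← hrel w, smul_smul, inv_mul_cancel₀ hw', one_smul]
      rw [h2]
      refine Submodule.smul_mem _ _ (Submodule.sum_mem _ fun a _ => Submodule.smul_mem _ _ ?_)
      exact Submodule.subset_span ⟨a, rfl⟩) (X ^ n)
    rwa [map_pow, aeval_X] at h1)
  set H₀ : K[X][X] := X ^ N - ∑ n : Fin N, C (g n) * X ^ (n : ℕ) with hH₀
  have hH₀monic : H₀.Monic := by
    exact monic_X_pow_sub (degree_sum_fin_lt fun n : Fin N => g n)
  have hH₀J : ∀ w, aeval (P w) (H₀.map (evalRingHom w)) = 0 := by
    intro w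
    rw [hH₀, Polynomial.map_sub, Polynomial.map_pow, map_X, Polynomial.map_sum, map_sub, map_pow,
      aeval_X, map_sum, hg w, Finset.sum_range, sub_eq_zero]
    refine Finset.sum_congr rfl fun a _ => ?_
    rw [Polynomial.map_mul, map_C, Polynomial.map_pow, map_X, map_mul, aeval_C, map_pow, aeval_X,
      ← Algebra.smul_def, coe_evalRingHom]
  obtain ⟨F, hF⟩ := IsIntegrallyClosed.eq_map_mul_C_of_dvd L hH₀monic (hdvd H₀ hH₀J)
  rw [hfmonic.leadingCoeff, C_1, mul_one] at hF
  have hFmonic : F.Monic := monic_of_injective hinj (by rw [hF]; exact hfmonic)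
  have hFdeg : F.natDegree = M := by
    rw [← natDegree_map_eq_of_injective hinj F, hF, hfdeg]
  have hDF : D = C Δ * F := by
    apply map_injective _ hinj
    rw [hDmap, Polynomial.map_mul, map_C, hF]
  have hFJ : ∀ w, aeval (P w) (F.map (evalRingHom w)) = 0 :=
    mem_of_C_mul P e hP Δ hΔ F (by rw [← hDF]; exact hDJ)
  refine ⟨F, hFmonic, hFdeg, ?_, hFJ, ?_⟩
  · intro b
    rcases lt_trichotomy b M with hb | hb | hb
    · have h1 : D.coeff b = - x ⟨b, hb⟩ := by
        rw [hD, coeff_sub, coeff_C_mul, coeff_X_pow, if_neg (ne_of_lt hb), mul_zero, zero_sub,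
          finset_sum_coeff, Finset.sum_eq_single (⟨b, hb⟩ : Fin M)]
        · rw [coeff_C_mul, coeff_X_pow, if_pos rfl, mul_one]
        · intro a _ ha
          rw [coeff_C_mul, coeff_X_pow, if_neg, mul_zero]
          intro h
          exact ha (Fin.ext h.symm)
        · intro h
          exact absurd (Finset.mem_univ _) h
      rw [hDF, coeff_C_mul] at h1
      by_cases h0 : F.coeff b = 0
      · rw [h0, natDegree_zero]
        exact Nat.zero_le _
      · have h2 := congrArg natDegree h1
        rw [natDegree_mul hΔ h0, natDegree_neg] at h2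
        have h3 := hx ⟨b, hb⟩
        omega
    · rw [hb, ← hFdeg, hFmonic.coeff_natDegree, natDegree_one]
      exact Nat.zero_le _
    · rw [coeff_eq_zero_of_natDegree_lt (by rw [hFdeg]; exact hb), natDegree_zero]
      exact Nat.zero_le _
  · intro H hH
    rw [← map_dvd_map _ hinj hFmonic, hF]
    exact hdvd H hH

end Pool.Agent.FewEig
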