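import Pool.Agent.Lib_MP_e73b0e.C1
import Pool.Agent.Lib_MP_e73b0e.C3

/-! PIECE C4: the family theorem. -/

set_option autoImplicit false

open Polynomial

namespace Pool.Agent.FewEig

private theorem polyFam_aeval {K R : Type} [Field K] [Ring R] [Algebra K R] {P : K → R} {e : ℕ}
    (hP : PolyFam e P) (f : K[X]) :
    PolyFam (f.natDegree * e) (fun w => aeval (P w) f) := by
  have h1 : (fun w => aeval (P w) f) =
      fun w => ∑ i ∈ Finset.range (f.natDegree + 1), (C (f.coeff i) : K[X]).eval w • P w ^ i := by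
    funext w
    rw [Polynomial.aeval_eq_sum_range]
    refine Finset.sum_congr rfl fun i _ => ?_
    rw [eval_C]
  rw [h1]
  refine PolyFam.sum _ fun i hi => ?_
  have h2 := PolyFam.smul (hP.pow i) (C (f.coeff i)) (e := 0) (le_of_eq (natDegree_C _))
  refine h2.mono ?_
  rw [zero_add]
  exact Nat.mul_le_mul_right e (Nat.lt_succ_iff.1 (Finset.mem_range.1 hi))

/-- The roots of `F_(ζ^l)`. Proof. `f := minpoly K (P v)`, `v = ζ ^ l.val` (`hint`: `P v` is integral). `f(P w)` is a polynomial family that vanishes at `v`: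
`f (P w) = (w - v) • Y w` (`PolyFam.factor`). `integral` for this `Y` (`hspan` for `w ≠ v`, `Δ(w) ≠ 0`: `Y w ^ n = (w-v)⁻¹^n • f^n(P w)`, `aeval_mem_span`) gives
`Y^N = ∑ g_n(w) Y^n`; times `(w-v)^N`: `H := (f.map C)^N - ∑ n < N, C (g n * (X - C v)^(N-n)) * (f.map C)^n` satisfies `H_w (P w) = 0` for all `w`, so `F ∣ H`;
map by `evalRingHom v`: `F_v ∣ f^N`. Conversely `f ∣ F_v` as `F_v (P v) = 0` (`minpoly.dvd`). -/
theorem isRoot_F {K R : Type} [Field K] [Infinite K] [Ring R] [Nontrivial R] [Algebra K R] (P : K → R) (e M : ℕ)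
    (hP : PolyFam e P) (Δ : K[X]) (hΔ : Δ ≠ 0) (x : Fin M → K[X])
    (hrel : ∀ w, Δ.eval w • P w ^ M = ∑ a, (x a).eval w • P w ^ (a : ℕ))
    (l : Fin M → R →ₗ[K] K)
    (hl : ∀ w, Δ.eval w ≠ 0 → ∀ z : Fin M → K, (∀ i, l i (∑ a, z a • P w ^ (a : ℕ)) = 0) → z = 0)
    (F : K[X][X]) (hF : ∀ w, aeval (P w) (F.map (evalRingHom w)) = 0)
    (hF' : ∀ H : K[X][X], (∀ w, aeval (P w) (H.map (evalRingHom w)) = 0) → F ∣ H)
    (v : K) (hint : IsIntegral K (P v)) (t : K) :
    (F.map (evalRingHom v)).IsRoot t ↔ (minpoly K (P v)).IsRoot t := by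
  classical
  constructor
  · intro ht
    set f : K[X] := minpoly K (P v) with hf
    have hfv : aeval (P v) f = 0 := minpoly.aeval K (P v)
    obtain ⟨Y, hY, hfY⟩ := (polyFam_aeval hP f).factor v hfv
    have hspan : ∀ w, w ∉ insert v Δ.roots.toFinset → ∀ n : ℕ,
        Y w ^ n ∈ Submodule.span K (Set.range fun a : Fin M => P w ^ (a : ℕ)) := by
      intro w hw n
      rw [Finset.mem_insert, not_or] at hw
      obtain ⟨hwv, hwΔ⟩ := hw
      have hΔw : Δ.eval w ≠ 0 := by
        intro h0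
        exact hwΔ (Multiset.mem_toFinset.2 ((mem_roots hΔ).2 h0))
      have hsub : w - v ≠ 0 := sub_ne_zero.2 hwv
      have h1 : P w ^ M ∈ Submodule.span K (Set.range fun a : Fin M => P w ^ (a : ℕ)) := by
        have h2 : P w ^ M = (Δ.eval w)⁻¹ • ∑ a, (x a).eval w • P w ^ (a : ℕ) := by
          rw [← hrel w, smul_smul, inv_mul_cancel₀ hΔw, one_smul]
        rw [h2]
        refine Submodule.smul_mem _ _ (Submodule.sum_mem _ fun a _ => Submodule.smul_mem _ _ ?_)
        exact Submodule.subset_span ⟨a, rfl⟩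
      have h3 : Y w ^ n = ((w - v)⁻¹) ^ n • aeval (P w) (f ^ n) := by
        have h4 : Y w = (w - v)⁻¹ • aeval (P w) f := by
          rw [hfY w, smul_smul, inv_mul_cancel₀ hsub, one_smul]
        rw [h4, _root_.smul_pow, map_pow]
      rw [h3]
      exact Submodule.smul_mem _ _ (aeval_mem_span _ M h1 _)
    obtain ⟨N, g, hg⟩ := integral P M Δ hΔ l hl Y _ hY _ hspan
    set H : K[X][X] := (f.map C) ^ N -
      ∑ n ∈ Finset.range N, C (g n * (X - C v) ^ (N - n)) * (f.map C) ^ n with hH
    have hcomp : ∀ w : K, (f.map C).map (evalRingHom w) = f := by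
      intro w
      rw [Polynomial.map_map]
      have : (evalRingHom w).comp (C : K →+* K[X]) = RingHom.id K := by
        ext a
        simp
      rw [this, Polynomial.map_id]
    have hHw : ∀ w : K, H.map (evalRingHom w) = f ^ N -
        ∑ n ∈ Finset.range N, C ((g n).eval w * (w - v) ^ (N - n)) * f ^ n := by
      intro w
      rw [hH, Polynomial.map_sub, Polynomial.map_pow, hcomp, Polynomial.map_sum]
      congr 1
      refine Finset.sum_congr rfl fun n _ => ?_
      rw [Polynomial.map_mul, Polynomial.map_pow, hcomp, map_C]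
      congr 2
      simp
    have hH0 : ∀ w, aeval (P w) (H.map (evalRingHom w)) = 0 := by
      intro w
      rw [hHw w, map_sub, map_pow, map_sum, hfY w, _root_.smul_pow, hg w, Finset.smul_sum, sub_eq_zero]
      refine Finset.sum_congr rfl fun n hn => ?_
      have hnN : n < N := Finset.mem_range.1 hn
      rw [map_mul, aeval_C, map_pow, hfY w, _root_.smul_pow, smul_smul, ← Algebra.smul_def, smul_smul]
      congr 1
      have : (w - v) ^ N = (w - v) ^ (N - n) * (w - v) ^ n := by
        rw [← pow_add, Nat.sub_add_cancel hnN.le]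
      rw [this]
      ring
    have hdvd : F.map (evalRingHom v) ∣ f ^ N := by
      have h5 := Polynomial.map_dvd (evalRingHom v) (hF' H hH0)
      rw [hHw v] at h5
      have h6 : ∑ n ∈ Finset.range N, C ((g n).eval v * (v - v) ^ (N - n)) * f ^ n = 0 := by
        refine Finset.sum_eq_zero fun n hn => ?_
        have hnN : n < N := Finset.mem_range.1 hn
        rw [sub_self, zero_pow (Nat.sub_pos_of_lt hnN).ne', mul_zero, C_0, zero_mul]
      rwa [h6, sub_zero] at h5
    have h7 : (f ^ N).IsRoot t := ht.dvd hdvd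
    rw [IsRoot.def, eval_pow] at h7
    by_contra h8
    exact pow_ne_zero N h8 h7
  · intro ht
    exact ht.dvd (minpoly.dvd K (P v) (hF v))

private theorem exists_fin_of_card {K : Type} (s : Multiset K) (M : ℕ) (hs : Multiset.card s = M) :
    ∃ t : Fin M → K, s = (Finset.univ : Finset (Fin M)).val.map t := by
  subst hs
  refine ⟨fun i => s.toList.get (i.cast (Multiset.length_toList s).symm), ?_⟩
  have h1 : List.ofFn (fun i : Fin (Multiset.card s) =>
      s.toList.get (i.cast (Multiset.length_toList s).symm)) = s.toList := by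
    refine List.ext_get (by simp) fun n h1 h2 => ?_
    simp
  have h2 : (Finset.univ : Finset (Fin (Multiset.card s))).val.map
      (fun i => s.toList.get (i.cast (Multiset.length_toList s).symm)) =
      ((List.ofFn (fun i : Fin (Multiset.card s) =>
        s.toList.get (i.cast (Multiset.length_toList s).symm)) : List K) : Multiset K) := by
    rw [List.ofFn_eq_map]
    rfl
  rw [h2, h1, Multiset.coe_toList]

/-- The family theorem. Proof. `M` := the maximum over `l` of the degree of `minpoly K (P (ζ^l))` (`≤ n`, `≥ 1`), attained at `l₀`; the powers below the degree of the minimal polynomial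
are independent (`linearIndependent_pow` or `minpoly.degree_le_of_ne_zero`-type argument), so `relation` applies (`2 (W M^2) ≤ 2 (W (n (n+1))) < p`), then `exists_F` with
`B = W (M (M+1))`, then `isRoot_F`. `F_(ζ^l)` is monic of degree `M` over an algebraically closed field, so it is `∏ i : Fin M, (X - C (t i))`; each `t i` is a root of
`minpoly K (P (ζ^l))`, which divides `X^p - 1` (`hpow`), so `t i = ζ ^ e`, `e < p` (`IsPrimitiveRoot.eq_pow_of_pow_eq_one`). -/
theorem family {K R : Type} [Field K] [IsAlgClosed K] [Ring R] [Nontrivial R] [Algebra K R] {p : ℕ} [Fact p.Prime]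
    {ζ : K} (hζ : IsPrimitiveRoot ζ p) (P : K → R) (W n : ℕ) (hP : PolyFam (2 * W) P)
    (hpow : ∀ l : ZMod p, P (ζ ^ l.val) ^ p = 1)
    (hdeg : ∀ l : ZMod p, (minpoly K (P (ζ ^ l.val))).natDegree ≤ n)
    (hB : 2 * (W * (n * (n + 1))) < p) :
    ∃ (M : ℕ) (F : K[X][X]) (a : ZMod p → Fin M → ZMod p), 0 < M ∧ M ≤ n ∧ F.Monic ∧ F.natDegree = M ∧
      (∀ b, (F.coeff b).natDegree ≤ W * (n * (n + 1))) ∧
      (∀ l, F.map (evalRingHom (ζ ^ l.val)) = ∏ i, (X - C (ζ ^ (a l i).val))) ∧
      ∀ l, Set.range (a l) = Ex ζ (P (ζ ^ l.val)) := by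
  classical
  have : Infinite K := IsAlgClosed.instInfinite
  have hp : p.Prime := Fact.out
  have : NeZero p := ⟨hp.ne_zero⟩
  have hint : ∀ l : ZMod p, IsIntegral K (P (ζ ^ l.val)) := by
    intro l
    refine ⟨X ^ p - C 1, monic_X_pow_sub_C 1 hp.ne_zero, ?_⟩
    rw [← Polynomial.aeval_def, map_sub, map_pow, aeval_X, aeval_C, map_one, hpow l, sub_self]
  obtain ⟨l₀, hl₀⟩ := Finite.exists_max (fun l : ZMod p => (minpoly K (P (ζ ^ l.val))).natDegree)
  have hM0 : 0 < (minpoly K (P (ζ ^ l₀.val))).natDegree := minpoly.natDegree_pos (hint l₀)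
  have hMn : (minpoly K (P (ζ ^ l₀.val))).natDegree ≤ n := hdeg l₀
  have hind := linearIndependent_pow (K := K) (P (ζ ^ l₀.val))
  generalize hM : (minpoly K (P (ζ ^ l₀.val))).natDegree = M at hl₀ hM0 hMn hind
  have hMM : M * (M + 1) ≤ n * (n + 1) := Nat.mul_le_mul hMn (Nat.succ_le_succ hMn)
  have hdep : ∀ l : ZMod p, ∃ f : K[X], f.Monic ∧ f.natDegree ≤ M ∧ aeval (P (ζ ^ l.val)) f = 0 :=
    fun l => ⟨minpoly K (P (ζ ^ l.val)), minpoly.monic (hint l), hl₀ l, minpoly.aeval K _⟩
  have hB' : 2 * (W * M ^ 2) < p := by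
    refine lt_of_le_of_lt ?_ hB
    refine Nat.mul_le_mul_left 2 (Nat.mul_le_mul_left W (le_trans ?_ hMM))
    rw [sq]
    exact Nat.mul_le_mul_left M (Nat.le_succ M)
  obtain ⟨Δ, x, lf, hΔ, hx, hrel, hlf⟩ := relation hζ P W M hP hM0 hdep l₀ hind hB'
  obtain ⟨F, hFm, hFd, hFc, hF, hF'⟩ := exists_F P (2 * W) M (W * (M * (M + 1))) hP hM0 Δ hΔ x hx hrel lf hlf
  have hroot : ∀ (l : ZMod p) (t : K), (F.map (evalRingHom (ζ ^ l.val))).IsRoot t ↔
      (minpoly K (P (ζ ^ l.val))).IsRoot t :=
    fun l t => isRoot_F P (2 * W) M hP Δ hΔ x hrel lf hlf F hF hF' _ (hint l) t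
  have hex : ∀ l : ZMod p, ∃ a : Fin M → ZMod p,
      F.map (evalRingHom (ζ ^ l.val)) = ∏ i, (X - C (ζ ^ (a i).val)) ∧
      Set.range a = Ex ζ (P (ζ ^ l.val)) := by
    intro l
    set Fl := F.map (evalRingHom (ζ ^ l.val)) with hFl
    have hFlm : Fl.Monic := hFm.map _
    have hFld : Fl.natDegree = M := by rw [hFl, hFm.natDegree_map, hFd]
    have hsplit : Fl.Splits := IsAlgClosed.splits Fl
    have hcard : Multiset.card Fl.roots = M := by
      rw [← hsplit.natDegree_eq_card_roots, hFld]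
    obtain ⟨t, ht⟩ := exists_fin_of_card Fl.roots M hcard
    have hprod : Fl = ∏ i, (X - C (t i)) := by
      have h1 := hsplit.eq_prod_roots
      rw [hFlm.leadingCoeff, C_1, one_mul, ht, Multiset.map_map] at h1
      exact h1
    have htroot : ∀ i, Fl.IsRoot (t i) := by
      intro i
      have h1 : t i ∈ Fl.roots := by
        rw [ht]
        exact Multiset.mem_map_of_mem t (Finset.mem_univ i)
      exact (mem_roots hFlm.ne_zero).1 h1
    have hmin : ∀ t : K, (minpoly K (P (ζ ^ l.val))).IsRoot t → t ^ p = 1 := by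
      intro t ht
      have h1 : minpoly K (P (ζ ^ l.val)) ∣ X ^ p - C 1 := by
        refine minpoly.dvd K _ ?_
        rw [map_sub, map_pow, aeval_X, aeval_C, map_one, hpow l, sub_self]
      have h2 : (X ^ p - C 1 : K[X]).IsRoot t := ht.dvd h1
      rw [IsRoot.def, eval_sub, eval_pow, eval_X, eval_C, sub_eq_zero] at h2
      exact h2
    have hexp : ∀ i, ∃ e : ZMod p, t i = ζ ^ e.val := by
      intro i
      obtain ⟨e, he, hei⟩ := hζ.eq_pow_of_pow_eq_one (hmin _ ((hroot l _).1 (htroot i)))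
      refine ⟨(e : ZMod p), ?_⟩
      rw [ZMod.val_natCast_of_lt he, hei]
    choose a ha using hexp
    refine ⟨a, ?_, ?_⟩
    · rw [hprod]
      exact Finset.prod_congr rfl fun i _ => by rw [ha i]
    · ext e
      constructor
      · rintro ⟨i, rfl⟩
        show (minpoly K (P (ζ ^ l.val))).IsRoot (ζ ^ (a i).val)
        rw [← ha i]
        exact (hroot l _).1 (htroot i)
      · intro he
        have h1 : (minpoly K (P (ζ ^ l.val))).IsRoot (ζ ^ e.val) := he
        have h2 : Fl.IsRoot (ζ ^ e.val) := (hroot l _).2 h1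
        have h3 : ζ ^ e.val ∈ Fl.roots := (mem_roots hFlm.ne_zero).2 h2
        rw [ht, Multiset.mem_map] at h3
        obtain ⟨i, -, hi⟩ := h3
        rw [ha i] at hi
        refine ⟨i, ?_⟩
        have h4 := hζ.pow_inj (ZMod.val_lt (a i)) (ZMod.val_lt e) hi
        exact ZMod.val_injective p h4
  choose a ha1 ha2 using hex
  refine ⟨M, F, a, hM0, hMn, hFm, hFd, fun b => (hFc b).trans (Nat.mul_le_mul_left W hMM), ha1, ha2⟩

end Pool.Agent.FewEig
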