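import Mathlib

/-! PIECE D1: vanishing of a cyclotomic integer. -/

set_option autoImplicit false

open Polynomial

namespace Pool.Agent.FewEig

/-- Proof. `h(T) := ∏_{1 ≤ k < p} g(T^k) ∈ ℤ[T]`. Let `r := h %ₘ cyclotomic p ℤ` (degree `< p - 1`). For the primitive roots `ζ₀^a` (`1 ≤ a < p`) in `k`:
`h(ζ₀^a) = h(ζ₀)` (the `k` are permuted), so `r(ζ₀^a) = r(ζ₀)`: `r - C (r(ζ₀))` has degree `< p - 1` and `p - 1` roots in `k`, so `r` is constant over `k`, hence
`r = C N`, `N ∈ ℤ`, `h = cyclotomic p ℤ * Q + C N`. At `ζ`: `(N : K) = h(ζ) = 0` as the factor `k = 1` is `0` (`cyclotomic` vanishes at `ζ`: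
`IsPrimitiveRoot.isRoot_cyclotomic`, also in characteristic `q`, `q ∤ p` or directly from the geometric sum), so `N = 0` or `ringChar K ∣ N`, `ringChar K ≠ 0`. At a complex primitive root `ξ`: `|N| = ∏ |g(ξ^k)| ≤ H^(p-1)`
by `hg` (each `ξ^k` is primitive). So `N = 0` in both cases of `hK`. Then `h(ζ₀) = 0`, so `g(ζ₀^k) = 0` for some `1 ≤ k < p`, and `g(ζ₀) = 0` since `ζ₀` and `ζ₀^k` have the same
minimal polynomial `cyclotomic p ℚ` (`Polynomial.cyclotomic_eq_minpoly_rat`; `cyclotomic p ℤ ∣ g`). -/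
theorem lift_zero {K : Type} [Field K] {p : ℕ} [Fact p.Prime] {ζ : K} (hζ : IsPrimitiveRoot ζ p)
    (g : ℤ[X]) (H : ℕ) (hK : ringChar K = 0 ∨ H ^ (p - 1) < ringChar K)
    (hg : ∀ ξ : ℂ, IsPrimitiveRoot ξ p → ‖aeval ξ g‖ ≤ H) (h0 : aeval ζ g = 0)
    {k : Type} [Field k] [CharZero k] {ζ₀ : k} (hζ₀ : IsPrimitiveRoot ζ₀ p) : aeval ζ₀ g = 0 := by
  classical
  have hp : p.Prime := Fact.out
  have hp1 : 1 < p := hp.one_lt
  have hp0 : 0 < p := hp.pos
  set h : ℤ[X] := ∏ i ∈ Finset.Ico 1 p, g.comp (X ^ i) with hh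
  set c : ℂ := ∏ η ∈ primitiveRoots p ℂ, aeval η g with hc
  have hev : ∀ {R : Type} [CommRing R] (x : R), aeval x h = ∏ i ∈ Finset.Ico 1 p, aeval (x ^ i) g := by
    intro R _ x
    rw [hh, map_prod]
    refine Finset.prod_congr rfl fun i _ => ?_
    rw [aeval_comp, map_pow, aeval_X]
  have hprim : ∀ ξ : ℂ, IsPrimitiveRoot ξ p → aeval ξ h = c := by
    intro ξ hξ
    rw [hev, hc]
    refine Finset.prod_bij (fun i _ => ξ ^ i) ?_ ?_ ?_ ?_
    · intro i hi
      rw [Finset.mem_Ico] at hi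
      rw [mem_primitiveRoots hp0]
      exact hξ.pow_of_coprime i (Nat.Coprime.symm (Nat.coprime_of_lt_prime (by omega) hi.2 hp))
    · intro i hi j hj hij
      rw [Finset.mem_Ico] at hi hj
      exact hξ.pow_inj hi.2 hj.2 hij
    · intro η hη
      rw [mem_primitiveRoots hp0] at hη
      obtain ⟨i, hi, hie⟩ := hξ.eq_pow_of_pow_eq_one hη.pow_eq_one
      refine ⟨i, ?_, hie⟩
      rw [Finset.mem_Ico]
      refine ⟨?_, hi⟩
      by_contra h1
      have h2 : i = 0 := by omega
      rw [h2, pow_zero] at hie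
      exact hη.ne_one hp1 hie.symm
    · intro i hi
      rfl
  have hmon : (cyclotomic p ℤ).Monic := cyclotomic.monic p ℤ
  set r : ℤ[X] := h %ₘ cyclotomic p ℤ with hr
  have hdiv : r + cyclotomic p ℤ * (h /ₘ cyclotomic p ℤ) = h := modByMonic_add_div h _
  have hcyc : ∀ {R : Type} [CommRing R] [IsDomain R] (x : R), IsPrimitiveRoot x p →
      aeval x (cyclotomic p ℤ) = 0 := by
    intro R _ _ x hx
    have h1 := hx.isRoot_cyclotomic hp0
    rw [IsRoot.def, ← map_cyclotomic p (Int.castRingHom R), eval_map] at h1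
    exact h1
  have hrev : ∀ {R : Type} [CommRing R] [IsDomain R] (x : R), IsPrimitiveRoot x p →
      aeval x r = aeval x h := by
    intro R _ _ x hx
    have h1 := congrArg (aeval x) hdiv
    rw [map_add, map_mul, hcyc x hx, zero_mul, add_zero] at h1
    exact h1
  have hdeg : r.degree < ((p - 1 : ℕ) : WithBot ℕ) := by
    have h1 := degree_modByMonic_lt h hmon
    rw [degree_cyclotomic, Nat.totient_prime hp] at h1
    exact h1
  have hrc : r.map (Int.castRingHom ℂ) = C c := by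
    refine Polynomial.eq_of_degree_sub_lt_of_eval_finset_eq (primitiveRoots p ℂ) ?_ ?_
    · rw [Complex.card_primitiveRoots, Nat.totient_prime hp]
      refine lt_of_le_of_lt (degree_sub_le _ _) (max_lt ?_ ?_)
      · exact lt_of_le_of_lt degree_map_le hdeg
      · refine lt_of_le_of_lt degree_C_le ?_
        have : 0 < p - 1 := by omega
        exact_mod_cast this
    · intro x hx
      rw [mem_primitiveRoots hp0] at hx
      rw [eval_C, ← hprim x hx, ← hrev x hx, eval_map]
      rfl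
  set N : ℤ := r.coeff 0 with hN
  have hcN : c = (N : ℂ) := by
    have h1 := congrArg (fun q => Polynomial.coeff q 0) hrc
    simp only [coeff_map, coeff_C_zero] at h1
    rw [← h1]
    rfl
  have hrN : r = C N := by
    apply Polynomial.map_injective (Int.castRingHom ℂ) Int.cast_injective
    rw [hrc, hcN, Polynomial.map_C]
    rfl
  -- `N = 0` in `K`
  have hNK : (N : K) = 0 := by
    have h1 := hrev ζ hζ
    rw [hrN, hev] at h1
    have h2 : ∏ i ∈ Finset.Ico 1 p, aeval (ζ ^ i) g = 0 := by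
      refine Finset.prod_eq_zero (i := 1) ?_ ?_
      · rw [Finset.mem_Ico]
        exact ⟨le_rfl, hp1⟩
      · rw [pow_one]
        exact h0
    rw [h2, aeval_C] at h1
    exact_mod_cast h1
  have hchar : (ringChar K : ℤ) ∣ N := (CharP.intCast_eq_zero_iff K (ringChar K) N).1 hNK
  have hbound : ‖c‖ ≤ (H : ℝ) ^ (p - 1) := by
    rw [hc, norm_prod]
    refine (Finset.prod_le_prod (fun _ _ => norm_nonneg _) fun η hη =>
      hg η ((mem_primitiveRoots hp0).1 hη)).trans (le_of_eq ?_)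
    rw [Finset.prod_const, Complex.card_primitiveRoots, Nat.totient_prime hp]
  have hNabs : N.natAbs ≤ H ^ (p - 1) := by
    rw [hcN] at hbound
    have h1 : ‖((N : ℤ) : ℂ)‖ = ((N.natAbs : ℕ) : ℝ) := by
      rw [Complex.norm_intCast, Nat.cast_natAbs, Int.cast_abs]
    rw [h1] at hbound
    exact_mod_cast hbound
  have hN0 : N = 0 := by
    rcases hK with hK | hK
    · rw [hK] at hchar
      simpa using hchar
    · by_contra hne
      have h1 : ringChar K ∣ N.natAbs := Int.natCast_dvd.1 hchar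
      have h2 := Nat.le_of_dvd (Int.natAbs_pos.2 hne) h1
      omega
  have hc0 : c = 0 := by rw [hcN, hN0, Int.cast_zero]
  rw [hc] at hc0
  obtain ⟨η, hη, hη0⟩ := Finset.prod_eq_zero_iff.1 hc0
  rw [mem_primitiveRoots hp0] at hη
  have hdvd : cyclotomic p ℤ ∣ g := by
    rw [cyclotomic_eq_minpoly hη hp0]
    exact minpoly.isIntegrallyClosed_dvd (hη.isIntegral hp0) hη0
  obtain ⟨q, hq⟩ := hdvd
  rw [hq, map_mul, hcyc ζ₀ hζ₀, zero_mul]

end Pool.Agent.FewEig
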