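import Mathlib

/-! PIECE D2: coefficients of a product of linear factors. -/

set_option autoImplicit false

open Polynomial

namespace Pool.Agent.FewEig

/-- Proof. Induction over the finset: the coefficient of `(X - C c) * f` at `b` is `f.coeff (b-1) - c * f.coeff b`. -/
theorem norm_coeff_prod_le {ι : Type} (s : Finset ι) (c : ι → ℂ) (hc : ∀ i ∈ s, ‖c i‖ ≤ 1) (b : ℕ) :
    ‖(∏ i ∈ s, (X - C (c i))).coeff b‖ ≤ 2 ^ s.card := by
  classical
  induction s using Finset.induction_on generalizing b with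
  | empty =>
    rw [Finset.prod_empty, Finset.card_empty, pow_zero, coeff_one]
    split_ifs <;> simp
  | insert a s ha ih =>
    rw [Finset.prod_insert ha, Finset.card_insert_of_notMem ha, sub_mul, coeff_sub, coeff_C_mul]
    have ih' := fun b => ih (fun i hi => hc i (Finset.mem_insert_of_mem hi)) b
    have hca := hc a (Finset.mem_insert_self _ _)
    have h1 : ‖(X * ∏ i ∈ s, (X - C (c i))).coeff b‖ ≤ 2 ^ s.card := by
      cases b with
      | zero =>
        rw [coeff_X_mul_zero, norm_zero]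
        positivity
      | succ b =>
        rw [coeff_X_mul]
        exact ih' b
    have h2 : ‖c a * (∏ i ∈ s, (X - C (c i))).coeff b‖ ≤ 2 ^ s.card := by
      rw [norm_mul]
      exact (mul_le_mul hca (ih' b) (norm_nonneg _) zero_le_one).trans (one_mul _).le
    refine (norm_sub_le _ _).trans ?_
    rw [pow_succ, mul_two]
    exact add_le_add h1 h2

private theorem e_natCast {K : Type} [Field K] {p : ℕ} [Fact p.Prime] {ζ : K}
    (hζ : IsPrimitiveRoot ζ p) (n : ℕ) : ζ ^ (n : ZMod p).val = ζ ^ n := by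
  rw [ZMod.val_natCast]
  exact (pow_eq_pow_mod n hζ.pow_eq_one).symm

private theorem e_add {K : Type} [Field K] {p : ℕ} [Fact p.Prime] {ζ : K}
    (hζ : IsPrimitiveRoot ζ p) (x y : ZMod p) : ζ ^ (x + y).val = ζ ^ x.val * ζ ^ y.val := by
  rw [ZMod.val_add, ← pow_add]
  exact (pow_eq_pow_mod _ hζ.pow_eq_one).symm

private theorem e_pow {K : Type} [Field K] {p : ℕ} [Fact p.Prime] {ζ : K}
    (hζ : IsPrimitiveRoot ζ p) (x : ZMod p) (n : ℕ) : (ζ ^ x.val) ^ n = ζ ^ ((n : ZMod p) * x).val := by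
  induction n with
  | zero => simp
  | succ n ih =>
    rw [pow_succ, ih, ← e_add hζ]
    congr 2
    push_cast
    ring

private theorem e_sum {K : Type} [Field K] {p : ℕ} [Fact p.Prime] {ζ : K}
    (hζ : IsPrimitiveRoot ζ p) (a : ZMod p) :
    ∑ l : ZMod p, ζ ^ (a * l).val = if a = 0 then (p : K) else 0 := by
  have hp : p.Prime := Fact.out
  split_ifs with h
  · subst h
    simp [ZMod.card]
  · have h1 : ∑ l : ZMod p, ζ ^ (a * l).val = ∑ l : ZMod p, ζ ^ l.val :=
      Fintype.sum_equiv (Equiv.mulLeft₀ a h) _ _ fun l => rfl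
    have h2 : ∑ l : ZMod p, ζ ^ l.val = ∑ i ∈ Finset.range p, ζ ^ i := by
      refine Finset.sum_bij (fun (l : ZMod p) _ => l.val) ?_ ?_ ?_ ?_
      · intro l _
        exact Finset.mem_range.2 (ZMod.val_lt l)
      · intro l _ l' _ hl
        exact ZMod.val_injective p hl
      · intro i hi
        exact ⟨(i : ZMod p), Finset.mem_univ _, ZMod.val_cast_of_lt (Finset.mem_range.1 hi)⟩
      · intro l _
        rfl
    rw [h1, h2]
    exact hζ.geom_sum_eq_zero hp.one_lt

/-- Fourier coefficients of a polynomial of degree `< p` from its values at the `p`-th roots of unity. -/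
theorem fourier_coeff {K : Type} [Field K] {p : ℕ} [Fact p.Prime] {ζ : K} (hζ : IsPrimitiveRoot ζ p) (f : K[X])
    (hf : f.natDegree < p) (u : ℕ) (hu : u < p) :
    ∑ l : ZMod p, ζ ^ (-((u : ZMod p) * l)).val * f.eval (ζ ^ l.val) = (p : K) * f.coeff u := by
  have h1 : ∀ l : ZMod p, ζ ^ (-((u : ZMod p) * l)).val * f.eval (ζ ^ l.val) =
      ∑ k ∈ Finset.range p, f.coeff k * ζ ^ (((k : ZMod p) - (u : ZMod p)) * l).val := by
    intro l
    rw [eval_eq_sum_range' hf, Finset.mul_sum]
    refine Finset.sum_congr rfl fun k _ => ?_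
    rw [e_pow hζ, mul_left_comm, ← e_add hζ]
    congr 3
    ring
  rw [Finset.sum_congr rfl fun l _ => h1 l, Finset.sum_comm]
  have h2 : ∀ k ∈ Finset.range p,
      ∑ l : ZMod p, f.coeff k * ζ ^ (((k : ZMod p) - (u : ZMod p)) * l).val =
      if k = u then (p : K) * f.coeff u else 0 := by
    intro k hk
    rw [← Finset.mul_sum, e_sum hζ]
    have h3 : ((k : ZMod p) - (u : ZMod p) = 0) ↔ k = u := by
      rw [sub_eq_zero, ZMod.natCast_eq_natCast_iff', Nat.mod_eq_of_lt (Finset.mem_range.1 hk),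
        Nat.mod_eq_of_lt hu]
    by_cases h : k = u
    · rw [if_pos (h3.2 h), if_pos h, h, mul_comm]
    · rw [if_neg (fun h' => h (h3.1 h')), if_neg h, mul_zero]
  rw [Finset.sum_congr rfl h2, Finset.sum_ite_eq' (Finset.range p) u, if_pos (Finset.mem_range.2 hu)]

/-- Fourier inversion on `ZMod p`. -/
theorem fourier_inv {K : Type} [Field K] [CharZero K] {p : ℕ} [Fact p.Prime] {ζ : K} (hζ : IsPrimitiveRoot ζ p) (E : ZMod p → K)
    (v : ZMod p) :
    ∑ u ∈ Finset.range p, (∑ l : ZMod p, ζ ^ (-((u : ZMod p) * l)).val * E l) * (ζ ^ v.val) ^ u = (p : K) * E v := by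
  have h1 : ∀ u ∈ Finset.range p,
      (∑ l : ZMod p, ζ ^ (-((u : ZMod p) * l)).val * E l) * (ζ ^ v.val) ^ u =
      ∑ l : ZMod p, E l * ζ ^ ((v - l) * (u : ZMod p)).val := by
    intro u _
    rw [Finset.sum_mul]
    refine Finset.sum_congr rfl fun l _ => ?_
    rw [e_pow hζ, mul_comm (ζ ^ (-((u : ZMod p) * l)).val) (E l), mul_assoc, ← e_add hζ]
    congr 3
    ring
  rw [Finset.sum_congr rfl h1, Finset.sum_comm]
  have h2 : ∀ l : ZMod p, ∑ u ∈ Finset.range p, E l * ζ ^ ((v - l) * (u : ZMod p)).val =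
      if l = v then (p : K) * E v else 0 := by
    intro l
    rw [← Finset.mul_sum]
    have h3 : ∑ u ∈ Finset.range p, ζ ^ ((v - l) * (u : ZMod p)).val =
        ∑ u : ZMod p, ζ ^ ((v - l) * u).val := by
      symm
      refine Finset.sum_bij (fun (l : ZMod p) _ => l.val) ?_ ?_ ?_ ?_
      · intro l _
        exact Finset.mem_range.2 (ZMod.val_lt l)
      · intro l _ l' _ hl
        exact ZMod.val_injective p hl
      · intro i hi
        exact ⟨(i : ZMod p), Finset.mem_univ _, ZMod.val_cast_of_lt (Finset.mem_range.1 hi)⟩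
      · intro l _
        rw [ZMod.natCast_zmod_val]
    rw [h3, e_sum hζ]
    by_cases h : l = v
    · rw [if_pos (sub_eq_zero.2 h.symm), if_pos h, h, mul_comm]
    · rw [if_neg (fun h' => h (sub_eq_zero.1 h').symm), if_neg h, mul_zero]
  rw [Finset.sum_congr rfl fun l _ => h2 l, Finset.sum_ite_eq', if_pos (Finset.mem_univ _)]

end Pool.Agent.FewEig
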