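import Pool.Agent.Lib_MP_e73b0e.D1
import Pool.Agent.Lib_MP_e73b0e.D2

/-! PIECE D3: descent to characteristic `0`. -/

set_option autoImplicit false

open Polynomial

namespace Pool.Agent.FewEig

/-- The Fourier sums as integer polynomials. -/
private noncomputable def D3_g {p M : ℕ} [Fact p.Prime] (a : ZMod p → Fin M → ZMod p)
    (b u : ℕ) : ℤ[X] :=
  ∑ l : ZMod p, X ^ (-((u : ZMod p) * l)).val *
    (∏ i, (X - C (X ^ (a l i).val)) : ℤ[X][X]).coeff b

private lemma D3_aeval {A : Type} [Field A] {p M : ℕ} [Fact p.Prime]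
    (a : ZMod p → Fin M → ZMod p) (b u : ℕ) (ξ : A) :
    aeval ξ (D3_g a b u) = ∑ l : ZMod p, ξ ^ (-((u : ZMod p) * l)).val *
      (∏ i, (X - C (ξ ^ (a l i).val)) : A[X]).coeff b := by
  unfold D3_g
  rw [map_sum]
  apply Finset.sum_congr rfl
  intro l _
  rw [map_mul, map_pow, aeval_X]
  congr 1
  have h1 : aeval ξ ((∏ i, (X - C (X ^ (a l i).val)) : ℤ[X][X]).coeff b) =
      ((∏ i, (X - C (X ^ (a l i).val)) : ℤ[X][X]).map (aeval ξ).toRingHom).coeff b := by
    rw [coeff_map]
    rfl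
  rw [h1, Polynomial.map_prod]
  congr 2
  funext i
  rw [Polynomial.map_sub, map_X, map_C]
  congr 2
  change aeval ξ (X ^ (a l i).val) = _
  rw [map_pow, aeval_X]

/-- Proof. For `b u` let `g b u := ∑ l : ZMod p, X ^ (-(u * l)).val * (∏ i, (X - C (X ^ (a l i).val)) : ℤ[X][X]).coeff b ∈ ℤ[X]`. At a ring element `ξ`:
`aeval ξ (g b u) = ∑ l, ξ ^ (-(u l)).val * (∏ i, (X - C (ξ ^ (a l i).val))).coeff b`. At `ζ`: it is `∑ l, ζ^(-(u l)).val * (F.coeff b).eval (ζ ^ l.val) = p * (F.coeff b).coeff u`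
(`fourier_coeff`), zero for `B < u < p`. At a complex primitive root its norm is at most `p * 2 ^ M` (`norm_coeff_prod_le`). So `aeval ζ₀ (g b u) = 0` for `B < u < p` by
`lift_zero` with `H = 2 ^ M * p`. `c b := ∑ u ∈ range (B + 1), monomial u (aeval ζ₀ (g b u) / p) ∈ k[X]`; by `fourier_inv`
`(c b).eval (ζ₀ ^ l.val) = (∏ i, (X - C (ζ₀ ^ (a l i).val))).coeff b`. `F₀ := ∑ b ∈ range (M + 1), monomial b (c b)`; `c M = 1` because `fourier_coeff` for the constant `1`
(or: `c M - 1` has degree `< p` and `p` zeros). -/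
theorem descent {K : Type} [Field K] {p M B : ℕ} [Fact p.Prime] {ζ : K} (hζ : IsPrimitiveRoot ζ p)
    (hK : ringChar K = 0 ∨ (2 ^ M * p) ^ (p - 1) < ringChar K) (hB : B < p)
    (F : K[X][X]) (hFB : ∀ b, (F.coeff b).natDegree ≤ B)
    (a : ZMod p → Fin M → ZMod p)
    (ha : ∀ l, F.map (evalRingHom (ζ ^ l.val)) = ∏ i, (X - C (ζ ^ (a l i).val)))
    {k : Type} [Field k] [CharZero k] {ζ₀ : k} (hζ₀ : IsPrimitiveRoot ζ₀ p) :
    ∃ F₀ : k[X][X], F₀.Monic ∧ F₀.natDegree = M ∧ (∀ b, (F₀.coeff b).natDegree ≤ B) ∧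
      ∀ l : ZMod p, F₀.map (evalRingHom (ζ₀ ^ l.val)) = ∏ i, (X - C (ζ₀ ^ (a l i).val)) := by
  classical
  have hp : p.Prime := Fact.out
  have hMp : (p : k) ≠ 0 := Nat.cast_ne_zero.2 hp.ne_zero
  -- the values of the Fourier sums
  have hzero : ∀ b u, B < u → u < p → aeval ζ₀ (D3_g a b u) = 0 := by
    intro b u hu1 hu2
    refine lift_zero hζ (D3_g a b u) (2 ^ M * p) hK ?_ ?_ hζ₀
    · intro ξ hξ
      have hξn : ‖ξ‖ = 1 := hξ.norm'_eq_one hp.ne_zero
      rw [D3_aeval]
      refine (norm_sum_le _ _).trans ?_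
      have h1 : ∀ l ∈ (Finset.univ : Finset (ZMod p)),
          ‖ξ ^ (-((u : ZMod p) * l)).val *
            (∏ i, (X - C (ξ ^ (a l i).val)) : ℂ[X]).coeff b‖ ≤ 2 ^ M := by
        intro l _
        rw [norm_mul, norm_pow, hξn, one_pow, one_mul]
        have h2 := norm_coeff_prod_le (Finset.univ : Finset (Fin M))
          (fun i => ξ ^ (a l i).val) (by
            intro i _
            rw [norm_pow, hξn, one_pow]) b
        rw [Finset.card_univ, Fintype.card_fin] at h2
        exact h2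
      refine (Finset.sum_le_sum h1).trans ?_
      rw [Finset.sum_const, Finset.card_univ, ZMod.card, nsmul_eq_mul]
      push_cast
      rw [mul_comm]
    · rw [D3_aeval]
      have h3 := fourier_coeff hζ (F.coeff b) (lt_of_le_of_lt (hFB b) hB) u hu2
      rw [coeff_eq_zero_of_natDegree_lt (lt_of_le_of_lt (hFB b) hu1), mul_zero] at h3
      rw [← h3]
      apply Finset.sum_congr rfl
      intro l _
      rw [← ha l, coeff_map, coe_evalRingHom]
  -- the coefficients
  let c : ℕ → k[X] := fun b => ∑ u ∈ Finset.range (B + 1), monomial u (aeval ζ₀ (D3_g a b u) / p)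
  have hcdeg : ∀ b, (c b).natDegree ≤ B := by
    intro b
    apply natDegree_sum_le_of_forall_le
    intro u hu
    exact (natDegree_monomial_le _).trans (by have := Finset.mem_range.1 hu; omega)
  have hceval : ∀ b (v : ZMod p), (c b).eval (ζ₀ ^ v.val) =
      (∏ i, (X - C (ζ₀ ^ (a v i).val)) : k[X]).coeff b := by
    intro b v
    have h1 := fourier_inv hζ₀ (fun l => (∏ i, (X - C (ζ₀ ^ (a l i).val)) : k[X]).coeff b) v
    have h2 : ∑ u ∈ Finset.range p, (aeval ζ₀ (D3_g a b u)) * (ζ₀ ^ v.val) ^ u =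
        ∑ u ∈ Finset.range (B + 1), (aeval ζ₀ (D3_g a b u)) * (ζ₀ ^ v.val) ^ u := by
      symm
      apply Finset.sum_subset
      · intro u hu
        rw [Finset.mem_range] at hu ⊢
        omega
      · intro u hu hu'
        rw [Finset.mem_range] at hu hu'
        rw [hzero b u (by omega) hu, zero_mul]
    have h3 : (c b).eval (ζ₀ ^ v.val) =
        (∑ u ∈ Finset.range (B + 1), (aeval ζ₀ (D3_g a b u)) * (ζ₀ ^ v.val) ^ u) / p := by
      simp only [c]
      rw [eval_finsetSum, Finset.sum_div]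
      apply Finset.sum_congr rfl
      intro u _
      rw [eval_monomial]
      ring
    rw [h3, ← h2]
    rw [div_eq_iff hMp, mul_comm _ (p : k), ← h1]
    apply Finset.sum_congr rfl
    intro u _
    rw [D3_aeval]
  have hinj : Function.Injective fun v : ZMod p => ζ₀ ^ v.val := by
    intro v w hvw
    exact ZMod.val_injective p (hζ₀.pow_inj (ZMod.val_lt v) (ZMod.val_lt w) hvw)
  have hprod : ∀ v : ZMod p, (∏ i, (X - C (ζ₀ ^ (a v i).val)) : k[X]).Monic ∧
      (∏ i, (X - C (ζ₀ ^ (a v i).val)) : k[X]).natDegree = M := by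
    intro v
    refine ⟨monic_prod_of_monic _ _ fun i _ => monic_X_sub_C _, ?_⟩
    rw [natDegree_prod_of_monic _ _ fun i _ => monic_X_sub_C _]
    simp only [natDegree_X_sub_C, Finset.sum_const, Finset.card_univ, Fintype.card_fin,
      smul_eq_mul, mul_one]
  have hcM : c M = 1 := by
    rw [← sub_eq_zero]
    apply eq_zero_of_natDegree_lt_card_of_eval_eq_zero _ hinj
    · intro v
      have h1 := (hprod v).1
      rw [Monic, leadingCoeff, (hprod v).2] at h1
      rw [eval_sub, hceval, h1, eval_one, sub_self]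
    · rw [ZMod.card]
      refine lt_of_le_of_lt (natDegree_sub_le _ _) ?_
      rw [natDegree_one]
      have := hcdeg M
      omega
  let F₀ : k[X][X] := ∑ b ∈ Finset.range (M + 1), monomial b (c b)
  have hF₀c : ∀ b, F₀.coeff b = if b < M + 1 then c b else 0 := by
    intro b
    simp only [F₀]
    rw [finsetSum_coeff]
    simp only [coeff_monomial]
    rw [Finset.sum_ite_eq']
    simp only [Finset.mem_range]
  have hF₀M : F₀.coeff M = 1 := by
    rw [hF₀c, if_pos (Nat.lt_succ_self M), hcM]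
  have hF₀d : F₀.natDegree ≤ M := by
    rw [natDegree_le_iff_coeff_eq_zero]
    intro N hN
    rw [hF₀c, if_neg (by omega)]
  refine ⟨F₀, monic_of_natDegree_le_of_coeff_eq_one M hF₀d hF₀M, ?_, ?_, ?_⟩
  · exact natDegree_eq_of_le_of_coeff_ne_zero hF₀d (by rw [hF₀M]; exact one_ne_zero)
  · intro b
    rw [hF₀c]
    split_ifs
    · exact hcdeg b
    · rw [natDegree_zero]
      exact Nat.zero_le _
  · intro l
    ext b : 1
    rw [coeff_map, coe_evalRingHom, hF₀c]
    split_ifs with hb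
    · exact hceval b l
    · rw [eval_zero, coeff_eq_zero_of_natDegree_lt]
      rw [(hprod l).2]
      omega

end Pool.Agent.FewEig
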