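import Mathlib

/-! MP_e73b0e_al, few eigenvalues: definitions. -/

set_option autoImplicit false

open Polynomial

namespace Pool.Agent.FewEig

/-- `f` is a polynomial family of degree at most `d` in the algebra `R`. -/
def PolyFam {K R : Type} [Field K] [Ring R] [Algebra K R] (d : ℕ) (f : K → R) : Prop :=
  ∃ r : ℕ → R, ∀ w, f w = ∑ i ∈ Finset.range (d + 1), w ^ i • r i

/-- the exponents of the eigenvalues of `x` (with `x ^ p = 1`) with respect to the primitive `p`-th root of unity `ζ` -/
def Ex {K R : Type} [Field K] [Ring R] [Algebra K R] {p : ℕ} (ζ : K) (x : R) : Set (ZMod p) :=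
  {e | (minpoly K x).IsRoot (ζ ^ e.val)}

/-- the commutator `a b a⁻¹ b⁻¹` -/
def cm {G : Type} [Group G] (a b : G) : G := a * b * a⁻¹ * b⁻¹

end Pool.Agent.FewEig
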