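import Mathlib

/-! PIECE E1: power sums. -/

set_option autoImplicit false

open Polynomial

namespace Pool.Agent.FewEig

/-- The power sums of the roots are universal integral polynomials in the coefficients. Proof. Symmetric polynomials are polynomials in the elementary ones
(`MvPolynomial.esymmAlgEquiv` or `MvPolynomial.esymmAlgHom_surjective`-type statement, `MvPolynomial.psum_isSymmetric`), and the coefficients of `∏ (X - x i)` are `±` the elementary symmetric functions
(`Multiset.prod_X_sub_X_eq_sum_esymm`, `MvPolynomial.prod_C_add_X_eq_sum_esymm`, `Polynomial.coeff_eq_esymm_roots_of_card` or `Multiset.prod_X_sub_C_coeff`). Or by Newton's identities. -/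
theorem exists_ps (M : ℕ) : ∃ N : ℕ → MvPolynomial (Fin M) ℤ, ∀ (L : Type) [CommRing L] (x : Fin M → L) (j : ℕ),
    MvPolynomial.aeval (fun b : Fin M => (∏ i, (X - C (x i)) : L[X]).coeff b) (N j) = ∑ i, x i ^ j := by
  have h1 : ∀ j : ℕ, ∃ Q : MvPolynomial (Fin M) ℤ,
      MvPolynomial.aeval (fun i : Fin M => MvPolynomial.esymm (Fin M) ℤ (i + 1)) Q =
        MvPolynomial.psum (Fin M) ℤ j := by
    intro j
    obtain ⟨Q, hQ⟩ := MvPolynomial.esymmAlgHom_surjective (σ := Fin M) (R := ℤ) (n := M)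
      (by simp) ⟨MvPolynomial.psum (Fin M) ℤ j, MvPolynomial.psum_isSymmetric (Fin M) ℤ j⟩
    refine ⟨Q, ?_⟩
    have h2 := congrArg Subtype.val hQ
    rw [MvPolynomial.esymmAlgHom_apply] at h2
    exact h2
  choose Q hQ using h1
  refine ⟨fun j => MvPolynomial.aeval (fun i : Fin M =>
    ((-1) ^ ((i : ℕ) + 1) * MvPolynomial.X (Fin.rev i) : MvPolynomial (Fin M) ℤ)) (Q j), ?_⟩
  intro L _ x j
  have hc : ∀ i : Fin M, (-1) ^ ((i : ℕ) + 1) *
      (∏ i, (X - C (x i)) : L[X]).coeff (Fin.rev i : Fin M) =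
        MvPolynomial.aeval x (MvPolynomial.esymm (Fin M) ℤ (i + 1)) := by
    intro i
    have h3 : (∏ i, (X - C (x i)) : L[X]) =
        ((Finset.univ.val.map x).map fun t => X - C t).prod := by
      rw [Multiset.map_map]
      rfl
    have h4 : Multiset.card (Finset.univ.val.map x) = M := by simp
    rw [MvPolynomial.aeval_esymm_eq_multiset_esymm, h3,
      Multiset.prod_X_sub_C_coeff _ (by rw [h4, Fin.val_rev]; omega), h4, Fin.val_rev]
    have h5 : M - (M - ((i : ℕ) + 1)) = (i : ℕ) + 1 := by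
      have := i.2
      omega
    rw [h5, ← mul_assoc, ← mul_pow, neg_one_mul, neg_neg, one_pow, one_mul]
  have h6 : MvPolynomial.aeval (fun b : Fin M => (∏ i, (X - C (x i)) : L[X]).coeff b)
      (MvPolynomial.aeval (fun i : Fin M =>
        ((-1) ^ ((i : ℕ) + 1) * MvPolynomial.X (Fin.rev i) : MvPolynomial (Fin M) ℤ)) (Q j)) =
      MvPolynomial.aeval (fun i : Fin M =>
        MvPolynomial.aeval x (MvPolynomial.esymm (Fin M) ℤ (i + 1))) (Q j) := by
    rw [← AlgHom.comp_apply, MvPolynomial.comp_aeval]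
    congr 2
    funext i
    rw [map_mul, map_pow, map_neg, map_one, MvPolynomial.aeval_X]
    exact hc i
  have h7 : MvPolynomial.aeval (fun i : Fin M =>
        MvPolynomial.aeval x (MvPolynomial.esymm (Fin M) ℤ (i + 1))) (Q j) =
      MvPolynomial.aeval x (MvPolynomial.psum (Fin M) ℤ j) := by
    rw [← hQ j, ← AlgHom.comp_apply, MvPolynomial.comp_aeval]
  show MvPolynomial.aeval _ (MvPolynomial.aeval _ (Q j)) = _
  rw [h6, h7, MvPolynomial.psum, map_sum]
  refine Finset.sum_congr rfl fun i _ => ?_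
  rw [map_pow, MvPolynomial.aeval_X]

end Pool.Agent.FewEig
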