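import Mathlib

/-! PIECE E2: the action of `σ`. -/

set_option autoImplicit false

open Polynomial

namespace Pool.Agent.FewEig

/-- The ring endomorphism `f(w) ↦ f^σ(w²)` of `k[X]`. -/
noncomputable def sig {k : Type} [Field k] (σ : k →+* k) : k[X] →+* k[X] :=
  (expand k 2 : k[X] →+* k[X]).comp (mapRingHom σ)

private theorem E2_sig_apply {k : Type} [Field k] (σ : k →+* k) (f : k[X]) :
    sig σ f = expand k 2 (f.map σ) := rfl

private theorem E2_neg_coeff {A : Type} [CommRing A] (F : A[X]) (n : ℕ) :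
    (F.comp (-X)).coeff n = F.coeff n * (-1) ^ n := by
  have h1 : (-X : A[X]) = C (-1) * X := by simp
  rw [h1, comp_C_mul_X_coeff]

/-- `F^σ(x², w²) = (-1)^M F(x, w) F(-x, w)`. Proof. All coefficients (of the powers of `x`) of both sides are polynomials in `w` of degree `≤ 2 B < p`, so it is enough to compare at
`w = ζ ^ l.val`, `l : ZMod p` (`p` different points). There `F = ∏ (x - ζ^(a l i))`; the left side is `∏ (x² - ζ^(2 a l i))`, because
`evalRingHom v ∘ sig σ = σ ∘ evalRingHom v` on `k[X]` for `v = ζ ^ l.val` (`σ v = v ^ 2`). -/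
theorem sigma_identity {k : Type} [Field k] {p M B : ℕ} [Fact p.Prime] {ζ : k} (hζ : IsPrimitiveRoot ζ p)
    (σ : k →+* k) (hσ : σ ζ = ζ ^ 2) (hB : 2 * B < p) (F : k[X][X])
    (hFB : ∀ b, (F.coeff b).natDegree ≤ B) (a : ZMod p → Fin M → ZMod p)
    (ha : ∀ l : ZMod p, F.map (evalRingHom (ζ ^ l.val)) = ∏ i, (X - C (ζ ^ (a l i).val))) :
    expand k[X] 2 (F.map (sig σ)) = (-1) ^ M * (F * F.comp (-X)) := by
  have hsig : ∀ l : ZMod p, (evalRingHom (ζ ^ l.val)).comp (sig σ) =
      σ.comp (evalRingHom (ζ ^ l.val)) := by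
    intro l
    apply Polynomial.ringHom_ext
    · intro c
      simp [E2_sig_apply]
    · simp only [RingHom.comp_apply, E2_sig_apply, map_X, expand_X, coe_evalRingHom, eval_pow,
        eval_X, map_pow, hσ]
      ring
  -- the identity at the points
  have hpt : ∀ l : ZMod p, (expand k[X] 2 (F.map (sig σ))).map (evalRingHom (ζ ^ l.val)) =
      ((-1) ^ M * (F * F.comp (-X))).map (evalRingHom (ζ ^ l.val)) := by
    intro l
    have h1 : (expand k[X] 2 (F.map (sig σ))).map (evalRingHom (ζ ^ l.val)) =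
        ∏ i, (X ^ 2 - C ((ζ ^ (a l i).val) ^ 2)) := by
      rw [map_expand, Polynomial.map_map, hsig, ← Polynomial.map_map, ha, Polynomial.map_prod,
        map_prod]
      refine Finset.prod_congr rfl fun i _ => ?_
      rw [Polynomial.map_sub, map_X, map_C, map_sub, expand_X, expand_C, map_pow, hσ]
      congr 2
      ring
    rw [h1, Polynomial.map_mul, Polynomial.map_mul, Polynomial.map_comp, ha, Polynomial.map_pow,
      Polynomial.map_neg, Polynomial.map_one, Polynomial.map_neg, map_X, Polynomial.prod_comp,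
      ← Finset.prod_mul_distrib]
    have h2 : ((-1 : k[X]) ^ M) = ∏ _i : Fin M, (-1 : k[X]) := by
      rw [Finset.prod_const, Finset.card_univ, Fintype.card_fin]
    rw [h2, ← Finset.prod_mul_distrib]
    refine Finset.prod_congr rfl fun i _ => ?_
    rw [sub_comp, X_comp, C_comp, map_pow]
    ring
  -- degrees
  have hdeg1 : ∀ c, ((expand k[X] 2 (F.map (sig σ))).coeff c).natDegree ≤ 2 * B := by
    intro c
    rw [coeff_expand (by norm_num)]
    split_ifs
    · rw [coeff_map, E2_sig_apply, natDegree_expand]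
      have h1 := hFB (c / 2)
      have h2 : ((F.coeff (c / 2)).map σ).natDegree = (F.coeff (c / 2)).natDegree :=
        natDegree_map_eq_of_injective σ.injective _
      rw [h2]
      omega
    · simp
  have hdeg2 : ∀ c, (((-1) ^ M * (F * F.comp (-X)) : k[X][X]).coeff c).natDegree ≤ 2 * B := by
    intro c
    have h1 : (((-1) ^ M * (F * F.comp (-X)) : k[X][X])) =
        C ((-1) ^ M) * (F * F.comp (-X)) := by simp
    rw [h1, coeff_C_mul, coeff_mul, Finset.mul_sum]
    refine natDegree_sum_le_of_forall_le _ _ fun x _ => ?_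
    rw [E2_neg_coeff]
    have h2 : ((-1 : k[X]) ^ M) * (F.coeff x.1 * (F.coeff x.2 * (-1) ^ x.2)) =
        C ((-1 : k) ^ M * (-1) ^ x.2) * (F.coeff x.1 * F.coeff x.2) := by
      simp only [map_mul, map_pow, map_neg, map_one]
      ring
    rw [h2]
    refine (natDegree_C_mul_le _ _).trans (natDegree_mul_le.trans ?_)
    have h3 := hFB x.1
    have h4 := hFB x.2
    omega
  ext1 c
  -- compare at `p` points
  have hinj : Function.Injective fun l : ZMod p => ζ ^ l.val := by
    intro l l' h
    have h1 := hζ.pow_inj (ZMod.val_lt l) (ZMod.val_lt l') h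
    exact ZMod.val_injective p h1
  rw [← sub_eq_zero]
  refine eq_zero_of_natDegree_lt_card_of_eval_eq_zero _ hinj (fun l => ?_) ?_
  · have h1 := congrArg (fun q => Polynomial.coeff q c) (hpt l)
    simp only [coeff_map, coe_evalRingHom] at h1
    rw [eval_sub, h1, sub_self]
  · rw [ZMod.card]
    refine lt_of_le_of_lt (natDegree_sub_le _ _) ?_
    rw [max_lt_iff]
    exact ⟨lt_of_le_of_lt (hdeg1 c) hB, lt_of_le_of_lt (hdeg2 c) hB⟩

end Pool.Agent.FewEig
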