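import Pool.Agent.Lib_MP_e73b0e.E1
import Pool.Agent.Lib_MP_e73b0e.E2

/-! PIECE E3: properties of the power sums. -/

set_option autoImplicit false

open Polynomial

namespace Pool.Agent.FewEig

/-- A monic polynomial over an algebraically closed field is a product of linear factors indexed by `Fin M`. -/
private theorem e3_roots {Ks : Type} [Field Ks] [IsAlgClosed Ks] (f : Ks[X]) (hf : f.Monic) {M : ℕ}
    (hM : f.natDegree = M) : ∃ x : Fin M → Ks, f = ∏ i, (X - C (x i)) := by
  have hs : f.Splits := IsAlgClosed.splits f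
  have hc : f.roots.card = M := by rw [← hM]; exact hs.natDegree_eq_card_roots.symm
  have h1 : f = (f.roots.map (fun a => X - C a)).prod := hs.eq_prod_roots_of_monic hf
  obtain ⟨l, hl⟩ := Quot.exists_rep f.roots
  have hl' : (l : Multiset Ks) = f.roots := hl
  have hlen : l.length = M := by rw [← hc, ← hl']; rfl
  subst hlen
  refine ⟨l.get, ?_⟩
  have h2 : (Finset.univ.val.map l.get : Multiset Ks) = f.roots := by
    rw [Fin.univ_val_map, List.ofFn_get, hl']
  rw [Finset.prod_eq_multiset_prod]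
  conv_lhs => rw [h1]
  rw [← h2, Multiset.map_map]
  rfl

/-- Naturality of the universal power sums. -/
private theorem e3_nat {A L : Type} [CommRing A] [CommRing L] {M : ℕ} (N : ℕ → MvPolynomial (Fin M) ℤ)
    (hN : ∀ (L : Type) [CommRing L] (x : Fin M → L) (j : ℕ),
      MvPolynomial.aeval (fun b : Fin M => (∏ i, (X - C (x i)) : L[X]).coeff b) (N j) = ∑ i, x i ^ j)
    (φ : A →+* L) (F : A[X]) (x : Fin M → L) (hx : F.map φ = ∏ i, (X - C (x i))) (j : ℕ) :
    φ (MvPolynomial.aeval (fun b : Fin M => F.coeff b) (N j)) = ∑ i, x i ^ j := by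
  rw [← hN L x j, MvPolynomial.map_aeval, MvPolynomial.aeval_eq_eval₂Hom]
  have h1 : φ.comp (algebraMap ℤ A) = algebraMap ℤ L := RingHom.ext_int _ _
  rw [h1]
  congr 2
  funext b
  rw [← hx, coeff_map]

/-- Proof. `q j := MvPolynomial.aeval (fun b => F.coeff b) (N j)`, `N` from `exists_ps`. Let `Ks` be an algebraic closure of `FractionRing k[X]`, `ι : k[X] →+* Ks` (injective), `F.map ι = ∏ (X - C (x i))`;
so `ι (q j) = ∑ x i ^ j`. (1) values: `exists_ps` for the ring homomorphism `evalRingHom (ζ ^ l.val)`. (2) `natDegree (q 1) ≤ B`: `q 1 = - F.coeff (M - 1)` (compare in `Ks`; for `M = 0` it is `0`).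
(3) Let `(F.map (sig σ)).map ι = ∏ (X - C (y i))`. By `hid`: `∏ (X² - y i) = ∏ (X - x i)(X + x i) = ∏ (X² - (x i)²)`, `expand 2` is injective, so `∏ (X - C (y i)) = ∏ (X - C (x i ^ 2))`, and
`ι (sig σ (q j)) = ∑ y i ^ j = ∑ x i ^ (2 j) = ι (q (2 j))` by `exists_ps` (three times). (4) `F.map (evalRingHom 1) = (X - 1)^M`, so `(X - 1)^M = F + C (X - 1) * G` for some `G`.
Let `L : k[X][X] →ₗ[k[X]] k[X]`, `L h = ∑ h_b * q b`; `ι (L h) = ∑ i, (h.map ι).eval (x i)`, so `L (F * h) = 0`. The sum in the claim is `L ((X - 1)^m)`, and for `m = M (i+1) + m'`: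
`(X-1)^m = (F + C (X-1) * G)^(i+1) * (X-1)^m'` is `C (X-1)^(i+1) * (...)` modulo `F`. -/
theorem exists_q {k : Type} [Field k] {p M B : ℕ} [Fact p.Prime] {ζ : k} (hζ : IsPrimitiveRoot ζ p)
    (σ : k →+* k) (F : k[X][X]) (hF : F.Monic) (hM : F.natDegree = M)
    (hFB : ∀ b, (F.coeff b).natDegree ≤ B) (a : ZMod p → Fin M → ZMod p)
    (ha : ∀ l : ZMod p, F.map (evalRingHom (ζ ^ l.val)) = ∏ i, (X - C (ζ ^ (a l i).val)))
    (ha0 : ∀ i, a 0 i = 0)
    (hid : expand k[X] 2 (F.map (sig σ)) = (-1) ^ M * (F * F.comp (-X))) :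
    ∃ q : ℕ → k[X], (∀ (l : ZMod p) (j : ℕ), (q j).eval (ζ ^ l.val) = ∑ i, (ζ ^ (a l i).val) ^ j) ∧
      (q 1).natDegree ≤ B ∧ (∀ j, q (2 * j) = sig σ (q j)) ∧
      ∀ i m : ℕ, M * (i + 1) ≤ m →
        (X - 1) ^ (i + 1) ∣ ∑ b ∈ Finset.range (m + 1), (-1 : k[X]) ^ (m - b) * (m.choose b : k[X]) * q b := by
  obtain ⟨N, hN⟩ := exists_ps M
  let Ks : Type := AlgebraicClosure (FractionRing k[X])
  let ι : k[X] →+* Ks := (algebraMap (FractionRing k[X]) Ks).comp (algebraMap k[X] (FractionRing k[X]))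
  have hι : Function.Injective ι :=
    (RingHom.injective (algebraMap (FractionRing k[X]) Ks)).comp (IsFractionRing.injective k[X] (FractionRing k[X]))
  obtain ⟨x, hx⟩ := e3_roots (F.map ι) (hF.map ι) (M := M) (by rw [hF.natDegree_map, hM])
  set q : ℕ → k[X] := fun j => MvPolynomial.aeval (fun b : Fin M => F.coeff b) (N j) with hq
  have hqι : ∀ j, ι (q j) = ∑ i, x i ^ j := fun j => e3_nat N hN ι F x hx j
  refine ⟨q, ?_, ?_, ?_, ?_⟩
  · intro l j
    exact e3_nat N hN (evalRingHom (ζ ^ l.val)) F (fun i => ζ ^ (a l i).val) (ha l) j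
  · rcases Nat.eq_zero_or_pos M with h0 | hpos
    · have h1 : q 1 = 0 := by
        apply hι
        rw [hqι, map_zero]
        subst h0
        simp
      rw [h1]; simp
    · have h1 : q 1 = - F.coeff (M - 1) := by
        apply hι
        rw [hqι, map_neg]
        have h2 := prod_X_sub_C_coeff_card_pred (Finset.univ : Finset (Fin M)) x (by simpa using hpos)
        rw [← hx, coeff_map] at h2
        simp only [Finset.card_univ, Fintype.card_fin] at h2
        rw [h2, neg_neg]; simp
      rw [h1, natDegree_neg]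
      exact hFB _
  · intro j
    have h1 : (F.map (sig σ)).map ι = ∏ i, (X - C (x i ^ 2)) := by
      apply expand_injective (R := Ks) (n := 2) (by norm_num)
      have h2 := congrArg (Polynomial.map ι) hid
      rw [map_expand] at h2
      rw [h2]
      simp only [Polynomial.map_mul, Polynomial.map_pow, Polynomial.map_neg, Polynomial.map_one, map_comp, map_X]
      rw [hx, prod_comp, map_prod]
      have h3 : ((-1 : Ks[X]) ^ M) = ∏ _i : Fin M, (-1 : Ks[X]) := by simp
      rw [h3, ← Finset.prod_mul_distrib, ← Finset.prod_mul_distrib]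
      refine Finset.prod_congr rfl fun i _ => ?_
      simp only [sub_comp, X_comp, C_comp, map_sub, expand_X, expand_C, map_pow]
      ring
    have h4 := e3_nat N hN (ι.comp (sig σ)) F (fun i => x i ^ 2) (by rw [← Polynomial.map_map, h1]) j
    apply hι
    rw [hqι]
    have h5 : ι (sig σ (q j)) = ∑ i, (x i ^ 2) ^ j := h4
    rw [h5]
    exact Finset.sum_congr rfl fun i _ => by rw [pow_mul]
  · intro i m hm
    -- `C (X - 1)` divides `(X - 1) ^ M - F`
    have hF1 : F.map (evalRingHom (1 : k)) = (X - 1) ^ M := by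
      have h := ha 0
      rw [ZMod.val_zero, pow_zero] at h
      rw [h]
      have : ∀ i : Fin M, (X - C (ζ ^ (a 0 i).val) : k[X]) = X - 1 := by
        intro i; rw [ha0 i, ZMod.val_zero, pow_zero, C_1]
      rw [Finset.prod_congr rfl fun i _ => this i]
      simp
    have hdvd : C (X - 1 : k[X]) ∣ (X - 1) ^ M - F := by
      rw [C_dvd_iff_dvd_coeff]
      intro b
      rw [show (X - 1 : k[X]) = X - C 1 by rw [C_1], dvd_iff_isRoot, IsRoot.def]
      have h1 := congrArg (fun f => f.coeff b) hF1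
      simp only [coeff_map, coe_evalRingHom] at h1
      rw [coeff_sub, eval_sub, h1]
      have h2 : (((X - 1 : k[X][X]) ^ M).coeff b).eval 1 = (((X - 1 : k[X][X]) ^ M).map (evalRingHom (1 : k))).coeff b := by
        rw [coeff_map, coe_evalRingHom]
      rw [h2]
      simp
    obtain ⟨G, hG⟩ := hdvd
    obtain ⟨m', rfl⟩ := Nat.exists_eq_add_of_le hm
    set H : k[X][X] := G ^ (i + 1) * (X - 1) ^ m' with hH
    -- values at the roots
    have hval : ∀ h : k[X][X], ∑ t, (h.map ι).eval (x t)
        = ι (∑ b ∈ Finset.range (h.natDegree + 1), h.coeff b * q b) := by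
      intro h
      rw [map_sum]
      have h1 : ∀ t, (h.map ι).eval (x t) = ∑ b ∈ Finset.range (h.natDegree + 1), ι (h.coeff b) * x t ^ b := by
        intro t
        rw [eval_eq_sum_range' (lt_of_le_of_lt natDegree_map_le (Nat.lt_succ_self _))]
        simp [coeff_map]
      rw [Finset.sum_congr rfl fun t _ => h1 t, Finset.sum_comm]
      refine Finset.sum_congr rfl fun b _ => ?_
      rw [map_mul, hqι, Finset.mul_sum]
    refine ⟨∑ b ∈ Finset.range (H.natDegree + 1), H.coeff b * q b, ?_⟩
    apply hι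
    rw [map_mul, ← hval H, Finset.mul_sum, map_sum]
    have h1 : ∀ b ∈ Finset.range (M * (i + 1) + m' + 1),
        ι ((-1 : k[X]) ^ (M * (i + 1) + m' - b) * ((M * (i + 1) + m').choose b : k[X]) * q b)
        = ∑ t, x t ^ b * (-1) ^ (M * (i + 1) + m' - b) * ((M * (i + 1) + m').choose b : Ks) := by
      intro b _
      rw [map_mul, hqι, Finset.mul_sum]
      refine Finset.sum_congr rfl fun t _ => ?_
      simp only [map_mul, map_pow, map_neg, map_one, map_natCast]
      ring
    rw [Finset.sum_congr rfl h1, Finset.sum_comm]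
    refine Finset.sum_congr rfl fun t _ => ?_
    rw [← add_pow]
    have h2 : (F.map ι).eval (x t) = 0 := by
      rw [hx, eval_prod]
      apply Finset.prod_eq_zero (Finset.mem_univ t)
      simp
    have h3 := congrArg (fun f : k[X][X] => (f.map ι).eval (x t)) hG
    simp only [Polynomial.map_sub, Polynomial.map_mul, Polynomial.map_pow, map_X, Polynomial.map_one, map_C,
      eval_sub, eval_mul, eval_pow, eval_X, eval_one, eval_C, h2, sub_zero] at h3
    rw [hH]
    simp only [Polynomial.map_sub, Polynomial.map_mul, Polynomial.map_pow, map_X, Polynomial.map_one,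
      eval_sub, eval_mul, eval_pow, eval_X, eval_one]
    rw [← sub_eq_add_neg, pow_add, pow_mul, h3, mul_pow, map_pow]
    ring

end Pool.Agent.FewEig
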