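import Pool.Agent.Lib_MP_e73b0e.E2

/-! PIECE E4: the moments. -/

set_option autoImplicit false

open Polynomial

namespace Pool.Agent.FewEig

/-- the `i`-th moment -/
private noncomputable def mu {k : Type} [Field k] (i : ℕ) : k[X] →ₗ[k] k :=
  lsum fun u => ((u : k) ^ i) • (LinearMap.id : k →ₗ[k] k)

private theorem mu_monomial {k : Type} [Field k] (i u : ℕ) (c : k) :
    mu i (monomial u c) = (u : k) ^ i * c := by
  show (monomial u c).sum (fun u c => (((u : k) ^ i) • (LinearMap.id : k →ₗ[k] k)) c) = _
  rw [sum_monomial_index]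
  · simp
  · simp

private theorem mu_succ {k : Type} [Field k] (i : ℕ) (f : k[X]) : mu (i + 1) f = mu i (X * derivative f) := by
  induction f using Polynomial.induction_on' with
  | add p q hp hq => rw [map_add, hp, hq, derivative_add, mul_add, map_add]
  | monomial u c =>
    rcases u with _ | u
    · rw [mu_monomial]
      simp
    · rw [mu_monomial, derivative_monomial, X_mul_monomial, mu_monomial]
      push_cast
      ring

private theorem mu_zero {k : Type} [Field k] (f : k[X]) : mu 0 f = f.eval 1 := by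
  induction f using Polynomial.induction_on' with
  | add p q hp hq => rw [map_add, hp, hq, eval_add]
  | monomial u c => rw [mu_monomial]; simp

private theorem mu_dvd {k : Type} [Field k] (i : ℕ) : ∀ f : k[X], (X - 1) ^ (i + 1) ∣ f → mu i f = 0 := by
  induction i with
  | zero =>
    rintro f ⟨g, rfl⟩
    rw [mu_zero]
    simp
  | succ i ih =>
    rintro f ⟨g, rfl⟩
    rw [mu_succ]
    refine ih _ ?_
    rw [derivative_mul, derivative_pow]
    refine Dvd.dvd.mul_left ?_ _
    refine dvd_add ?_ ?_
    · simp only [Nat.add_sub_cancel]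
      refine Dvd.dvd.mul_right ?_ _
      refine Dvd.dvd.mul_right ?_ _
      exact Dvd.intro_left _ rfl
    · refine Dvd.dvd.mul_right ?_ _
      exact pow_dvd_pow _ (by omega)

private theorem mu_sig {k : Type} [Field k] (σ : k →+* k) (i : ℕ) (f : k[X]) :
    mu i (sig σ f) = 2 ^ i * σ (mu i f) := by
  induction f using Polynomial.induction_on' with
  | add p q hp hq => rw [map_add, map_add, map_add, hp, hq, map_add, mul_add]
  | monomial u c =>
    have h : sig σ (monomial u c) = monomial (u * 2) (σ c) := by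
      show expand k 2 ((monomial u c).map σ) = _
      rw [map_monomial, expand_monomial]
    rw [h, mu_monomial, mu_monomial, map_mul, map_pow, map_natCast]
    push_cast
    ring

private theorem mu_expand {k : Type} [Field k] (j i : ℕ) (f : k[X]) :
    mu i (expand k j f) = (j : k) ^ i * mu i f := by
  induction f using Polynomial.induction_on' with
  | add p q hp hq => rw [map_add, map_add, hp, hq, map_add, mul_add]
  | monomial u c =>
    rw [expand_monomial, mu_monomial, mu_monomial]
    push_cast
    ring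

private theorem mu_eq {k : Type} [Field k] (i : ℕ) (f : k[X]) :
    mu i f = ∑ u ∈ f.support, f.coeff u * (u : k) ^ i := by
  show f.sum (fun u c => (((u : k) ^ i) • (LinearMap.id : k →ₗ[k] k)) c) = _
  rw [Polynomial.sum]
  refine Finset.sum_congr rfl fun u _ => ?_
  simp [mul_comm]

private theorem eq_zero_of_mu {k : Type} [Field k] [CharZero k] (f : k[X]) (h : ∀ i, mu i f = 0) : f = 0 := by
  have h1 : ∀ g : k[X], ∑ u ∈ f.support, f.coeff u * g.eval (u : k) = 0 := by
    intro g
    induction g using Polynomial.induction_on' with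
    | add p q hp hq =>
      have : ∀ u ∈ f.support, f.coeff u * (p + q).eval (u : k) =
          f.coeff u * p.eval (u : k) + f.coeff u * q.eval (u : k) := fun u _ => by
        rw [eval_add, mul_add]
      rw [Finset.sum_congr rfl this, Finset.sum_add_distrib, hp, hq, add_zero]
    | monomial i c =>
      have : ∀ u ∈ f.support, f.coeff u * (monomial i c).eval (u : k) = c * (f.coeff u * (u : k) ^ i) :=
        fun u _ => by
          rw [eval_monomial]
          ring
      rw [Finset.sum_congr rfl this, ← Finset.mul_sum, ← mu_eq, h i, mul_zero]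
  by_contra hf
  obtain ⟨u₀, hu₀⟩ := Polynomial.nonempty_support_iff.2 hf
  have h2 := h1 (∏ u ∈ f.support.erase u₀, (X - C (u : k)))
  rw [Finset.sum_eq_single u₀] at h2
  · rcases mul_eq_zero.1 h2 with h3 | h3
    · exact (mem_support_iff.1 hu₀) h3
    · rw [eval_prod, Finset.prod_eq_zero_iff] at h3
      obtain ⟨u, hu, hu'⟩ := h3
      rw [eval_sub, eval_X, eval_C, sub_eq_zero] at hu'
      exact (Finset.mem_erase.1 hu).1 (Nat.cast_injective hu'.symm)
  · intro u hu hne
    rw [eval_prod, Finset.prod_eq_zero (Finset.mem_erase.2 ⟨hne, hu⟩), mul_zero]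
    simp
  · intro h3
    exact absurd hu₀ h3

/-- the polynomial in `j` -/
private theorem exists_poly {k : Type} [Field k] [CharZero k] (N : ℕ) (c : ℕ → k) :
    ∃ P : k[X], ∀ j : ℕ, P.eval (j : k) = ∑ m ∈ Finset.range N, (j.choose m : k) * c m := by
  refine ⟨∑ m ∈ Finset.range N, C (c m / (m.factorial : k)) * descPochhammer k m, fun j => ?_⟩
  rw [eval_finsetSum]
  refine Finset.sum_congr rfl fun m _ => ?_
  rw [eval_mul, eval_C, descPochhammer_eval_eq_descFactorial, Nat.descFactorial_eq_factorial_mul_choose]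
  have : (m.factorial : k) ≠ 0 := Nat.cast_ne_zero.2 (Nat.factorial_ne_zero m)
  push_cast
  field_simp

/-- Proof. `μ i f := ∑ u, f.coeff u * u^i` (`f.sum`), a `k`-linear functional; `μ i f = (D^i f)(1)`, `D f = X * derivative f`, so it vanishes if `(X - 1)^(i+1) ∣ f` (induction on `i`:
`D ((X-1)^(i+1) g) ∈ ((X-1)^i)`). Newton's forward difference formula: `q j = ∑ m ≤ j, (j.choose m) * d m`, `d m` the sum in `hd`. So `μ i (q j) = ∑ m < M (i+1), (j.choose m) * μ i (d m)` for all `j`, which is the value at `j` of a polynomial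
`P i ∈ k[X]` (`descPochhammer`). By `h2` `μ i (q (2 j)) = 2^i σ (μ i (q j))`, hence `μ i (q (2^t j)) = 2^(i t) μ i (q j)` if `n₀ ∣ t`. For `j ≥ 1` the polynomial
`P i (j Y) - Y^i P i (j)` in `Y` vanishes at `Y = 2^(n₀ s)` for all `s`, so it is `0`; at `Y = 1/j`: `P i (1) = j^(-i) P i (j)`. Hence `μ i (q j) = j^i μ i (q 1) = μ i (expand k j (q 1))` for all
`i`, and a polynomial `f` with `μ i f = 0` for all `i` is `0` (`∑ u, f.coeff u * g(u) = 0` for every polynomial `g`; take `g = ∏ (X - u')` over the other elements `u'` of the support). -/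
theorem q_expand {k : Type} [Field k] [CharZero k] (σ : k →+* k) (n₀ : ℕ) (hn₀ : 0 < n₀) (hσ : ∀ x, σ^[n₀] x = x)
    (M : ℕ) (q : ℕ → k[X]) (h2 : ∀ j, q (2 * j) = sig σ (q j))
    (hd : ∀ i m : ℕ, M * (i + 1) ≤ m →
      (X - 1) ^ (i + 1) ∣ ∑ b ∈ Finset.range (m + 1), (-1 : k[X]) ^ (m - b) * (m.choose b : k[X]) * q b)
    (j : ℕ) (hj : 0 < j) : q j = expand k j (q 1) := by
  -- the differences
  set d : ℕ → k[X] := fun m => ∑ b ∈ Finset.range (m + 1), (-1 : k[X]) ^ (m - b) * (m.choose b : k[X]) * q b with hd'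
  have hnewton : ∀ j, q j = ∑ m ∈ Finset.range (j + 1), (j.choose m : k[X]) * d m := by
    intro j
    have h3 := shift_eq_sum_fwdDiff_iter 1 q j 0
    rw [zero_add, smul_eq_mul, mul_one] at h3
    rw [h3]
    refine Finset.sum_congr rfl fun m _ => ?_
    rw [fwdDiff_iter_eq_sum_shift, nsmul_eq_mul]
    congr 1
    refine Finset.sum_congr rfl fun b _ => ?_
    rw [zero_add, smul_eq_mul, mul_one, zsmul_eq_mul]
    push_cast
    ring
  have hmuq : ∀ i j : ℕ, mu i (q j) = ∑ m ∈ Finset.range (M * (i + 1)), (j.choose m : k) * mu i (d m) := by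
    intro i j
    have h3 : mu i (q j) = ∑ m ∈ Finset.range (j + 1), (j.choose m : k) * mu i (d m) := by
      rw [hnewton j, map_sum]
      refine Finset.sum_congr rfl fun m _ => ?_
      have : (j.choose m : k[X]) * d m = (j.choose m : k) • d m := by
        rw [smul_eq_C_mul, map_natCast]
      rw [this, map_smul, smul_eq_mul]
    rw [h3]
    have h4 : ∀ m, m ∉ Finset.range (j + 1) ∨ m ∉ Finset.range (M * (i + 1)) → (j.choose m : k) * mu i (d m) = 0 := by
      rintro m (hm | hm)
      · rw [Finset.mem_range, not_lt] at hm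
        rw [Nat.choose_eq_zero_of_lt (by omega), Nat.cast_zero, zero_mul]
      · rw [Finset.mem_range, not_lt] at hm
        rw [mu_dvd i _ (hd i m hm), mul_zero]
    have h5 : ∀ s t : Finset ℕ, (∀ m, m ∉ s ∨ m ∉ t → (j.choose m : k) * mu i (d m) = 0) →
        ∑ m ∈ s, (j.choose m : k) * mu i (d m) = ∑ m ∈ s ∩ t, (j.choose m : k) * mu i (d m) := by
      intro s t hst
      symm
      refine Finset.sum_subset Finset.inter_subset_left fun m _ hm => hst m ?_
      by_contra hc
      push Not at hc
      exact hm (Finset.mem_inter.2 hc)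
    rw [h5 _ _ h4, Finset.inter_comm, ← h5 _ _ fun m hm => h4 m hm.symm]
  -- iteration of `h2`
  have hiter : ∀ (i t j : ℕ), mu i (q (2 ^ t * j)) = 2 ^ (i * t) * σ^[t] (mu i (q j)) := by
    intro i t
    induction t with
    | zero => intro j; simp
    | succ t ih =>
      intro j
      rw [pow_succ', mul_assoc, h2, mu_sig, ih, map_mul, map_pow, Function.iterate_succ_apply']
      rw [map_ofNat]
      ring
  have hiter' : ∀ (i s j : ℕ), mu i (q (2 ^ (n₀ * s) * j)) = (2 ^ (n₀ * s)) ^ i * mu i (q j) := by
    intro i s j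
    rw [hiter, ← pow_mul, mul_comm i]
    congr 1
    rw [Function.iterate_mul]
    have h3 : σ^[n₀] = id := funext hσ
    rw [h3, Function.iterate_id]
    rfl
  have hj' : (j : k) ≠ 0 := Nat.cast_ne_zero.2 hj.ne'
  have key : ∀ i, mu i (q j) = (j : k) ^ i * mu i (q 1) := by
    intro i
    obtain ⟨P, hP⟩ := exists_poly (M * (i + 1)) fun m => mu i (d m)
    have hP' : ∀ j : ℕ, P.eval (j : k) = mu i (q j) := fun j => by rw [hP, ← hmuq]
    set G : k[X] := P.comp (C (j : k) * X) - X ^ i * C (P.eval (j : k)) with hG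
    have hG0 : G = 0 := by
      refine eq_zero_of_infinite_isRoot G ?_
      have hinj : Function.Injective fun s : ℕ => (2 : k) ^ (n₀ * s) := by
        intro s t hst
        have h3 : ((2 ^ (n₀ * s) : ℕ) : k) = ((2 ^ (n₀ * t) : ℕ) : k) := by push_cast; exact hst
        have h4 := Nat.pow_right_injective le_rfl (Nat.cast_injective h3)
        exact Nat.eq_of_mul_eq_mul_left hn₀ h4
      refine (Set.infinite_range_of_injective hinj).mono ?_
      rintro _ ⟨s, rfl⟩
      show G.eval _ = 0
      have h3 : (C (j : k) * X : k[X]).eval ((2 : k) ^ (n₀ * s)) = ((2 ^ (n₀ * s) * j : ℕ) : k) := by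
        rw [eval_mul, eval_C, eval_X]
        push_cast
        ring
      rw [hG, eval_sub, eval_comp, h3, hP', hiter', eval_mul, eval_C, hP', eval_pow, eval_X, sub_self]
    have h3 : G.eval ((j : k)⁻¹) = 0 := by rw [hG0, eval_zero]
    rw [hG, eval_sub, eval_comp, eval_mul, eval_C, eval_X, mul_inv_cancel₀ hj', eval_mul, eval_C, eval_pow, eval_X,
      hP' j] at h3
    have h4 := hP' 1
    rw [Nat.cast_one] at h4
    rw [h4, sub_eq_zero] at h3
    rw [h3, ← mul_assoc, ← mul_pow, mul_inv_cancel₀ hj', one_pow, one_mul]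
  have hfin : q j - expand k j (q 1) = 0 := by
    refine eq_zero_of_mu _ fun i => ?_
    rw [map_sub, key i, mu_expand, sub_self]
  exact sub_eq_zero.1 hfin

end Pool.Agent.FewEig
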