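import Pool.Agent.Lib_MP_e73b0e.E3
import Pool.Agent.Lib_MP_e73b0e.E4

/-! PIECE E5: the core. -/

set_option autoImplicit false

open Polynomial

namespace Pool.Agent.FewEig

/-- The geometric sum. -/
private theorem e5_geom {k : Type} [Field k] {p : ℕ} [Fact p.Prime] {ζ : k} (hζ : IsPrimitiveRoot ζ p) (n : ℕ) :
    ∑ j ∈ Finset.range p, (ζ ^ n) ^ j = if (n : ZMod p) = 0 then (p : k) else 0 := by
  split_ifs with h
  · have h1 : ζ ^ n = 1 := (hζ.pow_eq_one_iff_dvd n).2 ((ZMod.natCast_eq_zero_iff n p).1 h)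
    simp [h1]
  · have h1 : ζ ^ n ≠ 1 := fun h2 => h ((ZMod.natCast_eq_zero_iff n p).2 ((hζ.pow_eq_one_iff_dvd n).1 h2))
    have h2 := mul_geom_sum (ζ ^ n) p
    rw [← pow_mul, mul_comm n p, pow_mul, hζ.pow_eq_one, one_pow, sub_self] at h2
    exact (mul_eq_zero.1 h2).resolve_left (sub_ne_zero.2 h1)

/-- Orthogonality. Proof. For `b : ZMod p`, `∑ j ∈ range p` of `ζ^(-(j b)).val` times both sides (at `j = 0` replace `j` by `p`: `h` holds for `j = p`, and `(ζ^e)^p = (ζ^e)^0`): the number of `i` with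
`a i = b` times `p` is `p` times the sum of the `c.coeff u` over `u ≤ B` with `l * u = b`; `u ↦ l * u` is injective on `u ≤ B < p`. So `b` is a value of `a` iff `b = l * u` with `c.coeff u ≠ 0`. -/
theorem range_of_sums {k : Type} [Field k] [CharZero k] {p M B : ℕ} [Fact p.Prime] {ζ : k} (hζ : IsPrimitiveRoot ζ p)
    (hB : B < p) (c : k[X]) (hc : c.natDegree ≤ B) (l : ZMod p) (hl : l ≠ 0) (a : Fin M → ZMod p)
    (h : ∀ j : ℕ, 0 < j → ∑ i, (ζ ^ (a i).val) ^ j = c.eval ((ζ ^ l.val) ^ j)) :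
    Set.range a = (fun u : ℕ => l * (u : ZMod p)) '' (c.support : Set ℕ) := by
  have hp0 : (p : k) ≠ 0 := Nat.cast_ne_zero.2 (Fact.out : p.Prime).ne_zero
  -- the relation also holds at `j = 0`
  have h' : ∀ j : ℕ, ∑ i, (ζ ^ (a i).val) ^ j = c.eval ((ζ ^ l.val) ^ j) := by
    intro j
    rcases Nat.eq_zero_or_pos j with rfl | hj
    · have h1 := h p (Fact.out : p.Prime).pos
      have h2 : ∀ n : ℕ, (ζ ^ n) ^ p = 1 := fun n => by
        rw [← pow_mul, mul_comm, pow_mul, hζ.pow_eq_one, one_pow]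
      simp only [h2] at h1
      simpa using h1
    · exact h j hj
  -- the key identity
  have key : ∀ b : ZMod p, ((Finset.univ.filter fun i => a i = b).card : k)
      = ∑ u ∈ c.support.filter (fun u : ℕ => l * (u : ZMod p) = b), c.coeff u := by
    intro b
    have h1 : ∑ j ∈ Finset.range p, (ζ ^ (-b).val) ^ j * ∑ i, (ζ ^ (a i).val) ^ j
        = ∑ j ∈ Finset.range p, (ζ ^ (-b).val) ^ j * c.eval ((ζ ^ l.val) ^ j) :=
      Finset.sum_congr rfl fun j _ => by rw [h' j]
    have h2 : ∑ j ∈ Finset.range p, (ζ ^ (-b).val) ^ j * ∑ i, (ζ ^ (a i).val) ^ j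
        = (p : k) * ((Finset.univ.filter fun i => a i = b).card : k) := by
      simp only [Finset.mul_sum]
      rw [Finset.sum_comm]
      have h3 : ∀ i : Fin M, ∑ j ∈ Finset.range p, (ζ ^ (-b).val) ^ j * (ζ ^ (a i).val) ^ j
          = if a i = b then (p : k) else 0 := by
        intro i
        have h4 : ∀ j ∈ Finset.range p, (ζ ^ (-b).val) ^ j * (ζ ^ (a i).val) ^ j
            = (ζ ^ ((-b).val + (a i).val)) ^ j := by
          intro j _; rw [← mul_pow, ← pow_add]
        rw [Finset.sum_congr rfl h4, e5_geom hζ]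
        have h5 : (((-b).val + (a i).val : ℕ) : ZMod p) = 0 ↔ a i = b := by
          push_cast
          rw [ZMod.natCast_zmod_val, ZMod.natCast_zmod_val]
          constructor
          · intro h6; linear_combination h6
          · intro h6; rw [h6]; ring
        simp only [h5]
      rw [Finset.sum_congr rfl fun i _ => h3 i, ← Finset.sum_filter]
      simp [mul_comm]
    have h3 : ∑ j ∈ Finset.range p, (ζ ^ (-b).val) ^ j * c.eval ((ζ ^ l.val) ^ j)
        = (p : k) * ∑ u ∈ c.support.filter (fun u : ℕ => l * (u : ZMod p) = b), c.coeff u := by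
      have h4 : ∀ j ∈ Finset.range p, (ζ ^ (-b).val) ^ j * c.eval ((ζ ^ l.val) ^ j)
          = ∑ u ∈ c.support, c.coeff u * (ζ ^ ((-b).val + l.val * u)) ^ j := by
        intro j _
        rw [eval_eq_sum, sum_def, Finset.mul_sum]
        refine Finset.sum_congr rfl fun u _ => ?_
        rw [pow_add, mul_pow, pow_mul, ← pow_mul (ζ ^ l.val) j u, ← pow_mul (ζ ^ l.val) u j, mul_comm j u]
        ring
      rw [Finset.sum_congr rfl h4, Finset.sum_comm, Finset.mul_sum, Finset.sum_filter]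
      refine Finset.sum_congr rfl fun u _ => ?_
      rw [← Finset.mul_sum, e5_geom hζ]
      have h5 : (((-b).val + l.val * u : ℕ) : ZMod p) = 0 ↔ l * (u : ZMod p) = b := by
        push_cast
        rw [ZMod.natCast_zmod_val, ZMod.natCast_zmod_val]
        constructor
        · intro h6; linear_combination h6
        · intro h6; rw [h6]; ring
      simp only [h5]
      split_ifs <;> ring
    rw [h2, h3] at h1
    exact mul_left_cancel₀ hp0 h1
  -- distinct exponents give distinct values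
  have hinj : ∀ u ∈ c.support, ∀ v ∈ c.support, l * (u : ZMod p) = l * (v : ZMod p) → u = v := by
    intro u hu v hv huv
    have h1 : (u : ZMod p) = (v : ZMod p) := mul_left_cancel₀ hl huv
    have hu' : u < p := lt_of_le_of_lt ((le_natDegree_of_mem_supp u hu).trans hc) hB
    have hv' : v < p := lt_of_le_of_lt ((le_natDegree_of_mem_supp v hv).trans hc) hB
    have h2 := (ZMod.natCast_eq_natCast_iff' u v p).1 h1
    rwa [Nat.mod_eq_of_lt hu', Nat.mod_eq_of_lt hv'] at h2
  ext b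
  constructor
  · rintro ⟨i, rfl⟩
    have h1 := key (a i)
    have h2 : ((Finset.univ.filter fun i' => a i' = a i).card : k) ≠ 0 := by
      rw [Nat.cast_ne_zero, Finset.card_ne_zero]
      exact ⟨i, by simp⟩
    rw [h1] at h2
    obtain ⟨u, hu, _⟩ := Finset.exists_ne_zero_of_sum_ne_zero h2
    rw [Finset.mem_filter] at hu
    exact ⟨u, hu.1, hu.2⟩
  · rintro ⟨u, hu, hub⟩
    have hu' : u ∈ c.support := hu
    have hub' : l * (u : ZMod p) = b := hub
    have h1 := key b
    have h2 : c.support.filter (fun u : ℕ => l * (u : ZMod p) = b) = {u} := by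
      ext v
      rw [Finset.mem_filter, Finset.mem_singleton]
      constructor
      · rintro ⟨hv, hvb⟩
        exact hinj v hv u hu' (by rw [hvb, hub'])
      · rintro rfl; exact ⟨hu', hub'⟩
    rw [h2, Finset.sum_singleton] at h1
    have h3 : ((Finset.univ.filter fun i => a i = b).card : k) ≠ 0 := by
      rw [h1]; exact mem_support_iff.1 hu'
    rw [Nat.cast_ne_zero, Finset.card_ne_zero] at h3
    obtain ⟨i, hi⟩ := h3
    exact ⟨i, (Finset.mem_filter.1 hi).2⟩

/-- The core. Proof. `sigma_identity`, `exists_q`, `q_expand`, `range_of_sums` with `c = q 1`, `U = (q 1).support`. -/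
theorem core {k : Type} [Field k] [CharZero k] {p M B : ℕ} [Fact p.Prime] {ζ : k} (hζ : IsPrimitiveRoot ζ p)
    (σ : k →+* k) (hσ : σ ζ = ζ ^ 2) (n₀ : ℕ) (hn₀ : 0 < n₀) (hσn : ∀ x, σ^[n₀] x = x) (hB : 2 * B < p)
    (F : k[X][X]) (hF : F.Monic) (hM : F.natDegree = M)
    (hFB : ∀ b, (F.coeff b).natDegree ≤ B) (a : ZMod p → Fin M → ZMod p)
    (ha : ∀ l : ZMod p, F.map (evalRingHom (ζ ^ l.val)) = ∏ i, (X - C (ζ ^ (a l i).val)))
    (ha0 : ∀ i, a 0 i = 0) :
    ∃ U : Finset ℕ, (∀ u ∈ U, u ≤ B) ∧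
      ∀ l : ZMod p, l ≠ 0 → Set.range (a l) = (fun u : ℕ => l * (u : ZMod p)) '' (U : Set ℕ) := by
  have hid := sigma_identity hζ σ hσ hB F hFB a ha
  obtain ⟨q, hq1, hq2, hq3, hq4⟩ := exists_q hζ σ F hF hM hFB a ha ha0 hid
  have hq := q_expand σ n₀ hn₀ hσn M q hq3 hq4
  refine ⟨(q 1).support, fun u hu => (le_natDegree_of_mem_supp u hu).trans hq2, fun l hl => ?_⟩
  refine range_of_sums hζ (by omega) (q 1) hq2 l hl (a l) fun j hj => ?_
  rw [← hq1 l j, hq j hj, expand_eval]

/-- The cyclotomic field. Proof. `k := CyclotomicField p ℚ`, `ζ := zeta`; the automorphism `σ` with `σ ζ = ζ ^ 2` from `IsCyclotomicExtension.autEquivPow` (the unit `2` of `ZMod p`,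
`p ≠ 2`) or `IsPrimitiveRoot.autToPow`; finite Galois group, so `n₀ := Fintype.card` / `orderOf σ`. -/
theorem exists_cyclotomic (p : ℕ) [Fact p.Prime] (hp : p ≠ 2) :
    ∃ (k : Type) (_ : Field k) (_ : CharZero k) (ζ : k) (σ : k →+* k) (n₀ : ℕ),
      IsPrimitiveRoot ζ p ∧ σ ζ = ζ ^ 2 ∧ 0 < n₀ ∧ ∀ x, σ^[n₀] x = x := by
  have : NeZero p := ⟨(Fact.out : p.Prime).ne_zero⟩
  have : NeZero ((p : ℕ) : ℚ) := ⟨Nat.cast_ne_zero.2 (Fact.out : p.Prime).ne_zero⟩
  have hcyc : IsCyclotomicExtension {p} ℚ (CyclotomicField p ℚ) := CyclotomicField.isCyclotomicExtension p ℚ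
  have hz := IsCyclotomicExtension.zeta_spec p ℚ (CyclotomicField p ℚ)
  have hcop : Nat.Coprime 2 p := (Nat.coprime_primes Nat.prime_two Fact.out).2 hp.symm
  have hz2 : IsPrimitiveRoot (IsCyclotomicExtension.zeta p ℚ (CyclotomicField p ℚ) ^ 2) p :=
    hz.pow_of_coprime 2 hcop
  have hirr : Irreducible (cyclotomic p ℚ) := cyclotomic.irreducible_rat (Fact.out : p.Prime).pos
  let f : CyclotomicField p ℚ ≃ₐ[ℚ] CyclotomicField p ℚ := IsCyclotomicExtension.fromZetaAut hz2 hirr
  have hf : f (IsCyclotomicExtension.zeta p ℚ (CyclotomicField p ℚ))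
      = IsCyclotomicExtension.zeta p ℚ (CyclotomicField p ℚ) ^ 2 := IsCyclotomicExtension.fromZetaAut_spec hz2 hirr
  have : FiniteDimensional ℚ (CyclotomicField p ℚ) := IsCyclotomicExtension.finiteDimensional {p} ℚ (CyclotomicField p ℚ)
  have : Finite (CyclotomicField p ℚ ≃ₐ[ℚ] CyclotomicField p ℚ) := inferInstance
  refine ⟨CyclotomicField p ℚ, inferInstance, inferInstance, IsCyclotomicExtension.zeta p ℚ (CyclotomicField p ℚ),
    (f : CyclotomicField p ℚ →+* CyclotomicField p ℚ), orderOf f, hz, hf, orderOf_pos f, ?_⟩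
  have hiter : ∀ (n : ℕ) (x : CyclotomicField p ℚ),
      (f : CyclotomicField p ℚ →+* CyclotomicField p ℚ)^[n] x = (f ^ n) x := by
    intro n
    induction n with
    | zero => intro x; simp
    | succ n ih =>
      intro x
      rw [Function.iterate_succ_apply', ih, pow_succ', AlgEquiv.mul_apply]
      rfl
  intro x
  rw [hiter, pow_orderOf_eq_one, AlgEquiv.one_apply]

end Pool.Agent.FewEig
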