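import Mathlib

/-! PIECE G1: Dirichlet's theorem. -/

set_option autoImplicit false

namespace Pool.Agent.FewEig

/-- Two natural numbers whose products with `Q` have the same quotient by `p` differ by at most
`(p - 1) / Q`. -/
private lemma near_of_div_eq {p Q A B : ℕ} (hp : 0 < p) (hQ : 0 < Q)
    (h : Q * A / p = Q * B / p) : A ≤ B + (p - 1) / Q := by
  by_contra hlt
  push Not at hlt
  have h1 : Q * A < (Q * A / p + 1) * p := by
    have := Nat.lt_succ_self (Q * A / p)
    exact (Nat.div_lt_iff_lt_mul hp).mp this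
  have h2 : (Q * A / p) * p ≤ Q * B := by
    rw [h]; exact Nat.div_mul_le_self _ _
  have h3 : Q * A < Q * B + p := by
    calc Q * A < (Q * A / p + 1) * p := h1
      _ = (Q * A / p) * p + p := by ring
      _ ≤ Q * B + p := by omega
  have h4 : B + (p - 1) / Q + 1 ≤ A := hlt
  have h5 : Q * (B + (p - 1) / Q + 1) ≤ Q * A := Nat.mul_le_mul_left Q h4
  have h6 : p - 1 < ((p - 1) / Q + 1) * Q := by
    exact (Nat.div_lt_iff_lt_mul hQ).mp (Nat.lt_succ_self _)
  have h7 : Q * (B + (p - 1) / Q + 1) = Q * B + ((p - 1) / Q + 1) * Q := by ring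
  omega

/-- Proof. `D := (p - 1) / Q`. If `S` is empty or `p ≤ Q`-type trivial cases: see below. Choose `s₀ ∈ S` (if `S = ∅` take `r = 1`, anything). For `t ∈ ZMod p` let `v t : (S.erase s₀) → Fin Q`,
`v t s := ⌊Q * (t * (s - s₀)).val / p⌋` (natural number division, `< Q`). `Q^(m-1) < p`, so there are `t ≠ t'` with `v t = v t'` (pigeonhole; `Q ^ (S.erase s₀).card ≤ Q ^ (m-1)`). `r := t - t' ≠ 0`. For `s` in `S.erase s₀` the natural numbers
`A = (t (s - s₀)).val`, `A' = (t' (s - s₀)).val` satisfy `|Q A - Q A'| < p`, so `|A - A'| ≤ D` (as `Q |A - A'| ≤ p - 1`), and `r * (s - s₀) = A - A'` in `ZMod p`. Let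
`r₀ := r * s₀ - D`, `h s := (A - A' + D).toNat ≤ 2 D`, `h s₀ := D`. `D * Q ≤ p - 1 < p`. -/
theorem dirichlet {p : ℕ} [Fact p.Prime] (m Q : ℕ) (hm : 0 < m) (hQ : 0 < Q) (hp : Q ^ (m - 1) < p)
    (S : Finset (ZMod p)) (hS : S.card ≤ m) :
    ∃ (D : ℕ) (r r₀ : ZMod p) (h : ZMod p → ℕ), D * Q < p ∧ r ≠ 0 ∧
      ∀ s ∈ S, h s ≤ 2 * D ∧ r * s = r₀ + (h s : ZMod p) := by
  classical
  have hp0 : 0 < p := (Fact.out : p.Prime).pos
  rcases S.eq_empty_or_nonempty with hE | ⟨s₀, hs₀⟩
  · refine ⟨0, 1, 0, fun _ => 0, by simpa using hp0, one_ne_zero, ?_⟩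
    intro s hs
    rw [hE] at hs
    exact absurd hs (Finset.notMem_empty s)
  · have hlt : ∀ x : ZMod p, Q * x.val / p < Q := by
      intro x
      rw [Nat.div_lt_iff_lt_mul hp0]
      exact Nat.mul_lt_mul_of_pos_left (ZMod.val_lt x) hQ
    let v : ZMod p → ({x // x ∈ S.erase s₀} → Fin Q) := fun t s =>
      ⟨Q * (t * ((s : ZMod p) - s₀)).val / p, hlt _⟩
    have hcard : Fintype.card ({x // x ∈ S.erase s₀} → Fin Q) < Fintype.card (ZMod p) := by
      rw [Fintype.card_fun, Fintype.card_fin, Fintype.card_coe, ZMod.card,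
        Finset.card_erase_of_mem hs₀]
      exact lt_of_le_of_lt (Nat.pow_le_pow_right hQ (Nat.sub_le_sub_right hS 1)) hp
    obtain ⟨t, t', hne, hv⟩ := Fintype.exists_ne_map_eq_of_card_lt v hcard
    refine ⟨(p - 1) / Q, t - t', (t - t') * s₀ - (((p - 1) / Q : ℕ) : ZMod p),
      fun s => if s = s₀ then (p - 1) / Q else
        (t * (s - s₀)).val + (p - 1) / Q - (t' * (s - s₀)).val, ?_, sub_ne_zero.mpr hne, ?_⟩
    · have := Nat.div_mul_le_self (p - 1) Q
      omega
    · intro s hs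
      by_cases hss : s = s₀
      · subst hss
        simp only [if_true]
        refine ⟨by omega, by ring⟩
      · have hmem : s ∈ S.erase s₀ := Finset.mem_erase.mpr ⟨hss, hs⟩
        have hval : Q * (t * (s - s₀)).val / p = Q * (t' * (s - s₀)).val / p := by
          have := congrFun hv ⟨s, hmem⟩
          exact congrArg Fin.val this
        have hA := near_of_div_eq hp0 hQ hval
        have hB := near_of_div_eq hp0 hQ hval.symm
        simp only [if_neg hss]
        refine ⟨by omega, ?_⟩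
        rw [Nat.cast_sub hB, Nat.cast_add, ZMod.natCast_zmod_val, ZMod.natCast_zmod_val]
        ring

end Pool.Agent.FewEig
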