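import Pool.Agent.Lib_MP_e73b0e.A1

/-! PIECE G2: the torus through an element of order `p`. -/

set_option autoImplicit false

open Polynomial

namespace Pool.Agent.FewEig

private theorem G2_inj {K : Type} [Field K] {p : ℕ} [Fact p.Prime] {ζ : K}
    (hζ : IsPrimitiveRoot ζ p) : Function.Injective (fun e : ZMod p => ζ ^ e.val) := by
  intro e f hef
  exact ZMod.val_injective p (hζ.pow_inj (ZMod.val_lt e) (ZMod.val_lt f) hef)

private theorem G2_prod {K : Type} [Field K] {p : ℕ} [Fact p.Prime] {ζ : K}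
    (hζ : IsPrimitiveRoot ζ p) :
    (X ^ p - 1 : K[X]) = ∏ e : ZMod p, (X - C (ζ ^ e.val)) := by
  classical
  have hp : 0 < p := (Fact.out : p.Prime).pos
  have h1 := X_pow_sub_one_eq_prod hp hζ
  rw [h1]
  have h2 : nthRootsFinset p (1 : K) = Finset.univ.image (fun e : ZMod p => ζ ^ e.val) := by
    ext a
    rw [mem_nthRootsFinset hp]
    constructor
    · intro ha
      obtain ⟨i, hi, hia⟩ := hζ.eq_pow_of_pow_eq_one ha
      refine Finset.mem_image.mpr ⟨(i : ZMod p), Finset.mem_univ _, ?_⟩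
      simp only [ZMod.val_natCast_of_lt hi]
      exact hia
    · intro ha
      obtain ⟨e, _, rfl⟩ := Finset.mem_image.mp ha
      rw [← pow_mul, mul_comm, pow_mul, hζ.pow_eq_one, one_pow]
  rw [h2, Finset.prod_image]
  intro e _ f _ hef
  exact G2_inj hζ hef

private theorem G2_cop {K : Type} [Field K] {p : ℕ} [Fact p.Prime] {ζ : K}
    (hζ : IsPrimitiveRoot ζ p) (S : Finset (ZMod p)) :
    (S : Set (ZMod p)).Pairwise (Function.onFun IsCoprime
      (fun e : ZMod p => (X - C (ζ ^ e.val) : K[X]))) := by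
  intro e _ f _ hef
  exact pairwise_coprime_X_sub_C (G2_inj hζ) hef

private theorem G2_dvd {K : Type} [Field K] {p : ℕ} [Fact p.Prime] {ζ : K}
    (hζ : IsPrimitiveRoot ζ p) (S : Finset (ZMod p)) (q : K[X])
    (h : ∀ e ∈ S, q.eval (ζ ^ e.val) = 0) : ∏ e ∈ S, (X - C (ζ ^ e.val)) ∣ q := by
  refine Finset.prod_dvd_of_coprime (G2_cop hζ S) ?_
  intro e he
  exact dvd_iff_isRoot.mpr (h e he)

/-- Spectral decomposition. Proof. `minpoly K x ∣ X^p - 1 = ∏ (X - C (ζ^e))` (`X_pow_sub_one_eq_prod`), so `minpoly K x = ∏ e ∈ S, (X - C (ζ^e.val))`, `S` the finset of `Ex ζ x`; Lagrange idempotents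
`E e := aeval x (Lagrange.basis S (fun e => ζ ^ e.val) e)`, `0` for `e ∉ S`; the identities hold modulo `∏ (X - C (ζ^e.val))` because they hold at all its roots (degrees). -/
theorem spectral {K R : Type} [Field K] [Ring R] [Nontrivial R] [Algebra K R] {p : ℕ} [Fact p.Prime] {ζ : K}
    (hζ : IsPrimitiveRoot ζ p) (x : R) (hx : x ^ p = 1) :
    ∃ (S : Finset (ZMod p)) (E : ZMod p → R), (∀ e, e ∈ S ↔ e ∈ Ex ζ x) ∧
      (minpoly K x).natDegree = S.card ∧ ∑ e ∈ S, E e = 1 ∧ (∀ e ∈ S, E e * E e = E e) ∧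
      (∀ e ∈ S, ∀ f ∈ S, e ≠ f → E e * E f = 0) ∧ ∑ e ∈ S, ζ ^ e.val • E e = x := by
  classical
  have hp : p ≠ 0 := (Fact.out : p.Prime).ne_zero
  have hint : IsIntegral K x := by
    refine ⟨X ^ p - 1, monic_X_pow_sub_C 1 hp, ?_⟩
    simp [hx]
  set S : Finset (ZMod p) := Finset.univ.filter (fun e => e ∈ Ex ζ x) with hS
  have hmem : ∀ e, e ∈ S ↔ e ∈ Ex ζ x := fun e => by simp [hS]
  have hdvd : minpoly K x ∣ ∏ e : ZMod p, (X - C (ζ ^ e.val)) := by
    rw [← G2_prod hζ]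
    apply minpoly.dvd
    simp [hx]
  have hmin : minpoly K x = ∏ e ∈ S, (X - C (ζ ^ e.val)) := by
    have h1 : ∏ e ∈ S, (X - C (ζ ^ e.val)) ∣ minpoly K x :=
      G2_dvd hζ S _ (fun e he => (hmem e).mp he)
    have h2 : minpoly K x ∣ ∏ e ∈ S, (X - C (ζ ^ e.val)) := by
      have h3 : IsCoprime (minpoly K x) (∏ e ∈ Sᶜ, (X - C (ζ ^ e.val))) := by
        refine IsCoprime.prod_right ?_
        intro e he
        have h4 : ¬ (X - C (ζ ^ e.val) : K[X]) ∣ minpoly K x := by
          intro h5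
          exact (Finset.mem_compl.mp he) ((hmem e).mpr (dvd_iff_isRoot.mp h5))
        exact ((irreducible_X_sub_C (ζ ^ e.val)).coprime_iff_not_dvd.mpr h4).symm
      refine h3.dvd_of_dvd_mul_right ?_
      rw [Finset.prod_mul_prod_compl]
      exact hdvd
    refine eq_of_monic_of_associated (minpoly.monic hint) (monic_prod_X_sub_C _ _)
      (associated_of_dvd_dvd h2 h1)
  have hzero : ∀ q : K[X], (∀ e ∈ S, q.eval (ζ ^ e.val) = 0) → aeval x q = 0 := by
    intro q hq
    obtain ⟨t, rfl⟩ := G2_dvd hζ S q hq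
    rw [← hmin, map_mul, minpoly.aeval, zero_mul]
  have hself : ∀ e ∈ S, (Lagrange.basis S (fun e : ZMod p => ζ ^ e.val) e).eval (ζ ^ e.val) = 1 :=
    fun e he => Lagrange.eval_basis_self (v := fun e : ZMod p => ζ ^ e.val)
      (fun a _ b _ hab => G2_inj hζ hab) he
  have hne : ∀ e, ∀ f ∈ S, e ≠ f →
      (Lagrange.basis S (fun e : ZMod p => ζ ^ e.val) e).eval (ζ ^ f.val) = 0 :=
    fun e f hf hef => Lagrange.eval_basis_of_ne (v := fun e : ZMod p => ζ ^ e.val) hef hf
  refine ⟨S, fun e => aeval x (Lagrange.basis S (fun e : ZMod p => ζ ^ e.val) e), hmem, ?_, ?_, ?_,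
    ?_, ?_⟩
  · rw [hmin, natDegree_finsetProd_X_sub_C_eq_card]
  · have h := hzero (∑ e ∈ S, Lagrange.basis S (fun e : ZMod p => ζ ^ e.val) e - 1) ?_
    · rw [map_sub, map_sum, map_one] at h
      exact sub_eq_zero.mp h
    · intro f hf
      rw [eval_sub, eval_finsetSum, eval_one, Finset.sum_eq_single f, hself f hf, sub_self]
      · intro e _ hef
        exact hne e f hf hef
      · intro hf'
        exact absurd hf hf'
  · intro e he
    have h := hzero (Lagrange.basis S (fun e : ZMod p => ζ ^ e.val) e *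
      Lagrange.basis S (fun e : ZMod p => ζ ^ e.val) e -
      Lagrange.basis S (fun e : ZMod p => ζ ^ e.val) e) ?_
    · rw [map_sub, map_mul] at h
      exact sub_eq_zero.mp h
    · intro f hf
      rw [eval_sub, eval_mul]
      by_cases hef : e = f
      · subst hef
        rw [hself e he]
        ring
      · rw [hne e f hf hef]
        ring
  · intro e he f hf hef
    have h := hzero (Lagrange.basis S (fun e : ZMod p => ζ ^ e.val) e *
      Lagrange.basis S (fun e : ZMod p => ζ ^ e.val) f) ?_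
    · rw [map_mul] at h
      exact h
    · intro g hg
      rw [eval_mul]
      by_cases heg : e = g
      · subst heg
        rw [hne f e he (Ne.symm hef), mul_zero]
      · rw [hne e g hg heg, zero_mul]
  · have h := hzero (∑ e ∈ S, C (ζ ^ e.val) * Lagrange.basis S (fun e : ZMod p => ζ ^ e.val) e
      - X) ?_
    · rw [map_sub, map_sum, aeval_X] at h
      refine Eq.trans ?_ (sub_eq_zero.mp h)
      refine Finset.sum_congr rfl fun e _ => ?_
      rw [map_mul, aeval_C, ← Algebra.smul_def]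
    · intro f hf
      rw [eval_sub, eval_finsetSum, eval_X, Finset.sum_eq_single f, eval_mul, eval_C,
        hself f hf, mul_one, sub_self]
      · intro e _ hef
        rw [eval_mul, hne e f hf hef, mul_zero]
      · intro hf'
        exact absurd hf hf'

/-- powers of `ζ` depend only on the exponent modulo `p` -/
private theorem G2_zpow {K : Type} [Field K] {p : ℕ} [Fact p.Prime] {ζ : K}
    (hζ : IsPrimitiveRoot ζ p) (m n : ℕ) (h : (m : ZMod p) = (n : ZMod p)) : ζ ^ m = ζ ^ n := by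
  have h1 : m ≡ n [MOD p] := (ZMod.natCast_eq_natCast_iff m n p).mp h
  rw [pow_eq_pow_mod m hζ.pow_eq_one, pow_eq_pow_mod n hζ.pow_eq_one, h1]

/-- The family. Proof. With `spectral` for `x = d`: `d(w) := ∑ e ∈ S, w^(h e) • E e`, `d'(w) := ∑ e ∈ S, w^(W - h e) • E e`, `P w := c * d(w) * c⁻¹ * d'(w)`.
`d ^ k = ∑ ζ^(e.val k) • E e`, so for `w = ζ ^ l.val`: `d ^ (r * l).val = ∑ ζ^((r l).val e.val) • E e = ζ^(r₀ l) • d(w)` since `(r l) e = r₀ l + l (h e)` in `ZMod p`, and
`(d ^ (r * l).val)⁻¹ = ζ^(-r₀ l) • ∑ w^(-h e) • E e`. -/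
theorem torus {K R : Type} [Field K] [Ring R] [Nontrivial R] [Algebra K R] {p : ℕ} [Fact p.Prime] {ζ : K}
    (hζ : IsPrimitiveRoot ζ p) (W : ℕ) (c d : Rˣ) (hd : d ^ p = 1)
    (r r₀ : ZMod p) (h : ZMod p → ℕ) (hh : ∀ s, s ∈ Ex ζ (d : R) → h s ≤ W ∧ r * s = r₀ + (h s : ZMod p)) :
    ∃ P : K → R, PolyFam (2 * W) P ∧ P 1 = 1 ∧
      ∀ l : ZMod p, P (ζ ^ l.val) = ζ ^ (l.val * W) • ((cm c (d ^ (r * l).val) : Rˣ) : R) := by
  have hdR : (d : R) ^ p = 1 := by
    rw [← Units.val_pow_eq_pow_val, hd, Units.val_one]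
  obtain ⟨S, E, hmem, -, hsum, hid, horth, hx⟩ := spectral hζ (d : R) hdR
  have hhS : ∀ e ∈ S, h e ≤ W ∧ r * e = r₀ + (h e : ZMod p) := fun e he => hh e ((hmem e).mp he)
  have hp : p ≠ 0 := (Fact.out : p.Prime).ne_zero
  have hζ0 : ζ ≠ 0 := hζ.ne_zero hp
  -- sums of idempotents
  have hmul : ∀ (a b : ZMod p → K), (∑ e ∈ S, a e • E e) * (∑ e ∈ S, b e • E e) =
      ∑ e ∈ S, (a e * b e) • E e := by
    intro a b
    rw [Finset.sum_mul]
    refine Finset.sum_congr rfl fun e he => ?_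
    rw [Finset.mul_sum, Finset.sum_eq_single e]
    · rw [smul_mul_smul_comm, hid e he]
    · intro f hf hfe
      rw [smul_mul_smul_comm, horth e he f hf (Ne.symm hfe), smul_zero]
    · intro he'
      exact absurd he he'
  have hpow : ∀ k : ℕ, (d : R) ^ k = ∑ e ∈ S, (ζ ^ e.val) ^ k • E e := by
    intro k
    induction k with
    | zero => simp only [pow_zero, one_smul, hsum]
    | succ k ih =>
      conv_lhs => rw [pow_succ, ih, ← hx]
      rw [hmul]
      refine Finset.sum_congr rfl fun e _ => ?_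
      rw [pow_succ]
  obtain ⟨D, hD⟩ : ∃ D : K → R, ∀ w, D w = ∑ e ∈ S, w ^ (h e) • E e := ⟨_, fun _ => rfl⟩
  obtain ⟨D', hD'⟩ : ∃ D' : K → R, ∀ w, D' w = ∑ e ∈ S, w ^ (W - h e) • E e := ⟨_, fun _ => rfl⟩
  have hfD : PolyFam W D := by
    have h1 : D = fun w => ∑ e ∈ S, w ^ (h e) • E e := funext hD
    rw [h1]
    exact PolyFam.sum S (fun e he => (PolyFam.monomial (h e) (E e)).mono (hhS e he).1)
  have hfD' : PolyFam W D' := by
    have h1 : D' = fun w => ∑ e ∈ S, w ^ (W - h e) • E e := funext hD'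
    rw [h1]
    exact PolyFam.sum S (fun e _ => (PolyFam.monomial (W - h e) (E e)).mono (Nat.sub_le _ _))
  have hDD' : ∀ w, D w * D' w = w ^ W • (1 : R) := by
    intro w
    rw [hD, hD', hmul, ← hsum, Finset.smul_sum]
    refine Finset.sum_congr rfl fun e he => ?_
    rw [← pow_add, Nat.add_sub_cancel' (hhS e he).1]
  refine ⟨fun w => (c : R) * D w * ((c⁻¹ : Rˣ) : R) * D' w, ?_, ?_, ?_⟩
  · have h1 := (((PolyFam.const (K := K) (c : R) 0).mul hfD).mul
      (PolyFam.const (K := K) ((c⁻¹ : Rˣ) : R) 0)).mul hfD'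
    exact h1.mono (by omega)
  · have h1 : D 1 = 1 := by
      rw [hD]
      simp only [one_pow, one_smul, hsum]
    have h2 : D' 1 = 1 := by
      rw [hD']
      simp only [one_pow, one_smul, hsum]
    simp only [h1, h2, mul_one, Units.mul_inv]
  · intro l
    obtain ⟨z, hz⟩ : ∃ z : K, z = ζ ^ (r₀ * l).val := ⟨_, rfl⟩
    have hz0 : z ≠ 0 := by
      rw [hz]
      exact pow_ne_zero _ hζ0
    obtain ⟨u, hu⟩ : ∃ u : Rˣ, u = d ^ (r * l).val := ⟨_, rfl⟩
    have huR : (u : R) = z • D (ζ ^ l.val) := by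
      rw [hu, Units.val_pow_eq_pow_val, hpow, hD, Finset.smul_sum]
      refine Finset.sum_congr rfl fun e he => ?_
      rw [smul_smul, hz, ← pow_mul, ← pow_mul, ← pow_add]
      congr 1
      apply G2_zpow hζ
      push_cast
      rw [ZMod.natCast_zmod_val, ZMod.natCast_zmod_val, ZMod.natCast_zmod_val,
        ZMod.natCast_zmod_val]
      linear_combination l * (hhS e he).2
    have hu' : D' (ζ ^ l.val) = (z * (ζ ^ l.val) ^ W) • ((u⁻¹ : Rˣ) : R) := by
      have h1 : (u : R) * D' (ζ ^ l.val) = (z * (ζ ^ l.val) ^ W) • (1 : R) := by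
        rw [huR, smul_mul_assoc, hDD', smul_smul]
      calc D' (ζ ^ l.val) = ((u⁻¹ : Rˣ) : R) * ((u : R) * D' (ζ ^ l.val)) := by
            rw [← mul_assoc, Units.inv_mul, one_mul]
        _ = (z * (ζ ^ l.val) ^ W) • ((u⁻¹ : Rˣ) : R) := by
            rw [h1, mul_smul_comm, mul_one]
    have hD2 : D (ζ ^ l.val) = z⁻¹ • (u : R) := by
      rw [huR, smul_smul, inv_mul_cancel₀ hz0, one_smul]
    show (c : R) * D (ζ ^ l.val) * ((c⁻¹ : Rˣ) : R) * D' (ζ ^ l.val) =
      ζ ^ (l.val * W) • ((cm c (d ^ (r * l).val) : Rˣ) : R)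
    rw [← hu, hD2, hu']
    unfold cm
    rw [Units.val_mul, Units.val_mul, Units.val_mul]
    simp only [mul_smul_comm, smul_mul_assoc, smul_smul]
    congr 1
    rw [pow_mul]
    field_simp

end Pool.Agent.FewEig
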