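import Pool.Agent.Lib_MP_e73b0e.C4
import Pool.Agent.Lib_MP_e73b0e.D3
import Pool.Agent.Lib_MP_e73b0e.E5
import Pool.Agent.Lib_MP_e73b0e.G2

/-! PIECE H1: exponents of the commutators `[c, d^l]`. -/

set_option autoImplicit false

open Polynomial

namespace Pool.Agent.FewEig

private theorem h1_aeval_comp {K R : Type} [Field K] [Ring R] [Algebra K R] (x : R) (c : K) (f : K[X]) :
    aeval x (f.comp (C c * X)) = aeval (c • x) f := by
  rw [aeval_comp, map_mul, aeval_C, aeval_X, Algebra.smul_def]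

private theorem h1_dvd {K R : Type} [Field K] [Ring R] [Algebra K R] (x : R) (c : K) :
    minpoly K x ∣ (minpoly K (c • x)).comp (C c * X) := by
  apply minpoly.dvd
  rw [h1_aeval_comp, minpoly.aeval]

private theorem h1_isRoot {K R : Type} [Field K] [Ring R] [Algebra K R] (x : R) (c : K) (hc : c ≠ 0) (t : K) :
    (minpoly K (c • x)).IsRoot (c * t) ↔ (minpoly K x).IsRoot t := by
  constructor
  · intro h
    have h1 := h1_dvd (c • x) c⁻¹
    rw [smul_smul, inv_mul_cancel₀ hc, one_smul] at h1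
    have h2 := h.dvd h1
    rw [IsRoot.def, eval_comp, eval_mul, eval_C, eval_X, inv_mul_cancel_left₀ hc] at h2
    exact h2
  · intro h
    have h2 := h.dvd (h1_dvd x c)
    rw [IsRoot.def, eval_comp, eval_mul, eval_C, eval_X] at h2
    exact h2

private theorem h1_le {K R : Type} [Field K] [Ring R] [Algebra K R] (x : R)
    (hx : IsIntegral K x) (c : K) (hc : c ≠ 0) : (minpoly K x).natDegree ≤ (minpoly K (c • x)).natDegree := by
  have h1 := natDegree_le_of_dvd (h1_dvd x c) ?_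
  · rwa [natDegree_comp, natDegree_C_mul_X c hc, mul_one] at h1
  · intro h0
    rw [comp_eq_zero_iff] at h0
    rcases h0 with h0 | h0
    · exact minpoly.ne_zero (hx.smul c) h0
    · have h2 := h0.2
      have h3 := congrArg natDegree h2
      rw [natDegree_C_mul_X c hc, natDegree_C] at h3
      exact one_ne_zero h3

/-- scalar multiples by roots of unity. Proof. `minpoly` of `c • x`, or: `t` is a root of `minpoly K x` iff `x - t` is not a unit (`x` integral), so `e ∈ Ex ζ x` iff `x - ζ^e` is not a unit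
(`spectrum`, `minpoly`), and `ζ^j • x - ζ^e = ζ^j • (x - ζ^(e-j))`. -/
theorem Ex_smul {K R : Type} [Field K] [Ring R] [Nontrivial R] [Algebra K R] {p : ℕ} [Fact p.Prime] {ζ : K}
    (hζ : IsPrimitiveRoot ζ p) (x : R) (hx : x ^ p = 1) (j : ℕ) (e : ZMod p) :
    e ∈ Ex ζ (ζ ^ j • x) ↔ e - (j : ZMod p) ∈ Ex ζ x := by
  have hp : p ≠ 0 := (Fact.out : p.Prime).ne_zero
  have hζ0 : ζ ≠ 0 := hζ.ne_zero hp
  have h1 : ζ ^ e.val = ζ ^ j * ζ ^ (e - (j : ZMod p)).val := by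
    rw [← pow_add]
    refine pow_eq_pow_of_modEq ?_ hζ.pow_eq_one
    rw [← ZMod.natCast_eq_natCast_iff, Nat.cast_add, ZMod.natCast_zmod_val, ZMod.natCast_zmod_val]
    ring
  change (minpoly K (ζ ^ j • x)).IsRoot (ζ ^ e.val) ↔ (minpoly K x).IsRoot (ζ ^ (e - (j : ZMod p)).val)
  rw [h1]
  exact h1_isRoot x (ζ ^ j) (pow_ne_zero _ hζ0) _

/-- the degree of a scalar multiple -/
theorem natDegree_minpoly_smul {K R : Type} [Field K] [Ring R] [Nontrivial R] [Algebra K R] (x : R)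
    (hx : IsIntegral K x) (c : K) (hc : c ≠ 0) : (minpoly K (c • x)).natDegree = (minpoly K x).natDegree := by
  refine le_antisymm ?_ (h1_le x hx c hc)
  have h1 := h1_le (c • x) (hx.smul c) c⁻¹ (inv_ne_zero hc)
  rwa [smul_smul, inv_mul_cancel₀ hc, one_smul] at h1

/-- Proof. Let `P` be the family of `torus`. `(P (ζ^l))^p = 1` and the degree of its minimal polynomial is `≤ n` (`natDegree_minpoly_smul`). `family` gives `M, F, a`; `a 0 = 0` as `P 1 = 1`, whose minimal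
polynomial is `X - 1`. `descent` (with `2^M ≤ 2^n`) into the field of `exists_cyclotomic`; `core` with `B = W (n (n+1))` gives `U`: for `l ≠ 0` `Ex ζ (P (ζ^l)) = l * U`. By `Ex_smul`
`e ∈ Ex ζ [c, d^(r l)]` iff `e + l W ∈ Ex ζ (P (ζ^l))` iff `e + l W = l u` with `u ∈ U`. -/
theorem exponents {K R : Type} [Field K] [IsAlgClosed K] [Ring R] [Nontrivial R] [Algebra K R] {p n W : ℕ}
    [Fact p.Prime] (hp2 : p ≠ 2) {ζ : K} (hζ : IsPrimitiveRoot ζ p)
    (hK : ringChar K = 0 ∨ (2 ^ n * p) ^ (p - 1) < ringChar K) (hB : 2 * (W * (n * (n + 1))) < p)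
    (c d : Rˣ) (hd : d ^ p = 1) (hcd : ∀ l : ℕ, (cm c (d ^ l)) ^ p = 1)
    (hdeg : ∀ l : ℕ, (minpoly K ((cm c (d ^ l) : Rˣ) : R)).natDegree ≤ n)
    (r r₀ : ZMod p) (h : ZMod p → ℕ) (hh : ∀ s, s ∈ Ex ζ (d : R) → h s ≤ W ∧ r * s = r₀ + (h s : ZMod p)) :
    ∃ U : Finset ℕ, (∀ u ∈ U, u ≤ W * (n * (n + 1))) ∧ ∀ l : ZMod p, l ≠ 0 → ∀ e : ZMod p,
      e ∈ Ex ζ ((cm c (d ^ (r * l).val) : Rˣ) : R) ↔ ∃ u ∈ U, e = l * ((u : ZMod p) - (W : ZMod p)) := by
  have hp : p ≠ 0 := (Fact.out : p.Prime).ne_zero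
  have hζ0 : ζ ≠ 0 := hζ.ne_zero hp
  obtain ⟨P, hP, hP1, hPl⟩ := torus hζ W c d hd r r₀ h hh
  have hcm : ∀ l : ℕ, ((cm c (d ^ l) : Rˣ) : R) ^ p = 1 := by
    intro l
    rw [← Units.val_pow_eq_pow_val, hcd l, Units.val_one]
  have hint : ∀ l : ℕ, IsIntegral K ((cm c (d ^ l) : Rˣ) : R) := by
    intro l
    refine ⟨X ^ p - 1, monic_X_pow_sub_C 1 hp, ?_⟩
    rw [← aeval_def, map_sub, map_pow, aeval_X, map_one, hcm l, sub_self]
  have hpow : ∀ l : ZMod p, P (ζ ^ l.val) ^ p = 1 := by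
    intro l
    rw [hPl l, _root_.smul_pow, hcm, ← pow_mul, mul_comm (l.val * W) p, pow_mul, hζ.pow_eq_one, one_pow, one_smul]
  have hdeg' : ∀ l : ZMod p, (minpoly K (P (ζ ^ l.val))).natDegree ≤ n := by
    intro l
    rw [hPl l, natDegree_minpoly_smul _ (hint _) _ (pow_ne_zero _ hζ0)]
    exact hdeg _
  obtain ⟨M, F, a, hM0, hMn, hFm, hFM, hFB, ha, hrange⟩ := family hζ P W n hP hpow hdeg' hB
  have ha0 : ∀ i, a 0 i = 0 := by
    intro i
    have h1 : a 0 i ∈ Ex ζ (P (ζ ^ (0 : ZMod p).val)) := by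
      rw [← hrange 0]
      exact ⟨i, rfl⟩
    rw [ZMod.val_zero, pow_zero, hP1] at h1
    have h2 : (minpoly K (1 : R)).IsRoot (ζ ^ (a 0 i).val) := h1
    rw [minpoly.one, IsRoot.def, eval_sub, eval_X, eval_one, sub_eq_zero] at h2
    have h3 := (hζ.pow_eq_one_iff_dvd _).1 h2
    have h4 : (a 0 i).val = 0 := Nat.eq_zero_of_dvd_of_lt h3 (ZMod.val_lt _)
    exact (ZMod.val_eq_zero _).1 h4
  have hK' : ringChar K = 0 ∨ (2 ^ M * p) ^ (p - 1) < ringChar K := by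
    rcases hK with hK | hK
    · exact Or.inl hK
    · refine Or.inr (lt_of_le_of_lt ?_ hK)
      exact Nat.pow_le_pow_left (Nat.mul_le_mul_right _ (Nat.pow_le_pow_right (by norm_num) hMn)) _
  obtain ⟨k, hk1, hk2, ζ₀, σ, n₀, hζ₀, hσ, hn₀, hσn⟩ := exists_cyclotomic p hp2
  obtain ⟨F₀, hF₀m, hF₀M, hF₀B, ha₀⟩ := descent hζ hK' (by omega) F hFB a ha hζ₀
  obtain ⟨U, hU, hUl⟩ := core hζ₀ σ hσ n₀ hn₀ hσn hB F₀ hF₀m hF₀M hF₀B a ha₀ ha0
  refine ⟨U, hU, fun l hl e => ?_⟩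
  have h1 : e ∈ Ex ζ ((cm c (d ^ (r * l).val) : Rˣ) : R) ↔ e + l * (W : ZMod p) ∈ Ex ζ (P (ζ ^ l.val)) := by
    rw [hPl l, Ex_smul hζ _ (hcm _), Nat.cast_mul, ZMod.natCast_zmod_val, add_sub_cancel_right]
  rw [h1, ← hrange l, hUl l hl]
  constructor
  · rintro ⟨u, hu, h2⟩
    refine ⟨u, hu, ?_⟩
    have h3 : l * (u : ZMod p) = e + l * (W : ZMod p) := h2
    rw [mul_sub, h3, add_sub_cancel_right]
  · rintro ⟨u, hu, h2⟩
    refine ⟨u, hu, ?_⟩
    change l * (u : ZMod p) = e + l * (W : ZMod p)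
    rw [h2]
    ring

end Pool.Agent.FewEig
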