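import Pool.Agent.Lib_MP_e73b0e.H1
import Pool.Agent.Lib_MP_e73b0e.G1

/-! PIECE H2: two elements commute. -/

set_option autoImplicit false

open Polynomial

namespace Pool.Agent.FewEig

private theorem isIntegral_of_pow {K R : Type} [Field K] [Ring R] [Algebra K R] {p : ℕ} (hp : 0 < p) (x : R)
    (hx : x ^ p = 1) : IsIntegral K x := by
  refine ⟨X ^ p - 1, monic_X_pow_sub_C 1 hp.ne', ?_⟩
  show aeval x (X ^ p - 1 : K[X]) = 0
  rw [map_sub, map_pow, aeval_X, map_one, hx, sub_self]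

private theorem isRoot_minpoly_iff {K R : Type} [Field K] [Ring R] [Nontrivial R] [Algebra K R] (x : R)
    (hx : IsIntegral K x) (t : K) : (minpoly K x).IsRoot t ↔ ¬ IsUnit (x - algebraMap K R t) := by
  have hsub : aeval x (X - C t) = x - algebraMap K R t := by
    rw [map_sub, aeval_X, aeval_C]
  constructor
  · intro h hu
    obtain ⟨g, hg⟩ := dvd_iff_isRoot.2 h
    have hne := minpoly.ne_zero hx
    have hg0 : g ≠ 0 := by
      rintro rfl
      rw [mul_zero] at hg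
      exact hne hg
    have h1 : aeval x g = 0 := by
      have h2 := minpoly.aeval K x
      rw [hg, map_mul, hsub] at h2
      have h3 := hu.mul_right_eq_zero.1 h2
      exact h3
    have h2 := minpoly.degree_le_of_ne_zero K x hg0 h1
    rw [hg, degree_mul, degree_X_sub_C] at h2
    have h3 : g.degree = (g.natDegree : WithBot ℕ) := degree_eq_natDegree hg0
    rw [h3] at h2
    have h4 : (1 : WithBot ℕ) + (g.natDegree : WithBot ℕ) = ((1 + g.natDegree : ℕ) : WithBot ℕ) := by push_cast; rfl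
    rw [h4, Nat.cast_le] at h2
    omega
  · intro h
    by_contra hroot
    apply h
    have hcop : IsCoprime (X - C t) (minpoly K x) :=
      (irreducible_X_sub_C t).coprime_iff_not_dvd.2 fun hd => hroot (dvd_iff_isRoot.1 hd)
    obtain ⟨a, b, hab⟩ := hcop
    have h1 : aeval x a * (x - algebraMap K R t) = 1 := by
      have h2 := congrArg (aeval x) hab
      rwa [map_add, map_mul, map_mul, minpoly.aeval, mul_zero, add_zero, hsub, map_one] at h2
    have h2 : (x - algebraMap K R t) * aeval x a = 1 := by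
      rw [← hsub, ← map_mul, mul_comm, map_mul, hsub, h1]
    exact ⟨⟨_, _, h2, h1⟩, rfl⟩

private theorem zeta_neg {K : Type} [Field K] {p : ℕ} [Fact p.Prime] {ζ : K} (hζ : IsPrimitiveRoot ζ p) (e : ZMod p) :
    ζ ^ (-e).val * ζ ^ e.val = 1 := by
  rw [← pow_add, ← Nat.mod_add_div ((-e).val + e.val) p, ← ZMod.val_add, neg_add_cancel, ZMod.val_zero,
    zero_add, pow_mul, hζ.pow_eq_one, one_pow]

/-- inverse: Proof. `x - ζ^e` is not a unit iff `x⁻¹ - ζ^(-e)` is not a unit. -/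
theorem Ex_inv {K R : Type} [Field K] [Ring R] [Nontrivial R] [Algebra K R] {p : ℕ} [Fact p.Prime] {ζ : K}
    (hζ : IsPrimitiveRoot ζ p) (x : Rˣ) (hx : x ^ p = 1) (e : ZMod p) :
    e ∈ Ex ζ ((x⁻¹ : Rˣ) : R) ↔ -e ∈ Ex ζ (x : R) := by
  have hp0 : 0 < p := (Fact.out : p.Prime).pos
  have hx1 : (x : R) ^ p = 1 := by rw [← Units.val_pow_eq_pow_val, hx, Units.val_one]
  have hx2 : ((x⁻¹ : Rˣ) : R) ^ p = 1 := by
    rw [← Units.val_pow_eq_pow_val, inv_pow, hx, inv_one, Units.val_one]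
  show (minpoly K ((x⁻¹ : Rˣ) : R)).IsRoot _ ↔ (minpoly K (x : R)).IsRoot _
  rw [isRoot_minpoly_iff _ (isIntegral_of_pow hp0 _ hx2), isRoot_minpoly_iff _ (isIntegral_of_pow hp0 _ hx1)]
  have hz := zeta_neg hζ e
  have hs : IsUnit (algebraMap K R (-(ζ ^ e.val))) := by
    refine IsUnit.map (algebraMap K R) (IsUnit.mk0 _ ?_)
    intro h0
    rw [neg_eq_zero] at h0
    rw [h0, mul_zero] at hz
    exact zero_ne_one hz
  have h1 : ((x⁻¹ : Rˣ) : R) - algebraMap K R (ζ ^ e.val) =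
      algebraMap K R (-(ζ ^ e.val)) * ((x⁻¹ : Rˣ) : R) * ((x : R) - algebraMap K R (ζ ^ (-e).val)) := by
    rw [mul_sub, mul_assoc, Units.inv_mul, mul_one, mul_assoc, ← Algebra.commutes, ← mul_assoc, ← map_mul]
    have h2 : -(ζ ^ e.val) * ζ ^ (-e).val = -1 := by
      rw [neg_mul, mul_comm, hz]
    rw [h2, map_neg, map_neg, map_one]
    noncomm_ring
  rw [h1]
  have hu : IsUnit (algebraMap K R (-(ζ ^ e.val)) * ((x⁻¹ : Rˣ) : R)) := hs.mul (Units.isUnit _)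
  rw [not_iff_not]
  obtain ⟨u, hu'⟩ := hu
  rw [← hu']
  exact Units.isUnit_units_mul u _

/-- the degree of the inverse: both degrees are the number of exponents (`spectral`, `Ex_inv`). -/
theorem natDegree_minpoly_inv {K R : Type} [Field K] [Ring R] [Nontrivial R] [Algebra K R] {p : ℕ} [Fact p.Prime] {ζ : K}
    (hζ : IsPrimitiveRoot ζ p) (x : Rˣ) (hx : x ^ p = 1) :
    (minpoly K ((x⁻¹ : Rˣ) : R)).natDegree = (minpoly K (x : R)).natDegree := by
  have hx1 : (x : R) ^ p = 1 := by rw [← Units.val_pow_eq_pow_val, hx, Units.val_one]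
  have hx2 : ((x⁻¹ : Rˣ) : R) ^ p = 1 := by
    rw [← Units.val_pow_eq_pow_val, inv_pow, hx, inv_one, Units.val_one]
  obtain ⟨S, E, hS, hdS, -⟩ := spectral hζ (x : R) hx1
  obtain ⟨S', E', hS', hdS', -⟩ := spectral hζ ((x⁻¹ : Rˣ) : R) hx2
  rw [hdS, hdS']
  refine Finset.card_bij (fun e _ => -e) ?_ ?_ ?_
  · intro e he
    rw [hS, ← Ex_inv hζ x hx, ← hS']
    exact he
  · intro a _ b _ hab
    exact neg_injective hab
  · intro b hb
    refine ⟨-b, ?_, neg_neg b⟩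
    rw [hS', Ex_inv hζ x hx, neg_neg, ← hS]
    exact hb

/-- only the eigenvalue `1`: Proof. `spectral`: `S ⊆ {0}`. -/
theorem eq_one_of_Ex {K R : Type} [Field K] [Ring R] [Nontrivial R] [Algebra K R] {p : ℕ} [Fact p.Prime] {ζ : K}
    (hζ : IsPrimitiveRoot ζ p) (x : R) (hx : x ^ p = 1) (h : ∀ e : ZMod p, e ∈ Ex ζ x → e = 0) : x = 1 := by
  obtain ⟨S, E, hS, -, hone, -, -, hsum⟩ := spectral hζ x hx
  rw [← hsum, ← hone]
  refine Finset.sum_congr rfl fun e he => ?_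
  rw [h e ((hS e).1 he), ZMod.val_zero, pow_zero, one_smul]

/-- Proof. `m ≥ 2`, so `p > (2n+1)^2 > 2`. `Q := (2n+1)^2`, `Q^(m-1) < p`. `dirichlet` for the exponent sets of `d` and of `c` (finsets of size `= deg minpoly ≤ m`, `spectral`): `D, r, r₀, h` and
`D', r', r₀', h'`, both with `D Q < p`; `W = 2 D`, `B = W n (n+1) = 2 D n (n+1)`, `2 B + 1 = D (Q - 1) + 1 < p` (also for `D = 0`), same for `W' = 2 D'`. (α) `exponents` for `(c^k, d)`, `l = r⁻¹`: every `e ∈ Ex [c^k, d]` is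
`r⁻¹ (u - W)` with `u ≤ B`, `W ≤ B`: so `r e` is in `[-B, B]` modulo `p`. (β) `exponents` for `(d, c)` and `l = r'⁻¹ k`, `k ≠ 0`: `e ∈ Ex [d, c^k]` iff `e = k y` with `y ∈ Y := r'⁻¹ (U' - W')`. `[c^k, d] = [d, c^k]⁻¹` and `Ex_inv`. If `0 ≠ y ∈ Y`: let `k := - r⁻¹ y⁻¹ (B + 1) ≠ 0`;
`- k y = r⁻¹ (B+1) ∈ Ex [c^k, d]`, so `B + 1` is in `[-B, B]` modulo `p`, impossible since `2 B + 1 < p`. So `Y ⊆ {0}`, `Ex [c, d] ⊆ {0}`, `[c, d] = 1`. -/
theorem commute_of_two_le {K R : Type} [Field K] [IsAlgClosed K] [Ring R] [Nontrivial R] [Algebra K R] {p m n : ℕ}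
    [Fact p.Prime] (hm : 2 ≤ m) (hn : 0 < n) {ζ : K} (hζ : IsPrimitiveRoot ζ p)
    (hK : ringChar K = 0 ∨ (2 ^ n * p) ^ (p - 1) < ringChar K) (hpm : (2 * n + 1) ^ (2 * (m - 1)) < p)
    (c d : Rˣ) (hc : c ^ p = 1) (hd : d ^ p = 1) (hcd : ∀ k l : ℕ, (cm (c ^ k) (d ^ l)) ^ p = 1)
    (hcdeg : (minpoly K (c : R)).natDegree ≤ m) (hddeg : (minpoly K (d : R)).natDegree ≤ m)
    (hdeg : ∀ k l : ℕ, (minpoly K ((cm (c ^ k) (d ^ l) : Rˣ) : R)).natDegree ≤ n) : c * d = d * c := by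
  have hpp : p.Prime := Fact.out
  have hQ : ((2 * n + 1) ^ 2) ^ (m - 1) < p := by rwa [← pow_mul]
  have hp9 : 9 < p := by
    refine lt_of_le_of_lt ?_ hpm
    calc 9 = 3 ^ 2 := by norm_num
      _ ≤ (2 * n + 1) ^ 2 := Nat.pow_le_pow_left (by omega) 2
      _ ≤ (2 * n + 1) ^ (2 * (m - 1)) := Nat.pow_le_pow_right (by omega) (by omega)
  have hp2 : p ≠ 2 := by omega
  have : Fact (1 < p) := ⟨hpp.one_lt⟩
  -- the bound
  have hbound : ∀ D : ℕ, D * (2 * n + 1) ^ 2 < p → 2 * (2 * D * (n * (n + 1))) + 1 < p := by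
    intro D hD
    have h1 : D * (2 * n + 1) ^ 2 = 2 * (2 * D * (n * (n + 1))) + D := by ring
    rcases Nat.eq_zero_or_pos D with h0 | h0
    · subst h0
      simp
      omega
    · omega
  have key : ∀ x : Rˣ, x ^ p = 1 → (minpoly K (x : R)).natDegree ≤ m →
      ∃ (D : ℕ) (r r₀ : ZMod p) (h : ZMod p → ℕ), D * (2 * n + 1) ^ 2 < p ∧ r ≠ 0 ∧
        ∀ s, s ∈ Ex ζ (x : R) → h s ≤ 2 * D ∧ r * s = r₀ + (h s : ZMod p) := by
    intro x hx hxm
    have hx1 : (x : R) ^ p = 1 := by rw [← Units.val_pow_eq_pow_val, hx, Units.val_one]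
    obtain ⟨S, E, hS, hdS, -⟩ := spectral hζ (x : R) hx1
    obtain ⟨D, r, r₀, h, h1, h2, h3⟩ := dirichlet m ((2 * n + 1) ^ 2) (by omega) (by positivity) hQ S (by omega)
    exact ⟨D, r, r₀, h, h1, h2, fun s hs => h3 s ((hS s).2 hs)⟩
  obtain ⟨D, r, r₀, h, hD, hr, hh⟩ := key d hd hddeg
  obtain ⟨D', r', r₀', h', hD', hr', hh'⟩ := key c hc hcdeg
  have hB := hbound D hD
  have hB' := hbound D' hD'
  have hnn : 1 ≤ n * (n + 1) := Nat.mul_pos hn (Nat.succ_pos n)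
  have hWB : 2 * D ≤ 2 * D * (n * (n + 1)) := Nat.le_mul_of_pos_right _ hnn
  -- the inverse commutator
  have hinv : ∀ k : ℕ, cm d (c ^ k) = (cm (c ^ k) d)⁻¹ := by
    intro k
    unfold cm
    group
  have hcdk : ∀ k : ℕ, (cm (c ^ k) d) ^ p = 1 := by
    intro k
    have := hcd k 1
    rwa [pow_one] at this
  have hdegk : ∀ k : ℕ, (minpoly K ((cm (c ^ k) d : Rˣ) : R)).natDegree ≤ n := by
    intro k
    have := hdeg k 1
    rwa [pow_one] at this
  -- alpha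
  have halpha : ∀ k : ℕ, ∀ e : ZMod p, e ∈ Ex ζ ((cm (c ^ k) d : Rˣ) : R) →
      ∃ u : ℕ, u ≤ 2 * D * (n * (n + 1)) ∧ r * e = (u : ZMod p) - ((2 * D : ℕ) : ZMod p) := by
    intro k e he
    obtain ⟨U, hU, hUe⟩ := exponents hp2 hζ hK (by omega) (c ^ k) d hd (hcd k) (hdeg k) r r₀ h hh
    have h1 := hUe r⁻¹ (inv_ne_zero hr) e
    rw [mul_inv_cancel₀ hr, ZMod.val_one, pow_one] at h1
    obtain ⟨u, hu, hue⟩ := h1.1 he
    refine ⟨u, hU u hu, ?_⟩
    rw [hue, ← mul_assoc, mul_inv_cancel₀ hr, one_mul]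
  -- beta
  obtain ⟨U', hU', hUe'⟩ := exponents hp2 hζ hK (n := n) (W := 2 * D') (by omega) d c hc
    (fun l => by rw [hinv, inv_pow, hcdk, inv_one])
    (fun l => by
      rw [hinv, natDegree_minpoly_inv hζ _ (hcdk l)]
      exact hdegk l) r' r₀' h' hh'
  have hzero : ∀ u ∈ U', (u : ZMod p) - ((2 * D' : ℕ) : ZMod p) = 0 := by
    intro u hu
    by_contra hy
    set y : ZMod p := (u : ZMod p) - ((2 * D' : ℕ) : ZMod p) with hydef
    set B : ℕ := 2 * D * (n * (n + 1)) with hBdef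
    have hB1 : ((B + 1 : ℕ) : ZMod p) ≠ 0 := by
      rw [Ne, ZMod.natCast_eq_zero_iff]
      intro hdvd
      have := Nat.le_of_dvd (Nat.succ_pos _) hdvd
      omega
    set l : ZMod p := -(r⁻¹ * ((B + 1 : ℕ) : ZMod p)) * y⁻¹ with hl
    have hl0 : l ≠ 0 := mul_ne_zero (neg_ne_zero.2 (mul_ne_zero (inv_ne_zero hr) hB1)) (inv_ne_zero hy)
    have hly : l * y = -(r⁻¹ * ((B + 1 : ℕ) : ZMod p)) := by
      rw [hl, mul_assoc, inv_mul_cancel₀ hy, mul_one]
    have h1 : l * y ∈ Ex ζ ((cm d (c ^ (r' * l).val) : Rˣ) : R) := (hUe' l hl0 (l * y)).2 ⟨u, hu, rfl⟩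
    rw [hinv, Ex_inv hζ _ (hcdk _), hly, neg_neg] at h1
    obtain ⟨v, hv, hv'⟩ := halpha _ _ h1
    rw [← mul_assoc, mul_inv_cancel₀ hr, one_mul, eq_sub_iff_add_eq, ← Nat.cast_add] at hv'
    have h2 : B + 1 + 2 * D = v := by
      have h3 := (ZMod.natCast_eq_natCast_iff' _ _ _).1 hv'
      rwa [Nat.mod_eq_of_lt (by omega), Nat.mod_eq_of_lt (by omega)] at h3
    omega
  have hone : ((cm d c : Rˣ) : R) = 1 := by
    refine eq_one_of_Ex hζ _ ?_ fun e he => ?_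
    · have h1 := hcdk 1
      have h2 := hinv 1
      rw [pow_one] at h1 h2
      rw [h2, ← Units.val_pow_eq_pow_val, inv_pow, h1, inv_one, Units.val_one]
    · have h1 := hUe' r'⁻¹ (inv_ne_zero hr') e
      rw [mul_inv_cancel₀ hr', ZMod.val_one, pow_one] at h1
      obtain ⟨u, hu, hue⟩ := h1.1 he
      rw [hue, hzero u hu, mul_zero]
  have h1 : cm d c = 1 := Units.ext hone
  unfold cm at h1
  have h2 : d * c * d⁻¹ * c⁻¹ * (c * d) = 1 * (c * d) := by rw [h1]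
  have h3 : d * c = c * d := by
    rw [one_mul] at h2
    rw [← h2]
    group
  exact h3.symm

end Pool.Agent.FewEig
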