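import Pool.Agent.Lib_MP_e73b0e.H2

/-! PIECE J1: arbitrary fields and algebras. -/

set_option autoImplicit false

open Polynomial

namespace Pool.Agent.FewEig

/-- `x` satisfies a nonzero polynomial of degree at most `n` over `K`. -/
def DegLE (K : Type) {R : Type} [Field K] [Ring R] [Algebra K R] (n : ℕ) (x : R) : Prop :=
  ∃ f : K[X], f ≠ 0 ∧ f.natDegree ≤ n ∧ aeval x f = 0

/-- A unit of degree at most one is a scalar. -/
theorem commute_of_one {K R : Type} [Field K] [Ring R] [Algebra K R] (c d : Rˣ) (hc : DegLE K 1 (c : R)) :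
    c * d = d * c := by
  rcases subsingleton_or_nontrivial R with hR | hR
  · exact Units.ext (Subsingleton.elim _ _)
  obtain ⟨f, hf0, hf1, hf⟩ := hc
  rw [Polynomial.eq_X_add_C_of_natDegree_le_one hf1] at hf
  simp only [map_add, map_mul, aeval_C, aeval_X] at hf
  have ha : f.coeff 1 ≠ 0 := by
    intro ha
    rw [ha, map_zero, zero_mul, zero_add] at hf
    have hb : f.coeff 0 = 0 := by
      have := (algebraMap K R).injective
      apply this
      rw [hf, map_zero]
    apply hf0
    rw [Polynomial.eq_X_add_C_of_natDegree_le_one hf1, ha, hb]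
    simp
  have hcs : (c : R) = algebraMap K R (-(f.coeff 0) / f.coeff 1) := by
    have h1 : algebraMap K R (f.coeff 1) * (c : R) = algebraMap K R (-(f.coeff 0)) := by
      rw [map_neg]
      exact eq_neg_of_add_eq_zero_left hf
    calc (c : R) = algebraMap K R ((f.coeff 1)⁻¹) * (algebraMap K R (f.coeff 1) * (c : R)) := by
          rw [← mul_assoc, ← map_mul, inv_mul_cancel₀ ha, map_one, one_mul]
      _ = algebraMap K R (-(f.coeff 0) / f.coeff 1) := by
          rw [h1, ← map_mul]
          congr 1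
          rw [div_eq_mul_inv, mul_comm]
  apply Units.ext
  simp only [Units.val_mul]
  rw [hcs]
  exact Algebra.commutes _ _

open TensorProduct in
theorem J1_natDegree {K R : Type} [Field K] [Ring R] [Algebra K R] (L : Type) [Field L] [Algebra K L] {n : ℕ}
    (x : R) (hx : DegLE K n x) :
    (minpoly L ((Algebra.TensorProduct.includeRight : R →ₐ[K] L ⊗[K] R) x)).natDegree ≤ n := by
  obtain ⟨f, hf0, hf1, hf⟩ := hx
  have h0 : f.map (algebraMap K L) ≠ 0 := by
    rwa [Ne, Polynomial.map_eq_zero]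
  have h1 : aeval ((Algebra.TensorProduct.includeRight : R →ₐ[K] L ⊗[K] R) x) (f.map (algebraMap K L)) = 0 := by
    rw [aeval_map_algebraMap, aeval_algHom_apply, hf, map_zero]
  have h2 := minpoly.degree_le_of_ne_zero L ((Algebra.TensorProduct.includeRight : R →ₐ[K] L ⊗[K] R) x) h0 h1
  have h3 := natDegree_le_natDegree h2
  rw [natDegree_map] at h3
  exact h3.trans hf1

/-- Proof. `R` trivial: clear. `m = 1`: `commute_of_one`. `m ≥ 2`: `L := AlgebraicClosure K`, `R' := L ⊗[K] R` (nontrivial), the ring homomorphism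
`Algebra.TensorProduct.includeRight : R →ₐ[K] R'` is injective (`K` is a field). `DegLE K n x` gives `(minpoly L (includeRight x)).natDegree ≤ n`:
`f.map (algebraMap K L)` annihilates it (`minpoly.natDegree_le_of_ne_zero`-type lemma, `minpoly.degree_le_of_ne_zero`). `ringChar L = ringChar K`; `L` has a primitive `p`-th root of unity as
`(p : L) ≠ 0` (`ringChar K = 0` or `> p`). Apply `commute_of_two_le` in `R'` to the images of `c, d` (`Units.map`). -/
theorem commute_units {K R : Type} [Field K] [Ring R] [Algebra K R] {p m n : ℕ} (hp : p.Prime)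
    (hm : 0 < m) (hn : 0 < n) (hpm : (2 * n + 1) ^ (2 * (m - 1)) < p)
    (hK : ringChar K = 0 ∨ (2 ^ n * p) ^ (p - 1) < ringChar K)
    (c d : Rˣ) (hc : c ^ p = 1) (hd : d ^ p = 1)
    (hcd : ∀ k l : ℕ, (c ^ k * d ^ l * (c ^ k)⁻¹ * (d ^ l)⁻¹) ^ p = 1)
    (hcm : DegLE K m (c : R)) (hdm : DegLE K m (d : R))
    (hcdn : ∀ k l : ℕ, DegLE K n ((c ^ k * d ^ l * (c ^ k)⁻¹ * (d ^ l)⁻¹ : Rˣ) : R)) : c * d = d * c := by
  rcases subsingleton_or_nontrivial R with hR | hR
  · exact Units.ext (Subsingleton.elim _ _)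
  rcases Nat.lt_or_ge m 2 with h2 | h2
  · have hm1 : m = 1 := by omega
    subst hm1
    exact commute_of_one c d hcm
  haveI : Fact p.Prime := ⟨hp⟩
  let L := AlgebraicClosure K
  let φ : R →ₐ[K] TensorProduct K L R := Algebra.TensorProduct.includeRight
  have hφ : Function.Injective φ := Algebra.TensorProduct.includeRight_injective (algebraMap K L).injective
  haveI : Nontrivial (TensorProduct K L R) := hφ.nontrivial
  have hchar : ringChar K = ringChar L := Algebra.ringChar_eq K L
  have hpL : ((p : ℕ) : L) ≠ 0 := by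
    rw [Ne, ringChar.spec L p, ← hchar]
    intro hdvd
    rcases hK with h0 | h1
    · rw [h0, zero_dvd_iff] at hdvd
      exact hp.ne_zero hdvd
    · have h3 : ringChar K ≤ p := Nat.le_of_dvd hp.pos hdvd
      have h4 : p ≤ (2 ^ n * p) ^ (p - 1) := by
        have h5 : 1 ≤ p - 1 := by have := hp.two_le; omega
        have h6 : p ≤ 2 ^ n * p := Nat.le_mul_of_pos_left p (by positivity)
        exact h6.trans (Nat.le_self_pow (by omega) _)
      omega
  haveI : NeZero ((p : ℕ) : L) := ⟨hpL⟩
  obtain ⟨ζ, hζ⟩ := HasEnoughRootsOfUnity.exists_primitiveRoot L p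
  let ψ : Rˣ →* (TensorProduct K L R)ˣ := Units.map (φ : R →* TensorProduct K L R)
  have hψ : Function.Injective ψ := Units.map_injective hφ
  have hcm' : ∀ k l : ℕ, cm ((ψ c) ^ k) ((ψ d) ^ l) = ψ (c ^ k * d ^ l * (c ^ k)⁻¹ * (d ^ l)⁻¹) := by
    intro k l
    simp only [cm, map_mul, map_pow, map_inv]
  have hkey : (ψ c) * (ψ d) = (ψ d) * (ψ c) := by
    refine commute_of_two_le (K := L) (m := m) (n := n) (p := p) h2 hn hζ ?_ hpm (ψ c) (ψ d) ?_ ?_ ?_ ?_ ?_ ?_
    · rwa [← hchar]
    · rw [← map_pow, hc, map_one]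
    · rw [← map_pow, hd, map_one]
    · intro k l
      rw [hcm', ← map_pow, hcd, map_one]
    · exact J1_natDegree L (c : R) hcm
    · exact J1_natDegree L (d : R) hdm
    · intro k l
      rw [hcm']
      exact J1_natDegree L _ (hcdn k l)
  apply hψ
  rw [map_mul, map_mul, hkey]

end Pool.Agent.FewEig
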