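import Mathlib

/-! PIECE J2: regular groups of prime exponent. -/

set_option autoImplicit false

namespace Pool.Agent.FewEig

private lemma sum_pow_eq_zero {V A : Type} [AddCommGroup V] [Group A] [DistribMulAction A V]
    {p : ℕ} (hA : ∀ a : A, a ^ p = 1)
    (hreg : ∀ a : A, a ≠ 1 → ∀ v : V, a • v = v → v = 0)
    (a : A) (ha : a ≠ 1) (v : V) : ∑ i ∈ Finset.range p, a ^ i • v = 0 := by
  apply hreg a ha
  have h1 : a • ∑ i ∈ Finset.range p, a ^ i • v = ∑ i ∈ Finset.range p, a ^ (i + 1) • v := by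
    rw [Finset.smul_sum]
    refine Finset.sum_congr rfl fun i _ => ?_
    rw [smul_smul, ← pow_succ']
  have h2 : ∑ i ∈ Finset.range p, a ^ (i + 1) • v + a ^ 0 • v
      = ∑ i ∈ Finset.range p, a ^ i • v + a ^ p • v := by
    rw [← Finset.sum_range_succ' (fun i => a ^ i • v) p, Finset.sum_range_succ]
  rw [hA a, pow_zero] at h2
  rw [h1]
  exact add_right_cancel h2

private lemma pow_ne_one {A : Type} [Group A] {p : ℕ} (hp : p.Prime) (hA : ∀ a : A, a ^ p = 1)
    (c : A) (hc : c ≠ 1) (i : ℕ) (hi : 0 < i) (hip : i < p) : c ^ i ≠ 1 := by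
  intro h
  have h1 : orderOf c = p := by
    haveI : Fact p.Prime := ⟨hp⟩
    exact orderOf_eq_prime (hA c) hc
  have h2 := orderOf_dvd_of_pow_eq_one h
  rw [h1] at h2
  exact absurd (Nat.le_of_dvd hi h2) (not_le.mpr hip)

/-- Proof. Suppose `b ∉ zpowers c`. For `v : V` and `k`: `b c^k ≠ 1`, and `∑ i < p, (b c^k)^i • v` is fixed by `b c^k`, so it is `0`; also `∑ i < p, c^i • v = 0`. Hence
`0 = ∑ k < p, ∑ i < p, (b c^k)^i • v = p • v + ∑ 1 ≤ i < p, b^i • ∑ k < p, c^(k i) • v = p • v` (`k ↦ k i` permutes the residues). So `V = 0`, and `c = 1` by faithfulness. -/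
theorem mem_zpowers_of_commute {V A : Type} [AddCommGroup V] [Group A] [DistribMulAction A V] [FaithfulSMul A V]
    {p : ℕ} (hp : p.Prime) (hA : ∀ a : A, a ^ p = 1)
    (hreg : ∀ a : A, a ≠ 1 → ∀ v : V, a • v = v → v = 0) (hV : ∀ v : V, p • v = 0 → v = 0)
    (c b : A) (hc : c ≠ 1) (h : c * b = b * c) : b ∈ Subgroup.zpowers c := by
  by_contra hb
  have hcb : Commute b c := h.symm
  have hv0 : ∀ v : V, v = 0 := by
    intro v
    apply hV
    have e1 : ∑ k ∈ Finset.range p, ∑ i ∈ Finset.range p, (b * c ^ k) ^ i • v = 0 := by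
      refine Finset.sum_eq_zero fun k _ => ?_
      refine sum_pow_eq_zero hA hreg (b * c ^ k) ?_ v
      intro h1
      apply hb
      have h2 : b = (c ^ k)⁻¹ := eq_inv_of_mul_eq_one_left h1
      rw [h2]
      exact (Subgroup.zpowers c).inv_mem ((Subgroup.zpowers c).pow_mem
        (Subgroup.mem_zpowers c) k)
    rw [Finset.sum_comm] at e1
    have e2 : ∀ i ∈ Finset.range p, i ≠ 0 →
        ∑ k ∈ Finset.range p, (b * c ^ k) ^ i • v = 0 := by
      intro i hi hi0
      have h1 : ∀ k ∈ Finset.range p, (b * c ^ k) ^ i • v = b ^ i • ((c ^ i) ^ k • v) := by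
        intro k _
        rw [(hcb.pow_right k).mul_pow, smul_smul, ← pow_mul, ← pow_mul, mul_comm k i]
      rw [Finset.sum_congr rfl h1, ← Finset.smul_sum,
        sum_pow_eq_zero hA hreg (c ^ i) (pow_ne_one hp hA c hc i (Nat.pos_of_ne_zero hi0)
          (Finset.mem_range.mp hi)) v, smul_zero]
    rw [Finset.sum_eq_single 0 e2 (fun h0 => absurd (Finset.mem_range.mpr hp.pos) h0)] at e1
    simpa using e1
  apply hc
  apply FaithfulSMul.eq_of_smul_eq_smul (α := V)
  intro v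
  rw [hv0 v, smul_zero, smul_zero]

/-- Proof. `g c g⁻¹ ∈ zpowers c` for all `g`. For `b` let `b c b⁻¹ = c ^ i`; `c = b^p c b^(-p) = c^(i^p) = c^i` (Fermat, `c ^ p = 1`), so `b` commutes with `c` and `b ∈ zpowers c`. -/
theorem isCyclic_of_conj {V A : Type} [AddCommGroup V] [Group A] [DistribMulAction A V] [FaithfulSMul A V]
    {p : ℕ} (hp : p.Prime) (hA : ∀ a : A, a ^ p = 1)
    (hreg : ∀ a : A, a ≠ 1 → ∀ v : V, a • v = v → v = 0) (hV : ∀ v : V, p • v = 0 → v = 0)
    (c : A) (hc : c ≠ 1) (h : ∀ g : A, c * (g * c * g⁻¹) = (g * c * g⁻¹) * c) : IsCyclic A := by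
  refine ⟨⟨c, fun b => ?_⟩⟩
  apply mem_zpowers_of_commute hp hA hreg hV c b hc
  have hmem : b * c * b⁻¹ ∈ Subgroup.zpowers c :=
    mem_zpowers_of_commute hp hA hreg hV c _ hc (h b)
  have hfin : IsOfFinOrder c := isOfFinOrder_iff_pow_eq_one.mpr ⟨p, hp.pos, hA c⟩
  have hmem2 : b * c * b⁻¹ ∈ Submonoid.powers c := hfin.mem_powers_iff_mem_zpowers.mpr hmem
  obtain ⟨n, hn⟩ := hmem2
  have hn' : b * c * b⁻¹ = c ^ n := hn.symm
  have hpow : ∀ m : ℕ, b ^ m * c * (b ^ m)⁻¹ = c ^ (n ^ m) := by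
    intro m
    induction m with
    | zero => simp
    | succ m ih =>
      have h1 : b ^ (m + 1) * c * (b ^ (m + 1))⁻¹ = b * (b ^ m * c * (b ^ m)⁻¹) * b⁻¹ := by
        rw [pow_succ']; group
      rw [h1, ih, ← conj_pow, hn', ← pow_mul, pow_succ']
  have h1 := hpow p
  rw [hA b] at h1
  have h2 : c = c ^ (n ^ p) := by simpa using h1
  have h3 : c ^ (n ^ p) = c ^ n := by
    haveI : Fact p.Prime := ⟨hp⟩
    have h4 : orderOf c = p := orderOf_eq_prime (hA c) hc
    rw [pow_eq_pow_iff_modEq, h4, ← ZMod.natCast_eq_natCast_iff]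
    push_cast
    exact ZMod.pow_card _
  have h5 : b * c * b⁻¹ = c := by rw [hn', ← h3, ← h2]
  have h6 : b * c = c * b := by
    calc b * c = (b * c * b⁻¹) * b := by group
      _ = c * b := by rw [h5]
  exact h6.symm

end Pool.Agent.FewEig
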