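import Pool.Agent.Lib_MP_e73b0e.J1
import Pool.Agent.Lib_MP_e73b0e.J2

/-! Assembly. -/

set_option autoImplicit false

open Polynomial

namespace Pool.Agent.FewEig

/-- conjugation by a unit -/
theorem DegLE.conj {K R : Type} [Field K] [Ring R] [Algebra K R] {n : ℕ} {x : R} (h : DegLE K n x) (g : Rˣ) :
    DegLE K n ((g : R) * x * ((g⁻¹ : Rˣ) : R)) := by
  obtain ⟨f, hf, hfn, hfx⟩ := h
  refine ⟨f, hf, hfn, ?_⟩
  have h1 : ∀ q : K[X], aeval ((g : R) * x * ((g⁻¹ : Rˣ) : R)) q = (g : R) * aeval x q * ((g⁻¹ : Rˣ) : R) := by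
    intro q
    induction q using Polynomial.induction_on' with
    | add p q hp hq => rw [map_add, map_add, hp, hq, mul_add, add_mul]
    | monomial i a =>
      rw [aeval_monomial, aeval_monomial, Units.conj_pow g x i, ← mul_assoc, ← mul_assoc, ← mul_assoc, Algebra.commutes a (g : R)]
  rw [h1, hfx, mul_zero, zero_mul]

/-- One conjugation: `b c b⁻¹ ∈ zpowers c`, so `b` normalizes and (Fermat) centralizes `zpowers c`, so `b ∈ zpowers c`. -/
theorem mem_zpowers_of_conj {V A : Type} [AddCommGroup V] [Group A] [DistribMulAction A V] [FaithfulSMul A V]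
    {p : ℕ} (hp : p.Prime) (hA : ∀ a : A, a ^ p = 1)
    (hreg : ∀ a : A, a ≠ 1 → ∀ v : V, a • v = v → v = 0) (hV : ∀ v : V, p • v = 0 → v = 0)
    (c b : A) (hc : c ≠ 1) (h : c * (b * c * b⁻¹) = (b * c * b⁻¹) * c) : b ∈ Subgroup.zpowers c := by
  apply mem_zpowers_of_commute hp hA hreg hV c b hc
  have hmem : b * c * b⁻¹ ∈ Subgroup.zpowers c :=
    mem_zpowers_of_commute hp hA hreg hV c _ hc h
  have hfin : IsOfFinOrder c := isOfFinOrder_iff_pow_eq_one.mpr ⟨p, hp.pos, hA c⟩
  have hmem2 : b * c * b⁻¹ ∈ Submonoid.powers c := hfin.mem_powers_iff_mem_zpowers.mpr hmem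
  obtain ⟨n, hn⟩ := hmem2
  have hn' : b * c * b⁻¹ = c ^ n := hn.symm
  have hpow : ∀ m : ℕ, b ^ m * c * (b ^ m)⁻¹ = c ^ (n ^ m) := by
    intro m
    induction m with
    | zero => simp
    | succ m ih =>
      have h1 : b ^ (m + 1) * c * (b ^ (m + 1))⁻¹ = b * (b ^ m * c * (b ^ m)⁻¹) * b⁻¹ := by
        rw [pow_succ']; group
      rw [h1, ih, ← conj_pow, hn', ← pow_mul, pow_succ']
  have h1 := hpow p
  rw [hA b] at h1
  have h2 : c = c ^ (n ^ p) := by simpa using h1
  have h3 : c ^ (n ^ p) = c ^ n := by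
    haveI : Fact p.Prime := ⟨hp⟩
    have h4 : orderOf c = p := orderOf_eq_prime (hA c) hc
    rw [pow_eq_pow_iff_modEq, h4, ← ZMod.natCast_eq_natCast_iff]
    push_cast
    exact ZMod.pow_card _
  have h5 : b * c * b⁻¹ = c := by rw [hn', ← h3, ← h2]
  have h6 : b * c = c * b := by
    calc b * c = (b * c * b⁻¹) * b := by group
      _ = c * b := by rw [h5]
  exact h6.symm

theorem main {K : Type} [Field K] {p m n : ℕ} (hp : p.Prime)
    (hm : 0 < m) (hn : 0 < n) (hpm : (2 * n + 1) ^ (2 * (m - 1)) < p)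
    (hK : ringChar K = 0 ∨ (2 ^ n * p) ^ (p - 1) < ringChar K)
    (V : Type) [AddCommGroup V] [Module K V] (A : Type) [Group A] [DistribMulAction A V]
    [FaithfulSMul A V] [SMulCommClass A K V] (hA : Monoid.exponent A = p)
    (hreg : ∀ a : A, a ≠ 1 → ∀ v : V, a • v = v → v = 0) (c : A) (hc : c ≠ 1)
    (hcm : DegLE K m (DistribMulAction.toModuleEnd K V c))
    (X : Set A) (hX : Subgroup.closure X = ⊤)
    (hcn : ∀ g ∈ X, ∀ k l : ℕ, DegLE K n (DistribMulAction.toModuleEnd K V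
      (c ^ k * (g * c ^ l * g⁻¹) * (c ^ k)⁻¹ * (g * c ^ l * g⁻¹)⁻¹))) : IsCyclic A := by
  have hA' : ∀ a : A, a ^ p = 1 := fun a => by
    rw [← hA]
    exact Monoid.pow_exponent_eq_one a
  have hpK : (p : K) ≠ 0 := by
    intro h0
    have h1 : ringChar K ∣ p := (ringChar.spec K p).1 h0
    rcases hK with hK | hK
    · rw [hK] at h1
      exact hp.ne_zero (Nat.eq_zero_of_zero_dvd h1)
    · rcases (Nat.dvd_prime hp).1 h1 with h2 | h2
      · rw [h2] at hK
        have h3 : 1 ≤ (2 ^ n * p) ^ (p - 1) := Nat.one_le_pow _ _ (Nat.mul_pos (by positivity) hp.pos)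
        omega
      · rw [h2] at hK
        have h3 : p ≤ (2 ^ n * p) ^ (p - 1) := by
          have h4 : 0 < 2 ^ n := by positivity
          calc p ≤ 2 ^ n * p := Nat.le_mul_of_pos_left p h4
            _ ≤ (2 ^ n * p) ^ (p - 1) := Nat.le_self_pow (by have := hp.two_le; omega) _
        omega
  have hVp : ∀ v : V, p • v = 0 → v = 0 := by
    intro v hv
    have h1 : (p : K) • v = 0 := by rwa [Nat.cast_smul_eq_nsmul]
    exact (smul_eq_zero.1 h1).resolve_left hpK
  let φ : A →* (Module.End K V)ˣ := (DistribMulAction.toModuleEnd K V).toHomUnits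
  have hφ : Function.Injective φ := by
    intro a b hab
    refine FaithfulSMul.eq_of_smul_eq_smul (α := V) fun v => ?_
    exact congrArg (fun u : (Module.End K V)ˣ => (u : Module.End K V) v) hab
  have hXc : (⊤ : Subgroup A) ≤ Subgroup.zpowers c := by
    rw [← hX, Subgroup.closure_le]
    intro g hg
    refine mem_zpowers_of_conj hp hA' hreg hVp c g hc (hφ ?_)
    rw [map_mul φ c, map_mul φ (g * c * g⁻¹) c]
    refine commute_units hp hm hn hpm hK (φ c) (φ (g * c * g⁻¹)) ?_ ?_ ?_ hcm ?_ ?_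
    · rw [← map_pow, hA', map_one]
    · rw [← map_pow, hA', map_one]
    · intro k l
      rw [← map_pow, ← map_pow, ← map_inv, ← map_inv, ← map_mul, ← map_mul, ← map_mul, ← map_pow, hA', map_one]
    · have h1 := DegLE.conj hcm (φ g)
      rw [map_mul, map_mul, map_inv]
      exact h1
    · intro k l
      have h1 := hcn g hg k l
      rw [← conj_pow] at h1
      rw [← map_pow, ← map_pow, ← map_inv, ← map_inv, ← map_mul, ← map_mul, ← map_mul]
      exact h1
  exact ⟨⟨c, fun x => hXc (Subgroup.mem_top x)⟩⟩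

end Pool.Agent.FewEig
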